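import Mathlib

set_option autoImplicit false

/-! Isomorphism of quaternion algebras `(a,b)` over a field of characteristic `≠ 2`. -/

namespace Pool.Agent.TH188.ET

open scoped Quaternion

variable {F : Type*} [Field F]

/-- two anticommuting elements generate -/
theorem equiv_of_anti (h2 : (2 : F) ≠ 0) {a b c d : F} (hc : c ≠ 0) (hd : d ≠ 0)
    (u v : ℍ[F,a,0,b]) (hu : u * u = c • 1) (hv : v * v = d • 1) (huv : v * u = -(u * v)) :
    Nonempty (ℍ[F,c,0,d] ≃ₐ[F] ℍ[F,a,0,b]) := by
  let B : QuaternionAlgebra.Basis ℍ[F,a,0,b] c 0 d :=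
    { i := u, j := v, k := u * v, i_mul_i := by simp [hu], j_mul_j := hv, i_mul_j := rfl
      j_mul_i := by simp [huv] }
  have hinj : Function.Injective B.liftHom := by
    rw [injective_iff_map_eq_zero]
    intro x hx
    have hx' : x.re • (1 : ℍ[F,a,0,b]) + x.imI • u + x.imJ • v + x.imK • (u * v) = 0 := by
      have : B.liftHom x = algebraMap F _ x.re + x.imI • u + x.imJ • v + x.imK • (u * v) := rfl
      rw [this] at hx
      rw [← hx, Algebra.algebraMap_eq_smul_one]
    obtain ⟨x0, x1, x2, x3⟩ := x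
    simp only at hx'
    -- conjugate by `u`
    have huvu : u * v * u = -(c • v) := by
      have h1 : v * u = -(u * v) := huv
      calc u * v * u = u * (v * u) := mul_assoc _ _ _
        _ = -(u * u * v) := by rw [h1, mul_neg, mul_assoc]
        _ = -(c • v) := by rw [hu, smul_mul_assoc, one_mul]
    have hc1 : u * (x0 • (1 : ℍ[F,a,0,b]) + x1 • u + x2 • v + x3 • (u * v)) * u = 0 := by
      rw [hx']; simp
    have hc2 : u * (x0 • (1 : ℍ[F,a,0,b]) + x1 • u + x2 • v + x3 • (u * v)) * u
        = c • (x0 • (1 : ℍ[F,a,0,b]) + x1 • u - x2 • v - x3 • (u * v)) := by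
      have e1 : u * (x0 • (1 : ℍ[F,a,0,b])) * u = c • (x0 • (1 : ℍ[F,a,0,b])) := by
        rw [mul_smul_comm, mul_one, smul_mul_assoc, hu, smul_comm]
      have e2 : u * (x1 • u) * u = c • (x1 • u) := by
        rw [mul_smul_comm, smul_mul_assoc, hu, smul_mul_assoc, one_mul, smul_comm]
      have e3 : u * (x2 • v) * u = - (c • (x2 • v)) := by
        rw [mul_smul_comm, smul_mul_assoc, huvu, smul_neg, smul_comm]
      have e4 : u * (x3 • (u * v)) * u = - (c • (x3 • (u * v))) := by
        have : u * (u * v) * u = - (c • (u * v)) := by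
          rw [mul_assoc, huvu, mul_neg, mul_smul_comm]
        rw [mul_smul_comm, smul_mul_assoc, this, smul_neg, smul_comm]
      rw [mul_add, mul_add, mul_add, add_mul, add_mul, add_mul, e1, e2, e3, e4]
      rw [smul_sub, smul_sub, smul_add]
      abel
    rw [hc2] at hc1
    have hc3 := (smul_eq_zero.mp hc1).resolve_left hc
    have h01 : x0 • (1 : ℍ[F,a,0,b]) + x1 • u = 0 := by
      have : (2 : F) • (x0 • (1 : ℍ[F,a,0,b]) + x1 • u) = 0 := by
        have := congrArg₂ (· + ·) hx' hc3
        simp only [add_zero] at this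
        rw [two_smul, ← this]
        abel
      exact (smul_eq_zero.mp this).resolve_left h2
    have h23 : x2 • v + x3 • (u * v) = 0 := by
      rw [add_assoc, h01, zero_add] at hx'
      exact hx'
    -- general principle
    have key : ∀ s t : F, s • (1 : ℍ[F,a,0,b]) + t • u = 0 → s = 0 ∧ t = 0 := by
      intro s t hst
      have k1 : v * (s • (1 : ℍ[F,a,0,b]) + t • u) * v = 0 := by rw [hst]; simp
      have k2 : v * (s • (1 : ℍ[F,a,0,b]) + t • u) * v = d • (s • (1 : ℍ[F,a,0,b]) - t • u) := by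
        have e1 : v * (s • (1 : ℍ[F,a,0,b])) * v = d • (s • (1 : ℍ[F,a,0,b])) := by
          rw [mul_smul_comm, mul_one, smul_mul_assoc, hv, smul_comm]
        have e2 : v * (t • u) * v = -(d • (t • u)) := by
          rw [mul_smul_comm, smul_mul_assoc, huv, neg_mul, mul_assoc, hv, mul_smul_comm, mul_one,
            smul_neg, smul_comm]
        rw [mul_add, add_mul, e1, e2, smul_sub]
        abel
      rw [k2] at k1
      have k3 := (smul_eq_zero.mp k1).resolve_left hd
      have k4 : (2 : F) • (s • (1 : ℍ[F,a,0,b])) = 0 := by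
        have := congrArg₂ (· + ·) hst k3
        simp only [add_zero] at this
        rw [two_smul, ← this]
        abel
      have k5 := (smul_eq_zero.mp k4).resolve_left h2
      have k6 : s = 0 := by
        have := congrArg QuaternionAlgebra.re k5
        simpa using this
      refine ⟨k6, ?_⟩
      rw [k6, zero_smul, zero_add] at hst
      rcases smul_eq_zero.mp hst with h | h
      · exact h
      · exfalso
        rw [h, zero_mul] at hu
        have := congrArg QuaternionAlgebra.re hu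
        simp at this
        exact hc this.symm
    obtain ⟨r0, r1⟩ := key _ _ h01
    have h23' : x2 • (1 : ℍ[F,a,0,b]) + x3 • u = 0 := by
      have : (x2 • v + x3 • (u * v)) * v = 0 := by rw [h23]; simp
      rw [add_mul, smul_mul_assoc, smul_mul_assoc, mul_assoc, hv, mul_smul_comm, mul_one,
        smul_comm x2, smul_comm x3, ← smul_add] at this
      exact (smul_eq_zero.mp this).resolve_left hd
    obtain ⟨r2, r3⟩ := key _ _ h23'
    subst r0 r1 r2 r3
    rfl
  have hsurj : Function.Surjective B.liftHom := by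
    have := (LinearMap.injective_iff_surjective_of_finrank_eq_finrank
      (f := B.liftHom.toLinearMap) (by
        rw [QuaternionAlgebra.finrank_eq_four, QuaternionAlgebra.finrank_eq_four])).mp hinj
    exact this
  exact ⟨AlgEquiv.ofBijective B.liftHom ⟨hinj, hsurj⟩⟩

/-- coordinates of the images of the standard generators -/
theorem coords (h2 : (2 : F) ≠ 0) {a b c d : F} (hc : c ≠ 0) (hd : d ≠ 0)
    (φ : ℍ[F,c,0,d] ≃ₐ[F] ℍ[F,a,0,b]) :
    ∃ p q r p' q' r' : F, c = a * p ^ 2 + b * q ^ 2 - a * b * r ^ 2 ∧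
      d = a * p' ^ 2 + b * q' ^ 2 - a * b * r' ^ 2 ∧
      a * p * p' + b * q * q' - a * b * r * r' = 0 := by
  set u := φ ⟨0, 1, 0, 0⟩ with hu
  set v := φ ⟨0, 0, 1, 0⟩ with hv
  have huu : u * u = c • 1 := by
    rw [hu, ← map_mul]
    have : (⟨0, 1, 0, 0⟩ : ℍ[F,c,0,d]) * ⟨0, 1, 0, 0⟩ = c • 1 := by
      ext <;> simp
    rw [this, map_smul, map_one]
  have hvv : v * v = d • 1 := by
    rw [hv, ← map_mul]
    have : (⟨0, 0, 1, 0⟩ : ℍ[F,c,0,d]) * ⟨0, 0, 1, 0⟩ = d • 1 := by
      ext <;> simp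
    rw [this, map_smul, map_one]
  have huv : u * v = -(v * u) := by
    rw [hu, hv, ← map_mul, ← map_mul, ← map_neg]
    congr 1
    ext <;> simp
  obtain ⟨s, p, q, r⟩ := u
  obtain ⟨s', p', q', r'⟩ := v
  have hu0 := congrArg QuaternionAlgebra.re huu
  have hu1 := congrArg QuaternionAlgebra.imI huu
  have hu2 := congrArg QuaternionAlgebra.imJ huu
  have hu3 := congrArg QuaternionAlgebra.imK huu
  have hv0 := congrArg QuaternionAlgebra.re hvv
  have hv1 := congrArg QuaternionAlgebra.imI hvv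
  have hv2 := congrArg QuaternionAlgebra.imJ hvv
  have hv3 := congrArg QuaternionAlgebra.imK hvv
  have hm0 := congrArg QuaternionAlgebra.re huv
  have hm1 := congrArg QuaternionAlgebra.imI huv
  have hm2 := congrArg QuaternionAlgebra.imJ huv
  have hm3 := congrArg QuaternionAlgebra.imK huv
  simp at hu0 hu1 hu2 hu3 hv0 hv1 hv2 hv3 hm0 hm1 hm2 hm3
  have hs : s = 0 := by
    by_contra hs
    have hp : p = 0 := by
      have : (2 * s) * p = 0 := by linear_combination hu1
      exact (mul_eq_zero.mp this).resolve_left (mul_ne_zero h2 hs)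
    have hq : q = 0 := by
      have : (2 * s) * q = 0 := by linear_combination hu2
      exact (mul_eq_zero.mp this).resolve_left (mul_ne_zero h2 hs)
    have hr : r = 0 := by
      have : (2 * s) * r = 0 := by linear_combination hu3
      exact (mul_eq_zero.mp this).resolve_left (mul_ne_zero h2 hs)
    subst hp hq hr
    have e0 : s' = 0 := by
      have : (2 * s) * s' = 0 := by linear_combination hm0
      exact (mul_eq_zero.mp this).resolve_left (mul_ne_zero h2 hs)
    have e1 : p' = 0 := by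
      have : (2 * s) * p' = 0 := by linear_combination hm1
      exact (mul_eq_zero.mp this).resolve_left (mul_ne_zero h2 hs)
    have e2 : q' = 0 := by
      have : (2 * s) * q' = 0 := by linear_combination hm2
      exact (mul_eq_zero.mp this).resolve_left (mul_ne_zero h2 hs)
    have e3 : r' = 0 := by
      have : (2 * s) * r' = 0 := by linear_combination hm3
      exact (mul_eq_zero.mp this).resolve_left (mul_ne_zero h2 hs)
    subst e0 e1 e2 e3
    apply hd
    linear_combination -hv0
  have hs' : s' = 0 := by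
    by_contra hs'
    have hp : p' = 0 := by
      have : (2 * s') * p' = 0 := by linear_combination hv1
      exact (mul_eq_zero.mp this).resolve_left (mul_ne_zero h2 hs')
    have hq : q' = 0 := by
      have : (2 * s') * q' = 0 := by linear_combination hv2
      exact (mul_eq_zero.mp this).resolve_left (mul_ne_zero h2 hs')
    have hr : r' = 0 := by
      have : (2 * s') * r' = 0 := by linear_combination hv3
      exact (mul_eq_zero.mp this).resolve_left (mul_ne_zero h2 hs')
    subst hp hq hr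
    have e0 : s = 0 := hs
    have e1 : p = 0 := by
      have : (2 * s') * p = 0 := by linear_combination hm1
      exact (mul_eq_zero.mp this).resolve_left (mul_ne_zero h2 hs')
    have e2 : q = 0 := by
      have : (2 * s') * q = 0 := by linear_combination hm2
      exact (mul_eq_zero.mp this).resolve_left (mul_ne_zero h2 hs')
    have e3 : r = 0 := by
      have : (2 * s') * r = 0 := by linear_combination hm3
      exact (mul_eq_zero.mp this).resolve_left (mul_ne_zero h2 hs')
    subst e0 e1 e2 e3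
    apply hc
    linear_combination -hu0
  subst hs hs'
  refine ⟨p, q, r, p', q', r', ?_, ?_, ?_⟩
  · linear_combination -hu0
  · linear_combination -hv0
  · have : (2 : F) * (a * p * p' + b * q * q' - a * b * r * r') = 0 := by linear_combination hm0
    exact (mul_eq_zero.mp this).resolve_left h2

/-- `(a,b) ≅ (a,c)` gives `b ∈ c N_a` -/
theorem norm_of_equiv (h2 : (2 : F) ≠ 0) {a b c : F} (ha : a ≠ 0) (hb : b ≠ 0)
    (φ : ℍ[F,a,0,b] ≃ₐ[F] ℍ[F,a,0,c]) : ∃ x y : F, b = c * (x ^ 2 - a * y ^ 2) := by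
  obtain ⟨p, q, r, p', q', r', h1, h3, h4⟩ := coords h2 ha hb φ
  by_cases hp : 1 + p = 0
  · have hp' : p = -1 := by linear_combination hp
    subst hp'
    refine ⟨q' + p' * q / 2, r' + p' * r / 2, ?_⟩
    field_simp
    linear_combination 4 * h3 - 4 * p' * h4 + p' ^ 2 * h1
  · refine ⟨q' - p' * q / (1 + p), r' - p' * r / (1 + p), ?_⟩
    field_simp
    linear_combination (1 + p) ^ 2 * h3 + 2 * (1 + p) * p' * h4 + p' ^ 2 * h1

/-- `(a, b n) ≅ (a, b)` for a norm `n` -/
theorem equiv_of_norm (h2 : (2 : F) ≠ 0) {a b c x y : F} (ha : a ≠ 0) (hb : b ≠ 0)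
    (h : b = c * (x ^ 2 - a * y ^ 2)) : Nonempty (ℍ[F,a,0,b] ≃ₐ[F] ℍ[F,a,0,c]) := by
  refine equiv_of_anti h2 ha hb ⟨0, 1, 0, 0⟩ ⟨0, 0, x, y⟩ ?_ ?_ ?_
  · ext <;> simp
  · ext <;> simp
    · rw [h]; ring
    · ring
  · ext <;> simp <;> ring

/-- symmetry -/
theorem equiv_symm (h2 : (2 : F) ≠ 0) {a b : F} (ha : a ≠ 0) (hb : b ≠ 0) :
    Nonempty (ℍ[F,a,0,b] ≃ₐ[F] ℍ[F,b,0,a]) := by
  refine equiv_of_anti h2 ha hb ⟨0, 0, 1, 0⟩ ⟨0, 1, 0, 0⟩ ?_ ?_ ?_
  · ext <;> simp
  · ext <;> simp
  · ext <;> simp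

/-- common slot -/
theorem common_slot (h2 : (2 : F) ≠ 0) {a b c d : F} (ha : a ≠ 0) (hb : b ≠ 0) (hc : c ≠ 0)
    (hd : d ≠ 0) (h : Nonempty (ℍ[F,c,0,d] ≃ₐ[F] ℍ[F,a,0,b])) :
    ∃ x : F, x ≠ 0 ∧ Nonempty (ℍ[F,a,0,x] ≃ₐ[F] ℍ[F,a,0,b]) ∧
      Nonempty (ℍ[F,c,0,x] ≃ₐ[F] ℍ[F,a,0,b]) := by
  obtain ⟨φ⟩ := h
  obtain ⟨p, q, r, p', q', r', h1, h3, h4⟩ := coords h2 hc hd φ
  by_cases hD : q ^ 2 - a * r ^ 2 = 0
  · by_cases hr : r = 0
    · subst hr
      have hq : q = 0 := by
        have : q ^ 2 = 0 := by linear_combination hD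
        exact pow_eq_zero_iff (two_ne_zero) |>.mp this
      subst hq
      refine ⟨b, hb, ⟨AlgEquiv.refl⟩, ?_⟩
      refine equiv_of_anti h2 hc hb ⟨0, p, 0, 0⟩ ⟨0, 0, 1, 0⟩ ?_ ?_ ?_
      · ext <;> simp
        rw [h1]; ring
      · ext <;> simp
      · ext <;> simp
    · -- `a` is a square
      have hs : a = (q / r) ^ 2 := by
        field_simp
        linear_combination -hD
      set t := q / r with ht
      have ht0 : t ≠ 0 := by
        rintro h0
        apply ha
        rw [hs, h0]; ring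
      have hN : ∀ e : F, ∃ x y : F, e = x ^ 2 - a * y ^ 2 := by
        intro e
        refine ⟨(e + 1) / 2, (e - 1) / (2 * t), ?_⟩
        rw [hs]
        field_simp
        ring
      obtain ⟨x, y, hxy⟩ := hN (1 / b)
      have e1 : Nonempty (ℍ[F,a,0,1] ≃ₐ[F] ℍ[F,a,0,b]) :=
        equiv_of_norm h2 ha one_ne_zero (x := x) (y := y) (by rw [← hxy]; field_simp)
      refine ⟨1, one_ne_zero, e1, ?_⟩
      -- `(c,1) ≅ (1,c) ≅ (1,a) ≅ (a,1)`
      obtain ⟨f1⟩ := e1
      obtain ⟨f2⟩ := equiv_symm h2 (a := (1 : F)) (b := a) one_ne_zero ha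
      obtain ⟨f3⟩ := equiv_symm h2 (a := c) (b := (1 : F)) hc one_ne_zero
      obtain ⟨f4⟩ : Nonempty (ℍ[F,(1:F),0,c] ≃ₐ[F] ℍ[F,(1:F),0,a]) := by
        refine equiv_of_norm h2 one_ne_zero hc (x := (c / a + 1) / 2) (y := (c / a - 1) / 2) ?_
        field_simp
        ring
      exact ⟨((f3.trans f4).trans f2).trans f1⟩
  · refine ⟨-(a * b * (q ^ 2 - a * r ^ 2)), ?_, ?_, ?_⟩
    · exact neg_ne_zero.mpr (mul_ne_zero (mul_ne_zero ha hb) hD)
    · refine equiv_of_norm h2 ha (neg_ne_zero.mpr (mul_ne_zero (mul_ne_zero ha hb) hD))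
        (x := a * r) (y := q) ?_
      ring
    · refine equiv_of_anti h2 hc (neg_ne_zero.mpr (mul_ne_zero (mul_ne_zero ha hb) hD))
        ⟨0, p, q, r⟩ ⟨0, 0, a * r, q⟩ ?_ ?_ ?_
      · ext <;> simp
        · rw [h1]; ring
        all_goals ring
      · ext <;> simp <;> ring
      · ext <;> simp <;> ring

end Pool.Agent.TH188.ET
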