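import Pool.Agent.TH188.ET.Defs
import Pool.Agent.TH188.ET.Quat

set_option autoImplicit false

namespace Pool.Agent.TH188.ET

open scoped Quaternion TensorProduct
open Pool.Agent.H315R3.ETC

section
variable {F : Type*} [Field F]

/-- isomorphism of the quaternion algebras `(a,b)` and `(c,d)` -/
def QIso (a b c d : Fˣ) : Prop :=
  Nonempty (ℍ[F,(a : F),0,(b : F)] ≃ₐ[F] ℍ[F,(c : F),0,(d : F)])

theorem QIso.refl (a b : Fˣ) : QIso a b a b := ⟨AlgEquiv.refl⟩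

theorem QIso.symm {a b c d : Fˣ} (h : QIso a b c d) : QIso c d a b := by
  obtain ⟨f⟩ := h
  exact ⟨f.symm⟩

theorem QIso.trans {a b c d e f : Fˣ} (h : QIso a b c d) (h' : QIso c d e f) : QIso a b e f := by
  obtain ⟨f⟩ := h
  obtain ⟨g⟩ := h'
  exact ⟨f.trans g⟩

theorem NormFrom.one (a : Fˣ) : NormFrom a 1 := ⟨1, 0, by simp⟩

theorem NormFrom.mul {a b c : Fˣ} (hb : NormFrom a b) (hc : NormFrom a c) :
    NormFrom a (b * c) := by
  obtain ⟨x, y, h⟩ := hb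
  obtain ⟨z, w, h'⟩ := hc
  refine ⟨x * z + a * y * w, x * w + y * z, ?_⟩
  rw [Units.val_mul, h, h']
  ring

theorem NormFrom.sq (a b : Fˣ) : NormFrom a (b ^ 2) := ⟨b, 0, by simp⟩

theorem NormFrom.inv {a b : Fˣ} (hb : NormFrom a b) : NormFrom a b⁻¹ := by
  have : b⁻¹ = b * (b⁻¹) ^ 2 := by
    rw [pow_two, ← mul_assoc, mul_inv_cancel, one_mul]
  rw [this]
  exact hb.mul (NormFrom.sq _ _)

theorem NormFrom.mul_right_iff {a b c : Fˣ} (hc : NormFrom a c) :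
    NormFrom a (b * c) ↔ NormFrom a b := by
  constructor
  · intro h
    have := h.mul hc.inv
    rwa [mul_inv_cancel_right] at this
  · intro h
    exact h.mul hc

theorem NormFrom.neg_self (a : Fˣ) : NormFrom a (-a) := ⟨0, 1, by simp⟩

theorem NormFrom.prod {ι : Type*} (s : Finset ι) (a : Fˣ) (c : ι → Fˣ)
    (h : ∀ i ∈ s, NormFrom a (c i)) : NormFrom a (∏ i ∈ s, c i) := by
  classical
  induction s using Finset.induction_on with
  | empty => simpa using NormFrom.one a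
  | insert i s hi ih =>
    rw [Finset.prod_insert hi]
    exact (h i (Finset.mem_insert_self _ _)).mul
      (ih fun j hj => h j (Finset.mem_insert_of_mem hj))

/-- the norm form of a square is universal -/
theorem NormFrom.of_sq (h2 : (2 : F) ≠ 0) (a c : Fˣ) (ha : ∃ b : Fˣ, a = b ^ 2) :
    NormFrom a c := by
  obtain ⟨b, rfl⟩ := ha
  refine ⟨((c : F) + 1) / 2, ((c : F) - 1) / (2 * b), ?_⟩
  have hb : (b : F) ≠ 0 := b.ne_zero
  rw [Units.val_pow_eq_pow_val]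
  field_simp
  ring

theorem NormFrom.comm (h2 : (2 : F) ≠ 0) {a c : Fˣ} (h : NormFrom a c) : NormFrom c a := by
  obtain ⟨x, y, h⟩ := h
  by_cases hy : y = 0
  · subst hy
    have hx : x ≠ 0 := by
      rintro rfl
      apply c.ne_zero
      rw [h]; ring
    refine NormFrom.of_sq h2 c a ⟨Units.mk0 x hx, ?_⟩
    ext
    rw [Units.val_pow_eq_pow_val, Units.val_mk0, h]
    ring
  · refine ⟨x / y, 1 / y, ?_⟩
    field_simp
    linear_combination h

theorem qiso_iff (h2 : (2 : F) ≠ 0) (a b c : Fˣ) : QIso a b a c ↔ NormFrom a (b * c) := by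
  constructor
  · rintro ⟨f⟩
    obtain ⟨x, y, h⟩ := norm_of_equiv h2 a.ne_zero b.ne_zero f
    refine ⟨c * x, c * y, ?_⟩
    rw [Units.val_mul, h]
    ring
  · rintro ⟨x, y, h⟩
    refine equiv_of_norm h2 a.ne_zero b.ne_zero (x := x / c) (y := y / c) ?_
    have hc : (c : F) ≠ 0 := c.ne_zero
    rw [Units.val_mul] at h
    field_simp
    linear_combination h

theorem qiso_symm (h2 : (2 : F) ≠ 0) (a b : Fˣ) : QIso a b b a :=
  equiv_symm h2 a.ne_zero b.ne_zero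

/-- split quaternion algebras -/
theorem qiso_one (h2 : (2 : F) ≠ 0) (a b : Fˣ) : QIso a b 1 1 ↔ NormFrom a b := by
  have h1 : ∀ a : Fˣ, QIso a 1 1 1 := by
    intro a
    refine (qiso_symm h2 a 1).trans ?_
    rw [qiso_iff h2]
    exact NormFrom.of_sq h2 _ _ ⟨1, by simp⟩
  constructor
  · intro h
    have := h.trans (h1 a).symm
    rwa [qiso_iff h2, mul_one] at this
  · intro h
    have : QIso a b a 1 := by rwa [qiso_iff h2, mul_one]
    exact this.trans (h1 a)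

theorem qiso_right (h2 : (2 : F) ≠ 0) (a b c : Fˣ) : QIso a b a (b * c ^ 2) := by
  rw [qiso_iff h2]
  have : b * (b * c ^ 2) = (b * c) ^ 2 := by
    rw [mul_pow, pow_two b, mul_assoc]
  rw [this]
  exact NormFrom.sq _ _

theorem qiso_left (h2 : (2 : F) ≠ 0) (a b c : Fˣ) : QIso a b (a * c ^ 2) b :=
  ((qiso_symm h2 a b).trans (qiso_right h2 b a c)).trans (qiso_symm h2 b _)

theorem qiso_slot (h2 : (2 : F) ≠ 0) {a b c d : Fˣ} (h : QIso a b c d) :
    ∃ x : Fˣ, QIso a b a x ∧ QIso c d c x := by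
  obtain ⟨x, hx, h1, h3⟩ := common_slot h2 a.ne_zero b.ne_zero c.ne_zero d.ne_zero h.symm
  have h1' : QIso a (Units.mk0 x hx) a b := h1
  have h3' : QIso c (Units.mk0 x hx) a b := h3
  exact ⟨Units.mk0 x hx, h1'.symm, h.symm.trans h3'.symm⟩

/-- the class of the quaternion algebra `(g,h)` -/
def qset {G : Type} [CommGroup G] (φ : Fˣ →* G) (g h : G) : Set (G × G) :=
  {z | ∃ a b c d : Fˣ, φ a = g ∧ φ b = h ∧ φ c = z.1 ∧ φ d = z.2 ∧ QIso a b c d}

/-- the structure attached to `φ : F* → G` -/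
def mkS {G : Type} [CommGroup G] (φ : Fˣ →* G) : QData where
  G := G
  Q := Set (G × G)
  neg := φ (-1)
  q := qset φ
  zero := qset φ 1 1

theorem eq_mul_sq {G : Type} [CommGroup G] {φ : Fˣ →* G} (hk : ∀ a : Fˣ, φ a = 1 ↔ ∃ b : Fˣ, a = b ^ 2)
    {a b : Fˣ} (h : φ a = φ b) : ∃ c : Fˣ, b = a * c ^ 2 := by
  have : φ (a⁻¹ * b) = 1 := by rw [map_mul, map_inv, h, inv_mul_cancel]
  obtain ⟨c, hc⟩ := (hk _).mp this
  exact ⟨c, by rw [← hc, mul_inv_cancel_left]⟩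

theorem qiso_of_phi (h2 : (2 : F) ≠ 0) {G : Type} [CommGroup G] {φ : Fˣ →* G}
    (hk : ∀ a : Fˣ, φ a = 1 ↔ ∃ b : Fˣ, a = b ^ 2)
    {a b a' b' : Fˣ} (ha : φ a = φ a') (hb : φ b = φ b') : QIso a b a' b' := by
  obtain ⟨c, rfl⟩ := eq_mul_sq hk ha
  obtain ⟨d, rfl⟩ := eq_mul_sq hk hb
  exact (qiso_left h2 a b c).trans (qiso_right h2 _ b d)

theorem mkS_q (h2 : (2 : F) ≠ 0) {G : Type} [CommGroup G] {φ : Fˣ →* G}
    (hk : ∀ a : Fˣ, φ a = 1 ↔ ∃ b : Fˣ, a = b ^ 2) (a b c d : Fˣ) :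
    (mkS φ).q (φ a) (φ b) = (mkS φ).q (φ c) (φ d) ↔ QIso a b c d := by
  show qset φ (φ a) (φ b) = qset φ (φ c) (φ d) ↔ QIso a b c d
  constructor
  · intro h
    have h1 : ((φ c, φ d) : G × G) ∈ qset φ (φ c) (φ d) :=
      ⟨c, d, c, d, rfl, rfl, rfl, rfl, QIso.refl _ _⟩
    rw [← h] at h1
    obtain ⟨a', b', c', d', e1, e2, e3, e4, e5⟩ := h1
    exact ((qiso_of_phi h2 hk e1.symm e2.symm).trans e5).trans (qiso_of_phi h2 hk e3 e4)
  · intro h
    ext z
    constructor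
    · rintro ⟨a', b', c', d', e1, e2, e3, e4, e5⟩
      exact ⟨c, d, c', d', rfl, rfl, e3, e4,
        (h.symm.trans (qiso_of_phi h2 hk e1.symm e2.symm)).trans e5⟩
    · rintro ⟨a', b', c', d', e1, e2, e3, e4, e5⟩
      exact ⟨a, b, c', d', rfl, rfl, e3, e4,
        (h.trans (qiso_of_phi h2 hk e1.symm e2.symm)).trans e5⟩

theorem mkS_zero {G : Type} [CommGroup G] (φ : Fˣ →* G) : (mkS φ).zero = (mkS φ).q 1 1 := rfl

theorem mkS_structure (h2 : (2 : F) ≠ 0) {G : Type} [CommGroup G] {φ : Fˣ →* G}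
    (hs : Function.Surjective φ) (hk : ∀ a : Fˣ, φ a = 1 ↔ ∃ b : Fˣ, a = b ^ 2) :
    IsStructureOf F (mkS φ) :=
  ⟨φ, hs, hk, rfl, rfl, fun a b c d => mkS_q h2 hk a b c d⟩

/-- the structure of a field is a quaternionic structure -/
theorem isQuat (h2 : (2 : F) ≠ 0) {S : QData} (φ : Fˣ →* S.G) (hs : Function.Surjective φ)
    (hk : ∀ a : Fˣ, φ a = 1 ↔ ∃ b : Fˣ, a = b ^ 2) (hn : φ (-1) = S.neg)
    (h0 : S.q 1 1 = S.zero)
    (hq : ∀ a b c d : Fˣ, S.q (φ a) (φ b) = S.q (φ c) (φ d) ↔ QIso a b c d) : IsQuat S := by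
  have hz : ∀ a b : Fˣ, S.q (φ a) (φ b) = S.zero ↔ NormFrom a b := by
    intro a b
    rw [← qiso_one h2, ← hq, map_one, h0]
  refine ⟨?_, ?_, ?_, ?_, ?_⟩
  · intro g
    obtain ⟨a, rfl⟩ := hs g
    rw [← map_mul]
    exact (hk _).mpr ⟨a, (pow_two a).symm⟩
  · intro g
    obtain ⟨a, rfl⟩ := hs g
    rw [← hn, ← map_mul, hz, neg_one_mul]
    exact NormFrom.neg_self a
  · intro g h
    obtain ⟨a, rfl⟩ := hs g
    obtain ⟨b, rfl⟩ := hs h
    rw [hq]
    exact qiso_symm h2 a b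
  · intro g h k
    obtain ⟨a, rfl⟩ := hs g
    obtain ⟨b, rfl⟩ := hs h
    obtain ⟨c, rfl⟩ := hs k
    rw [hq, qiso_iff h2, ← map_mul, hz]
  · intro g h k l e
    obtain ⟨a, rfl⟩ := hs g
    obtain ⟨b, rfl⟩ := hs h
    obtain ⟨c, rfl⟩ := hs k
    obtain ⟨d, rfl⟩ := hs l
    rw [hq] at e
    obtain ⟨x, h1, h3⟩ := qiso_slot h2 e
    exact ⟨φ x, (hq _ _ _ _).mpr h1, (hq _ _ _ _).mpr h3⟩

/-- any two structures of `F` are isomorphic -/
theorem iso_of_structure {S T : QData} (hS : IsStructureOf F S) (hT : IsStructureOf F T) :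
    Iso S T := by
  obtain ⟨φ, hs, hk, hn, -, hq⟩ := hS
  obtain ⟨ψ, hs', hk', hn', -, hq'⟩ := hT
  have hker : φ.ker = ψ.ker := by
    ext a
    rw [MonoidHom.mem_ker, MonoidHom.mem_ker, hk, hk']
  let e : S.G ≃* T.G := ((QuotientGroup.quotientKerEquivOfSurjective φ hs).symm.trans
    (QuotientGroup.quotientMulEquivOfEq hker)).trans
      (QuotientGroup.quotientKerEquivOfSurjective ψ hs')
  have he : ∀ a, e (φ a) = ψ a := by
    intro a
    have h1 : (QuotientGroup.quotientKerEquivOfSurjective φ hs).symm (φ a) =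
        (QuotientGroup.mk a : Fˣ ⧸ φ.ker) := by
      rw [MulEquiv.symm_apply_eq]
      rfl
    show (QuotientGroup.quotientKerEquivOfSurjective ψ hs')
      ((QuotientGroup.quotientMulEquivOfEq hker)
        ((QuotientGroup.quotientKerEquivOfSurjective φ hs).symm (φ a))) = ψ a
    rw [h1]
    rfl
  refine ⟨e, ?_, ?_⟩
  · rw [← hn, ← hn', he]
  · intro g h k l
    obtain ⟨a, rfl⟩ := hs g
    obtain ⟨b, rfl⟩ := hs h
    obtain ⟨c, rfl⟩ := hs k
    obtain ⟨d, rfl⟩ := hs l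
    rw [he, he, he, he, hq, hq']

end

/-- existence of the structure -/
theorem exists_structure {F : Type*} [Field F] (h2 : (2 : F) ≠ 0) (hfin : FinSq F) :
    ∃ S : QData, IsStructureOf F S ∧ Finite S.G ∧ IsQuat S := by
  have : Finite (Fˣ ⧸ (powMonoidHom 2 : Fˣ →* Fˣ).range) := hfin
  let A := Fˣ ⧸ (powMonoidHom 2 : Fˣ →* Fˣ).range
  let G : Type := Shrink.{0} A
  let _ : CommGroup G := inferInstanceAs (CommGroup (Shrink.{0} A))
  let e : G ≃* A := Shrink.mulEquiv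
  let φ : Fˣ →* G := e.symm.toMonoidHom.comp (QuotientGroup.mk' _)
  have hs : Function.Surjective φ := e.symm.surjective.comp (QuotientGroup.mk'_surjective _)
  have hk : ∀ a : Fˣ, φ a = 1 ↔ ∃ b : Fˣ, a = b ^ 2 := by
    intro a
    have h1 : φ a = e.symm (QuotientGroup.mk' _ a) := rfl
    rw [h1, MulEquiv.map_eq_one_iff]
    have h3 : (QuotientGroup.mk' (powMonoidHom 2 : Fˣ →* Fˣ).range a = 1) ↔
        a ∈ (powMonoidHom 2 : Fˣ →* Fˣ).range := QuotientGroup.eq_one_iff a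
    rw [h3, MonoidHom.mem_range]
    constructor
    · rintro ⟨b, hb⟩
      exact ⟨b, hb.symm⟩
    · rintro ⟨b, hb⟩
      exact ⟨b, hb.symm⟩
  have hst := mkS_structure h2 hs hk
  refine ⟨mkS φ, hst, ?_, isQuat h2 φ hs hk rfl rfl (mkS_q h2 hk)⟩
  exact Finite.of_equiv A e.symm.toEquiv

end Pool.Agent.TH188.ET
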