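import Mathlib
import Pool.Agent.H552R3.SymIdx
import Pool.Agent.TH188.ET.Struct

set_option autoImplicit false
set_option linter.all false

/-! Brauer classes of quaternion algebras determine the algebras. -/

open scoped TensorProduct Quaternion

noncomputable section

namespace Pool.Agent.TH188.ETB

open Pool.Agent.Helper346.Bra Pool.Agent.Helper18.Br Pool.Agent.H552R3.SymBr
open Pool.Agent.TH188.ET

universe u

section cancel
variable {K : Type*} [Field K] {D D' : Type*} [DivisionRing D] [DivisionRing D']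
  [Algebra K D] [Algebra K D']

theorem matrix_cancel [FiniteDimensional K D] [FiniteDimensional K D'] {n : ℕ} (hn : 0 < n)
    (φ : Matrix (Fin n) (Fin n) D ≃ₐ[K] Matrix (Fin n) (Fin n) D') : Nonempty (D ≃ₐ[K] D') := by
  classical
  let e : Fin n → Matrix (Fin n) (Fin n) D' := fun i => φ (Matrix.single i i 1)
  have he0 : ∀ i, e i ≠ 0 := by
    intro i h
    have h1 : (Matrix.single i i (1 : D) : Matrix (Fin n) (Fin n) D) = 0 := by
      apply φ.injective
      rw [map_zero]
      exact h
    have h2 := congrFun (congrFun h1 i) i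
    simp at h2
  have hmul : ∀ i j, i ≠ j → e i * e j = 0 := by
    intro i j hij
    simp only [e]
    rw [← map_mul, Matrix.single_mul_single_of_ne _ _ _ _ hij, map_zero]
  have hidem : ∀ i, e i * e i = e i := by
    intro i
    simp only [e]
    rw [← map_mul, Matrix.single_mul_single_same, mul_one]
  have hw : ∀ i, ∃ w : Fin n → D', Matrix.vecMul w (e i) ≠ 0 := by
    intro i
    by_contra hcon
    push Not at hcon
    apply he0 i
    ext a b
    have h := congrFun (hcon (Pi.single a 1)) b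
    rw [Matrix.single_one_vecMul] at h
    exact h
  choose w hw using hw
  set u : Fin n → Fin n → D' := fun i => Matrix.vecMul (w i) (e i) with hu
  have hue : ∀ i, Matrix.vecMul (u i) (e i) = u i := by
    intro i
    rw [hu]
    simp only
    rw [Matrix.vecMul_vecMul, hidem]
  have hue' : ∀ i j, i ≠ j → Matrix.vecMul (u i) (e j) = 0 := by
    intro i j hij
    rw [hu]
    simp only
    rw [Matrix.vecMul_vecMul, hmul i j hij, Matrix.vecMul_zero]
  have hli : LinearIndependent D' u := by
    rw [Fintype.linearIndependent_iff]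
    intro c hc j
    have h1 : Matrix.vecMul (∑ i, c i • u i) (e j) = 0 := by
      rw [hc, Matrix.zero_vecMul]
    rw [Matrix.sum_vecMul, Finset.sum_eq_single j] at h1
    · rw [Matrix.smul_vecMul, hue] at h1
      exact (smul_eq_zero.1 h1).resolve_right (hw j)
    · intro i _ hij
      rw [Matrix.smul_vecMul, hue' i j hij, smul_zero]
    · intro h
      exact absurd (Finset.mem_univ j) h
  have hspan : Submodule.span D' (Set.range u) = ⊤ := by
    apply hli.span_eq_top_of_card_eq_finrank'
    rw [Module.finrank_fin_fun, Fintype.card_fin]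
  let i0 : Fin n := ⟨0, hn⟩
  -- fixed vectors are multiples of `u i0`
  have hline : ∀ v : Fin n → D', Matrix.vecMul v (e i0) = v → ∃ c : D', v = c • u i0 := by
    intro v hv
    have hmem : v ∈ Submodule.span D' (Set.range u) := by rw [hspan]; trivial
    obtain ⟨c, hc⟩ := (Submodule.mem_span_range_iff_exists_fun D').1 hmem
    refine ⟨c i0, ?_⟩
    rw [← hv, ← hc, Matrix.sum_vecMul, Finset.sum_eq_single i0]
    · rw [Matrix.smul_vecMul, hue]
    · intro i _ hij
      rw [Matrix.smul_vecMul, hue' i i0 hij, smul_zero]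
    · intro h
      exact absurd (Finset.mem_univ i0) h
  have hφe : ∀ d : D, φ (Matrix.single i0 i0 d) * e i0 = φ (Matrix.single i0 i0 d) := by
    intro d
    simp only [e]
    rw [← map_mul, Matrix.single_mul_single_same, mul_one]
  have hex : ∀ d : D, ∃ c : D', Matrix.vecMul (u i0) (φ (Matrix.single i0 i0 d)) = c • u i0 := by
    intro d
    apply hline
    rw [Matrix.vecMul_vecMul, hφe]
  choose ψ hψ using hex
  have hu0 : u i0 ≠ 0 := hw i0
  have hcan : ∀ c c' : D', c • u i0 = c' • u i0 → c = c' := by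
    intro c c' h
    by_contra hne
    have h1 : (c - c') • u i0 = 0 := by rw [sub_smul, h, sub_self]
    rcases smul_eq_zero.1 h1 with h2 | h2
    · exact hne (sub_eq_zero.1 h2)
    · exact hu0 h2
  have hadd : ∀ d d', ψ (d + d') = ψ d + ψ d' := by
    intro d d'
    apply hcan
    rw [← hψ, add_smul, ← hψ, ← hψ, ← Matrix.vecMul_add, ← map_add, ← Matrix.single_add]
  have hmulψ : ∀ d d', ψ (d * d') = ψ d * ψ d' := by
    intro d d'
    apply hcan
    have h1 : (Matrix.single i0 i0 (d * d') : Matrix (Fin n) (Fin n) D) =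
        Matrix.single i0 i0 d * Matrix.single i0 i0 d' := by
      rw [Matrix.single_mul_single_same]
    calc ψ (d * d') • u i0 = Matrix.vecMul (u i0) (φ (Matrix.single i0 i0 (d * d'))) := (hψ _).symm
      _ = Matrix.vecMul (Matrix.vecMul (u i0) (φ (Matrix.single i0 i0 d)))
            (φ (Matrix.single i0 i0 d')) := by
          rw [h1, map_mul]
          exact (Matrix.vecMul_vecMul (u i0) _ _).symm
      _ = (ψ d * ψ d') • u i0 := by
          rw [hψ d, Matrix.smul_vecMul, hψ d', mul_smul]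
  have hone : ψ 1 = 1 := by
    apply hcan
    rw [← hψ, one_smul]
    exact hue i0
  have hcomm : ∀ r : K, ψ (algebraMap K D r) = algebraMap K D' r := by
    intro r
    apply hcan
    rw [← hψ]
    have h1 : (Matrix.single i0 i0 (algebraMap K D r) : Matrix (Fin n) (Fin n) D) =
        r • Matrix.single i0 i0 1 := by
      rw [Matrix.smul_single, Algebra.algebraMap_eq_smul_one]
    rw [h1, map_smul]
    have h2 : Matrix.vecMul (u i0) (r • φ (Matrix.single i0 i0 1)) =
        r • Matrix.vecMul (u i0) (e i0) := by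
      funext j
      simp only [Matrix.vecMul, dotProduct, Matrix.smul_apply, Pi.smul_apply, Finset.smul_sum,
        mul_smul_comm]
      rfl
    rw [h2, hue, algebraMap_smul]
  let Ψ : D →ₐ[K] D' :=
    { toFun := ψ
      map_one' := hone
      map_mul' := hmulψ
      map_zero' := by
        have := hadd 0 0
        rw [add_zero] at this
        exact left_eq_add.1 this
      map_add' := hadd
      commutes' := hcomm }
  have hinj : Function.Injective Ψ := Ψ.toRingHom.injective
  have hfr : Module.finrank K D = Module.finrank K D' := by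
    have h1 := φ.toLinearEquiv.finrank_eq
    rw [Module.finrank_matrix, Module.finrank_matrix, Fintype.card_fin] at h1
    exact Nat.eq_of_mul_eq_mul_left (Nat.mul_pos hn hn) h1
  exact ⟨AlgEquiv.ofBijective Ψ ⟨hinj,
    (LinearMap.injective_iff_surjective_of_finrank_eq_finrank (f := Ψ.toLinearMap) hfr).1 hinj⟩⟩

end cancel

/-- Brauer equivalent algebras of the same dimension are isomorphic -/
theorem equiv_of_brEq {K : Type u} [Field K] (A B : Type u) [Ring A] [Ring B] [Algebra K A]
    [Algebra K B] [IsSimpleRing A] [IsSimpleRing B] [FiniteDimensional K A]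
    [FiniteDimensional K B] (hf : Module.finrank K A = Module.finrank K B) (h : BrEq K A B) :
    Nonempty (A ≃ₐ[K] B) := by
  haveI := IsArtinianRing.of_finite K A
  haveI := IsArtinianRing.of_finite K B
  obtain ⟨s, hs, D, _, _, _, ⟨e⟩⟩ := IsSimpleRing.exists_algEquiv_matrix_divisionRing_finite K A
  obtain ⟨t, ht, D', _, _, _, ⟨e'⟩⟩ := IsSimpleRing.exists_algEquiv_matrix_divisionRing_finite K B
  obtain ⟨p, q, hp, hq, ⟨f⟩⟩ := h
  have g : Matrix (Fin (p * s)) (Fin (p * s)) D ≃ₐ[K] Matrix (Fin (q * t)) (Fin (q * t)) D' :=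
    ((Matrix.reindexAlgEquiv K _ finProdFinEquiv).symm.trans
      ((Matrix.compAlgEquiv _ _ _ _).symm.trans (e.symm.mapMatrix.trans
        (f.trans (e'.mapMatrix.trans ((Matrix.compAlgEquiv _ _ _ _).trans
          (Matrix.reindexAlgEquiv K _ finProdFinEquiv)))))))
  have hsz : p * s = q * t := size_eq g.toRingEquiv
  have hps : 0 < p * s := Nat.mul_pos (Nat.pos_of_ne_zero hp) (Nat.pos_of_ne_zero hs.out)
  rw [← hsz] at g
  obtain ⟨c⟩ := matrix_cancel hps g
  have h1 := e.toLinearEquiv.finrank_eq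
  have h2 := e'.toLinearEquiv.finrank_eq
  rw [Module.finrank_matrix, Fintype.card_fin] at h1 h2
  rw [h1, h2, c.toLinearEquiv.finrank_eq] at hf
  have hD : 0 < Module.finrank K D' := Module.finrank_pos
  have h3 : s * s = t * t := Nat.eq_of_mul_eq_mul_right hD hf
  have h4 : s = t := Nat.mul_self_inj.1 h3
  subst h4
  exact ⟨e.trans (c.mapMatrix.trans e'.symm)⟩

section quat
variable {F : Type u} [Field F]

theorem hζ2 (h2 : (2 : F) ≠ 0) : IsPrimitiveRoot (-1 : F) 2 := by
  refine IsPrimitiveRoot.mk_of_lt (-1 : F) (by norm_num) (by norm_num) ?_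
  intro l h0 hl
  have : l = 1 := by omega
  subst this
  rw [pow_one]
  intro h
  apply h2
  linear_combination -h

/-- the class of the quaternion algebra `(a,b)` in the Brauer group -/
def qCl (h2 : (2 : F) ≠ 0) (a b : Fˣ) : BrauerGroup.{u, u} F :=
  symCl (n := 2) (by norm_num) (hζ2 h2) a b

theorem quat_equiv_symb (h2 : (2 : F) ≠ 0) (a b : Fˣ) :
    Nonempty (Symb F 2 (-1) (a : F) (b : F) ≃ₐ[F] ℍ[F,(a : F),0,(b : F)]) := by
  have h := symb_csa 2 (by norm_num) (-1 : F) (a : F) (b : F) (hζ2 h2)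
    (n_ne_zero (by norm_num) (hζ2 h2)) a.ne_zero b.ne_zero
  haveI : Algebra.IsCentral F (Symb F 2 (-1) (a : F) (b : F)) := h.1
  haveI : IsSimpleRing (Symb F 2 (-1) (a : F) (b : F)) := h.2.1
  haveI : FiniteDimensional F (Symb F 2 (-1) (a : F) (b : F)) := h.2.2.1
  let x : ℍ[F,(a : F),0,(b : F)] := ⟨0, 1, 0, 0⟩
  let y : ℍ[F,(a : F),0,(b : F)] := ⟨0, 0, 1, 0⟩
  refine equiv_of_hom (symLift x y ?_ ?_ ?_) ?_
  · rw [pow_two]
    ext <;> simp [x]
  · rw [pow_two]
    ext <;> simp [y]
  · ext <;> simp [x, y]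
  · rw [h.2.2.2, QuaternionAlgebra.finrank_eq_four]
    norm_num

theorem qCl_eq_iff (h2 : (2 : F) ≠ 0) (a b c d : Fˣ) :
    qCl h2 a b = qCl h2 c d ↔ QIso a b c d := by
  have h := symb_csa 2 (by norm_num) (-1 : F) (a : F) (b : F) (hζ2 h2)
    (n_ne_zero (by norm_num) (hζ2 h2)) a.ne_zero b.ne_zero
  have h' := symb_csa 2 (by norm_num) (-1 : F) (c : F) (d : F) (hζ2 h2)
    (n_ne_zero (by norm_num) (hζ2 h2)) c.ne_zero d.ne_zero
  haveI : Algebra.IsCentral F (Symb F 2 (-1) (a : F) (b : F)) := h.1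
  haveI : IsSimpleRing (Symb F 2 (-1) (a : F) (b : F)) := h.2.1
  haveI : FiniteDimensional F (Symb F 2 (-1) (a : F) (b : F)) := h.2.2.1
  haveI : Algebra.IsCentral F (Symb F 2 (-1) (c : F) (d : F)) := h'.1
  haveI : IsSimpleRing (Symb F 2 (-1) (c : F) (d : F)) := h'.2.1
  haveI : FiniteDimensional F (Symb F 2 (-1) (c : F) (d : F)) := h'.2.2.1
  obtain ⟨e⟩ := quat_equiv_symb h2 a b
  obtain ⟨e'⟩ := quat_equiv_symb h2 c d
  constructor
  · intro hh
    have h1 : BrEq F (Symb F 2 (-1) (a : F) (b : F)) (Symb F 2 (-1) (c : F) (d : F)) :=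
      brauerClass_eq_iff.1 hh
    obtain ⟨g⟩ := equiv_of_brEq _ _ (by rw [h.2.2.2, h'.2.2.2]) h1
    exact ⟨(e.symm.trans g).trans e'⟩
  · rintro ⟨g⟩
    exact symCl_eq_of_equiv _ _ a b c d ⟨(e.trans g).trans e'.symm⟩

theorem qCl_mul_right (h2 : (2 : F) ≠ 0) (a b c : Fˣ) :
    qCl h2 a (b * c) = qCl h2 a b * qCl h2 a c := symCl_mul_right _ _ a b c

theorem qCl_mul_left (h2 : (2 : F) ≠ 0) (a b c : Fˣ) :
    qCl h2 (a * b) c = qCl h2 a c * qCl h2 b c := symCl_mul_left _ _ a b c

theorem qCl_one_right (h2 : (2 : F) ≠ 0) (a : Fˣ) : qCl h2 a 1 = 1 := symCl_one_right _ _ a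

theorem qCl_eq_one_iff (h2 : (2 : F) ≠ 0) (a b : Fˣ) : qCl h2 a b = 1 ↔ NormFrom a b := by
  rw [← qCl_one_right h2 a, qCl_eq_iff, qiso_iff h2, mul_one]

theorem qCl_sq (h2 : (2 : F) ≠ 0) (a b : Fˣ) : qCl h2 a b * qCl h2 a b = 1 := by
  rw [← qCl_mul_right, qCl_eq_one_iff, ← pow_two]
  exact NormFrom.sq _ _

end quat

end Pool.Agent.TH188.ETB
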