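import Pool.Agent.TH188.ET.Crit

set_option autoImplicit false

namespace Pool.Agent.TH188.ET

open scoped Quaternion TensorProduct
open Pool.Agent.H315R3.ETC
open Pool.Agent.Results.MP_d26ff6_al.SymbolExtension

/-- factorization of linear maps -/
theorem exists_lin {K X Y Z : Type*} [Field K] [AddCommGroup X] [AddCommGroup Y] [AddCommGroup Z]
    [Module K X] [Module K Y] [Module K Z] (T : X →ₗ[K] Y) (f : X →ₗ[K] Z)
    (h : ∀ x, T x = 0 → f x = 0) : ∃ L : Y →ₗ[K] Z, ∀ x, L (T x) = f x := by
  have hk : LinearMap.ker T ≤ LinearMap.ker f := by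
    intro x hx
    exact h x hx
  let g : LinearMap.range T →ₗ[K] Z :=
    ((LinearMap.ker T).liftQ f hk).comp T.quotKerEquivRange.symm.toLinearMap
  obtain ⟨L, hL⟩ := LinearMap.exists_extend g
  refine ⟨L, fun x => ?_⟩
  have h1 : L (T x) = (L.comp (LinearMap.range T).subtype) ⟨T x, x, rfl⟩ := rfl
  rw [h1, hL]
  have h2 : T.quotKerEquivRange.symm ⟨T x, x, rfl⟩ = (LinearMap.ker T).mkQ x := by
    rw [LinearEquiv.symm_apply_eq]
    rfl
  show ((LinearMap.ker T).liftQ f hk) (T.quotKerEquivRange.symm ⟨T x, x, rfl⟩) = f x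
  rw [h2, Submodule.mkQ_apply, Submodule.liftQ_apply]

variable {F : Type*} [Field F]

/-- the relations generated by common slots -/
def Mrel {n : ℕ} (a : Fin n → Fˣ) : Set (Fin n → Fˣ) :=
  {b | ∃ c : Finset (Fin n) → Fˣ, (∀ I, NormFrom (∏ i ∈ I, a i) (c I)) ∧
      ∀ i, ∃ s : Fˣ, b i = s ^ 2 * ∏ I with i ∈ I, c I}

theorem relations_of_extend (h2 : (2 : F) ≠ 0) {S : QData} (φ : Fˣ →* S.G)
    (hs : Function.Surjective φ)
    (hk : ∀ a : Fˣ, φ a = 1 ↔ ∃ b : Fˣ, a = b ^ 2)
    (h0 : S.q 1 1 = S.zero)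
    (hq : ∀ a b c d : Fˣ, S.q (φ a) (φ b) = S.q (φ c) (φ d) ↔ QIso a b c d)
    (h : SymbolsExtend S) : RelationsFromSlots F := by
  classical
  have hz : ∀ a b : Fˣ, S.q (φ a) (φ b) = S.zero ↔ NormFrom a b := by
    intro a b
    rw [← qiso_one h2, ← hq, map_one, h0]
  intro n a b hab
  by_contra hcon
  -- the subgroup of relations from slots
  let M : AddSubgroup (Fin n → Additive Fˣ) :=
    { carrier := {β | (fun i => (β i).toMul) ∈ Mrel a}
      zero_mem' := by
        refine ⟨fun _ => 1, fun I => NormFrom.one _, fun i => ⟨1, ?_⟩⟩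
        simp
      add_mem' := by
        rintro β β' ⟨c, hc, hb⟩ ⟨c', hc', hb'⟩
        refine ⟨fun I => c I * c' I, fun I => (hc I).mul (hc' I), fun i => ?_⟩
        obtain ⟨s, hs⟩ := hb i
        obtain ⟨s', hs'⟩ := hb' i
        refine ⟨s * s', ?_⟩
        simp only at hs hs'
        simp only [Pi.add_apply, toMul_add]
        rw [hs, hs', Finset.prod_mul_distrib, mul_pow]
        exact mul_mul_mul_comm _ _ _ _
      neg_mem' := by
        rintro β ⟨c, hc, hb⟩
        refine ⟨fun I => (c I)⁻¹, fun I => (hc I).inv, fun i => ?_⟩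
        obtain ⟨s, hs⟩ := hb i
        refine ⟨s⁻¹, ?_⟩
        simp only at hs
        simp only [Pi.neg_apply, toMul_neg]
        rw [hs, Finset.prod_inv_distrib, mul_inv, inv_pow] }
  have hMmem : ∀ β : Fin n → Additive Fˣ, β ∈ M ↔ (fun i => (β i).toMul) ∈ Mrel a :=
    fun β => Iff.rfl
  obtain ⟨f, hfM, hfb⟩ := exists_char M (by
    intro β
    rw [hMmem]
    refine ⟨fun _ => 1, fun I => NormFrom.one _, fun i => ⟨(β i).toMul, ?_⟩⟩
    simp only [Finset.prod_const_one, mul_one, Pi.add_apply, toMul_add, pow_two])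
    (fun i => Additive.ofMul (b i)) (by
      rw [hMmem]
      exact hcon)
  -- components
  let fi : Fin n → Fˣ → ZMod 2 := fun i x => f (Pi.single i (Additive.ofMul x))
  have hfi_mul : ∀ i x y, fi i (x * y) = fi i x + fi i y := by
    intro i x y
    show f _ = f _ + f _
    rw [← map_add, ← Pi.single_add]
    rfl
  have hfi_sum : ∀ β : Fin n → Fˣ, f (fun i => Additive.ofMul (β i)) = ∑ i, fi i (β i) := by
    intro β
    have : (fun i => Additive.ofMul (β i)) =
        ∑ i, (Pi.single i (Additive.ofMul (β i)) : Fin n → Additive Fˣ) := by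
      rw [Finset.univ_sum_single (fun i => Additive.ofMul (β i))]
    rw [this, map_sum]
  have hfi_one : ∀ i, fi i 1 = 0 := by
    intro i
    show f _ = 0
    rw [ofMul_one, Pi.single_zero, map_zero]
  -- key vanishing
  have key : ∀ (I : Finset (Fin n)) (c : Fˣ), NormFrom (∏ i ∈ I, a i) c →
      ∑ i ∈ I, fi i c = 0 := by
    intro I c hc
    have h1 : (fun i => if i ∈ I then Additive.ofMul c else 0 : Fin n → Additive Fˣ) ∈ M := by
      rw [hMmem]
      refine ⟨fun J => if J = I then c else 1, ?_, ?_⟩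
      · intro J
        by_cases hJ : J = I
        · simp only [hJ, if_true]
          exact hc
        · simp only [if_neg hJ]
          exact NormFrom.one _
      · intro i
        refine ⟨1, ?_⟩
        rw [one_pow, one_mul, Finset.prod_ite_eq']
        simp only [Finset.mem_filter, Finset.mem_univ, true_and]
        split_ifs <;> rfl
    have h3 := hfM _ h1
    have h4 : (fun i => if i ∈ I then Additive.ofMul c else 0 : Fin n → Additive Fˣ) =
        fun i => Additive.ofMul (if i ∈ I then c else 1) := by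
      funext i
      split_ifs <;> rfl
    rw [h4, hfi_sum] at h3
    rw [← h3, ← Finset.sum_subset (Finset.subset_univ I)]
    · apply Finset.sum_congr rfl
      intro i hi
      rw [if_pos hi]
    · intro i _ hi
      rw [if_neg hi, hfi_one]
  have hfi_sq : ∀ i x y, φ x = φ y → fi i x = fi i y := by
    intro i x y hxy
    obtain ⟨c, rfl⟩ := eq_mul_sq hk hxy
    rw [hfi_mul, pow_two, hfi_mul, CharTwo.add_self_eq_zero, add_zero]
  -- the vector space `V`
  have hexp : ∀ g : S.G, g * g = 1 := by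
    intro g
    obtain ⟨x, rfl⟩ := hs g
    rw [← map_mul]
    exact (hk _).mpr ⟨x, (pow_two x).symm⟩
  let _ : Module (ZMod 2) (Additive S.G) := AddCommGroup.zmodModule (n := 2) (by
    intro x
    rw [two_nsmul]
    exact hexp x.toMul)
  choose r hr using hs
  -- functionals on `V`
  let g : Fin n → (Additive S.G →ₗ[ZMod 2] ZMod 2) := fun i =>
    AddMonoidHom.toZModLinearMap 2 (AddMonoidHom.mk' (fun v => fi i (r v.toMul)) (by
      intro v w
      rw [← hfi_mul]
      apply hfi_sq
      rw [map_mul, hr, hr, hr]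
      rfl))
  have hg : ∀ i x, g i (Additive.ofMul (φ x)) = fi i x := by
    intro i x
    show fi i (r (φ x)) = fi i x
    exact hfi_sq i _ _ (hr _)
  let T : (Fin n → ZMod 2) →ₗ[ZMod 2] Additive S.G :=
    Fintype.linearCombination (ZMod 2) (fun i => Additive.ofMul (φ (a i)))
  let Gm : (Fin n → ZMod 2) →ₗ[ZMod 2] (Additive S.G →ₗ[ZMod 2] ZMod 2) :=
    Fintype.linearCombination (ZMod 2) g
  have hsum : ∀ {Y : Type _} [AddCommGroup Y] [Module (ZMod 2) Y] (v : Fin n → Y)
      (ε : Fin n → ZMod 2), Fintype.linearCombination (ZMod 2) v ε =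
        ∑ i with ε i = 1, v i := by
    intro Y _ _ v ε
    rw [Fintype.linearCombination_apply, Finset.sum_filter]
    apply Finset.sum_congr rfl
    intro i _
    have : ∀ z : ZMod 2, z = 0 ∨ z = 1 := by decide
    rcases this (ε i) with h | h
    · rw [h, zero_smul, if_neg (by decide)]
    · rw [h, one_smul, if_pos rfl]
  have hT : ∀ ε, T ε = Additive.ofMul (φ (∏ i with ε i = 1, a i)) := by
    intro ε
    show Fintype.linearCombination (ZMod 2) _ ε = _
    rw [hsum, map_prod, ofMul_prod]
  have hG : ∀ ε x, Gm ε (Additive.ofMul (φ x)) = ∑ i with ε i = 1, fi i x := by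
    intro ε x
    have : Gm ε = ∑ i with ε i = 1, g i := by
      show Fintype.linearCombination (ZMod 2) _ ε = _
      rw [Fintype.linearCombination_apply, Finset.sum_filter]
      apply Finset.sum_congr rfl
      intro i _
      have : ∀ z : ZMod 2, z = 0 ∨ z = 1 := by decide
      rcases this (ε i) with h | h
      · rw [h, zero_smul, if_neg (by decide)]
      · rw [h, one_smul, if_pos rfl]
    rw [this, LinearMap.sum_apply]
    apply Finset.sum_congr rfl
    intro i _
    exact hg i x
  have hvan : ∀ ε x, NormFrom (∏ i with ε i = 1, a i) x → Gm ε (Additive.ofMul (φ x)) = 0 := by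
    intro ε x hx
    rw [hG]
    exact key _ _ hx
  obtain ⟨L, hL⟩ := exists_lin T Gm (by
    intro ε hε
    rw [hT] at hε
    have h1 : φ (∏ i with ε i = 1, a i) = 1 := hε
    rw [hk] at h1
    ext v
    obtain ⟨x, hx⟩ : ∃ x, φ x = v.toMul := ⟨r v.toMul, hr _⟩
    have : v = Additive.ofMul (φ x) := by rw [hx]; rfl
    rw [this, LinearMap.zero_apply]
    exact hvan ε x (NormFrom.of_sq h2 _ _ h1))
  -- the symbol
  let W : Subgroup S.G :=
    { carrier := {w | ∃ ε, T ε = Additive.ofMul w}
      one_mem' := ⟨0, by rw [map_zero]; rfl⟩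
      mul_mem' := by
        rintro v w ⟨ε, h1⟩ ⟨δ, h3⟩
        exact ⟨ε + δ, by rw [map_add, h1, h3]; rfl⟩
      inv_mem' := by
        rintro v ⟨ε, h1⟩
        exact ⟨-ε, by rw [map_neg, h1]; rfl⟩ }
  let χ : S.G → S.G → ZMod 2 := fun x y => L (Additive.ofMul x) (Additive.ofMul y)
  have hχ : IsSymbol S W χ := by
    refine ⟨?_, ?_, ?_⟩
    · intro x _ y _ z
      show L (Additive.ofMul (x * y)) _ = L _ _ + L _ _
      rw [ofMul_mul, map_add, LinearMap.add_apply]
    · intro x _ y z
      show L _ (Additive.ofMul (y * z)) = L _ _ + L _ _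
      rw [ofMul_mul, map_add]
    · rintro x ⟨ε, hε⟩ y hxy
      show L (Additive.ofMul x) (Additive.ofMul y) = 0
      rw [← hε, hL]
      rw [hT] at hε
      have h1 : φ (∏ i with ε i = 1, a i) = x := hε
      obtain ⟨z, rfl⟩ : ∃ z, φ z = y := ⟨r y, hr _⟩
      rw [← h1, hz] at hxy
      exact hvan ε z hxy
  obtain ⟨χ', ⟨hl, hrr, h00⟩, hagree⟩ := h W χ hχ
  obtain ⟨k, hkk⟩ := exists_hom (F := F) (fun x y => χ' (φ x) (φ y))
    (by
      intro x y z
      show χ' (φ (x * y)) _ = _
      rw [map_mul]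
      exact hl _ trivial _ trivial _)
    (by
      intro x y z
      show χ' _ (φ (y * z)) = _
      rw [map_mul]
      exact hrr _ trivial _ _)
    (by
      intro x y hxy
      exact h00 _ trivial _ ((hz _ _).mpr hxy))
  have h1 := congrArg k hab
  rw [map_zero, map_sum] at h1
  apply hfb
  rw [hfi_sum, ← h1]
  apply Finset.sum_congr rfl
  intro i _
  rw [hkk]
  have hTi : T (Pi.single i 1) = Additive.ofMul (φ (a i)) := by
    show Fintype.linearCombination (ZMod 2) _ _ = _
    rw [Fintype.linearCombination_apply_single, one_smul]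
  have hGi : Gm (Pi.single i 1) = g i := by
    show Fintype.linearCombination (ZMod 2) _ _ = _
    rw [Fintype.linearCombination_apply_single, one_smul]
  rw [hagree _ ⟨Pi.single i 1, hTi⟩]
  show _ = L (Additive.ofMul (φ (a i))) (Additive.ofMul (φ (b i)))
  rw [← hTi, hL, hGi, hg]

end Pool.Agent.TH188.ET
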