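import Pool.Agent.TH188.ET.GrpVal

set_option autoImplicit false

namespace Pool.Agent.TH188.ETV

open Pool.Agent.H315R3.ETC

universe v w

/-- groups with at most sixteen elements -/
theorem small_of_card {G : Type w} [CommGroup G] {B : Type v} [AddCommGroup B]
    (hB : ∀ b : B, b + b = 0) (hf : Finite B) (hc : Nat.card B ≤ 16) (β : G → G → B) (x y z : G) :
    SmallG β x y z := by
  classical
  by_contra hcon
  unfold SmallG at hcon
  push Not at hcon
  obtain ⟨⟨p, hp, hp4⟩, h2⟩ := hcon
  obtain ⟨u, hu, v, hv, hu', hv', huv⟩ := h2 p hp
  have hneg : ∀ b : B, -b = b := fun b => neg_eq_iff_add_eq_zero.2 (hB b)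
  let f : Qs β p × Bool × Bool → B := fun t =>
    (t.1 : B) + ((if t.2.1 then u else 0) + (if t.2.2 then v else 0))
  have hinj : Function.Injective f := by
    rintro ⟨q, s, t⟩ ⟨q', s', t'⟩ h
    have h1 : (q : B) + ((if s then u else 0) + (if t then v else 0)) =
      (q' : B) + ((if s' then u else 0) + (if t' then v else 0)) := h
    have h3 : ((if s then u else 0) + (if t then v else 0)) +
        ((if s' then u else 0) + (if t' then v else 0)) ∈ Qs β p := by
      have h4 : ((if s then u else 0) + (if t then v else 0)) +
        ((if s' then u else 0) + (if t' then v else 0)) = (q : B) + q' := by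
        have e1 : ((if s then u else 0) + (if t then v else 0)) = (q : B) + ((q' : B) +
          ((if s' then u else 0) + (if t' then v else 0))) := by
          rw [← h1, ← add_assoc, hB, zero_add]
        rw [e1]
        have e2 : (q : B) + ((q' : B) + ((if s' then u else 0) + (if t' then v else 0))) +
          ((if s' then u else 0) + (if t' then v else 0)) = (q : B) + q' +
          (((if s' then u else 0) + (if t' then v else 0)) +
            ((if s' then u else 0) + (if t' then v else 0))) := by abel
        rw [e2, hB, add_zero]
      rw [h4]
      exact AddSubgroup.add_mem _ q.2 q'.2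
    have hst : s = s' ∧ t = t' := by
      cases s <;> cases s' <;> cases t <;> cases t' <;> simp [hB] at h3 ⊢
      all_goals first
        | exact hu' h3
        | exact hv' h3
        | exact huv h3
        | (apply hv'
           have e : u + (u + v) = v := by rw [← add_assoc, hB, zero_add]
           rwa [e] at h3)
        | (apply hu'
           have e : v + (u + v) = u := by rw [add_comm u v, ← add_assoc, hB, zero_add]
           rwa [e] at h3)
        | (apply hv'
           have e : u + v + u = v := by rw [add_comm u v, add_assoc, hB, add_zero]
           rwa [e] at h3)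
        | (apply hu'
           have e : u + v + v = u := by rw [add_assoc, hB, add_zero]
           rwa [e] at h3)
        | (rw [add_comm] at h3
           exact huv h3)
    obtain ⟨rfl, rfl⟩ := hst
    have h5 : (q : B) = q' := add_right_cancel h1
    rw [Subtype.ext h5]
  have h6 := Nat.card_le_card_of_injective f hinj
  rw [Nat.card_prod, Nat.card_prod, Nat.card_eq_fintype_card (α := Bool), Fintype.card_bool] at h6
  omega

/-- the number of values is the index of the zeros -/
theorem card_Qs {G : Type w} [CommGroup G] {B : Type v} [AddCommGroup B] (β : G → G → B)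
    (hmul : ∀ a b c, β a (b * c) = β a b + β a c) (a : G) :
    ∃ f : Additive G →+ B, (∀ b, f (Additive.ofMul b) = β a b) ∧ f.range = Qs β a ∧
      f.ker.index = Nat.card (Qs β a) := by
  have b1 : β a 1 = 0 := by
    have := hmul a 1 1
    rw [mul_one] at this
    exact left_eq_add.1 this
  let f : Additive G →+ B := AddMonoidHom.mk' (fun b => β a b.toMul) (fun b c => hmul _ _ _)
  have hr : f.range = Qs β a := by
    unfold Qs
    apply le_antisymm
    · rintro _ ⟨b, rfl⟩
      exact AddSubgroup.subset_closure ⟨b.toMul, rfl⟩
    · rw [AddSubgroup.closure_le]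
      rintro _ ⟨b, rfl⟩
      exact ⟨Additive.ofMul b, rfl⟩
  refine ⟨f, fun b => rfl, hr, ?_⟩
  rw [AddSubgroup.index_ker, hr]

end Pool.Agent.TH188.ETV
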