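import Pool.Agent.TH188.ET.K2
import Pool.Agent.Results.MP_d26ff6_al.SymbolExtension

set_option autoImplicit false

namespace Pool.Agent.TH188.ET

open scoped Quaternion TensorProduct
open Pool.Agent.H315R3.ETC
open Pool.Agent.Results.MP_d26ff6_al.SymbolExtension

variable {F : Type*} [Field F]

theorem slots_of_relations (h : RelationsFromSlots F) : SlotsFromNorms F := by
  classical
  intro n a b x y hxy
  obtain ⟨c, hc, hs⟩ := h (n + 1) (Fin.cons x a) (Fin.cons y b) (by
    rw [Fin.sum_univ_succ]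
    simp only [Fin.cons_zero, Fin.cons_succ]
    rw [hxy]
    exact K2_add_self _)
  let em : Finset (Fin n) → Finset (Fin (n + 1)) := fun I =>
    insert 0 (I.map (Fin.succEmb n))
  have hem0 : ∀ I : Finset (Fin n), (0 : Fin (n + 1)) ∉ I.map (Fin.succEmb n) := by
    intro I hI
    obtain ⟨j, -, hj⟩ := Finset.mem_map.mp hI
    exact Fin.succ_ne_zero j hj
  refine ⟨fun I => c (em I), ?_, ?_⟩
  · intro I
    have := hc (em I)
    rw [Finset.prod_insert (hem0 I), Finset.prod_map] at this
    simpa using this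
  · obtain ⟨s, hs⟩ := hs 0
    refine ⟨s, ?_⟩
    rw [Fin.cons_zero] at hs
    rw [hs]
    congr 1
    symm
    refine Finset.prod_bij (fun I _ => em I) ?_ ?_ ?_ ?_
    · intro I _
      simp [em]
    · intro I _ J _ hIJ
      have : (em I).erase 0 = (em J).erase 0 := by rw [hIJ]
      simp only [em] at this
      rw [Finset.erase_insert (hem0 I), Finset.erase_insert (hem0 J)] at this
      exact Finset.map_injective _ this
    · intro J hJ
      have h0 : (0 : Fin (n + 1)) ∈ J := by simpa using hJ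
      refine ⟨Finset.univ.filter (fun j => Fin.succ j ∈ J), Finset.mem_univ _, ?_⟩
      ext k
      simp only [em, Finset.mem_insert, Finset.mem_map, Finset.mem_filter, Finset.mem_univ,
        true_and, Fin.coe_succEmb]
      constructor
      · rintro (rfl | ⟨j, hj, rfl⟩)
        · exact h0
        · exact hj
      · intro hk
        rcases Fin.eq_zero_or_eq_succ k with rfl | ⟨j, rfl⟩
        · exact Or.inl rfl
        · exact Or.inr ⟨j, hk, rfl⟩
    · intro I _
      rfl

theorem extend_of_slots (h2 : (2 : F) ≠ 0) {S : QData} (φ : Fˣ →* S.G)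
    (hs : Function.Surjective φ)
    (hk : ∀ a : Fˣ, φ a = 1 ↔ ∃ b : Fˣ, a = b ^ 2)
    (h0 : S.q 1 1 = S.zero)
    (hq : ∀ a b c d : Fˣ, S.q (φ a) (φ b) = S.q (φ c) (φ d) ↔ QIso a b c d)
    (hfin : Finite S.G) (h : SlotsFromNorms F) : ProductSymbolsExtend S := by
  classical
  have hz : ∀ a b : Fˣ, S.q (φ a) (φ b) = S.zero ↔ NormFrom a b := by
    intro a b
    rw [← qiso_one h2, ← hq, map_one, h0]
  intro W l f hl hf hχ
  obtain ⟨-, -, hχ0⟩ := hχ
  have hl1 : l 1 = 0 := by
    have := hl 1 1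
    rw [one_mul] at this
    exact left_eq_add.mp this
  have hf1 : f 1 = 0 := by
    have := hf 1 1
    rw [one_mul] at this
    exact left_eq_add.mp this
  by_cases hl0 : ∀ w ∈ W, l w = 0
  · refine ⟨fun _ _ => 0, ⟨?_, ?_, ?_⟩, ?_⟩
    · intros; simp
    · intros; simp
    · intros; rfl
    · intro w hw b
      rw [hl0 w hw, zero_mul]
  push Not at hl0
  obtain ⟨w0, hw0, hlw0⟩ := hl0
  have hlw1 : l w0 = 1 := by
    have : ∀ z : ZMod 2, z ≠ 0 → z = 1 := by decide
    exact this _ hlw0
  obtain ⟨x, hx⟩ := hs w0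
  -- enumerate `W ∩ ker l`
  let W0 : Type := {w : S.G // w ∈ W ∧ l w = 0}
  have : Finite W0 := inferInstanceAs (Finite {w : S.G // w ∈ W ∧ l w = 0})
  have : Fintype W0 := Fintype.ofFinite _
  let e : Fin (Fintype.card W0) ≃ W0 := (Fintype.equivFin W0).symm
  set n := Fintype.card W0 with hn
  choose a ha using fun i : Fin n => hs (e i).1
  -- the maps
  let Φ : Additive Fˣ × (Fin n → Additive Fˣ) →+ K2 F :=
    AddMonoidHom.mk' (fun z => sy x z.1.toMul + ∑ i, sy (a i) (z.2 i).toMul) (by
      intro z z'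
      simp only [Prod.fst_add, Prod.snd_add, Pi.add_apply, toMul_add, sy_mul_right,
        Finset.sum_add_distrib]
      abel)
  let Λ : Additive Fˣ × (Fin n → Additive Fˣ) →+ ZMod 2 :=
    AddMonoidHom.mk' (fun z => f (φ z.1.toMul)) (by
      intro z z'
      simp only [Prod.fst_add, toMul_add, map_mul, hf])
  have hfsq : ∀ c : Fˣ, f (φ (c ^ 2)) = 0 := by
    intro c
    rw [(hk _).mpr ⟨c, rfl⟩, hf1]
  have hfprod : ∀ (s : Finset (Finset (Fin n))) (c : Finset (Fin n) → Fˣ),
      (∀ I ∈ s, f (φ (c I)) = 0) → f (φ (∏ I ∈ s, c I)) = 0 := by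
    intro s c
    induction s using Finset.induction_on with
    | empty => intro _; simp [hf1]
    | insert i s hi ih =>
      intro h
      rw [Finset.prod_insert hi, map_mul, hf, h i (Finset.mem_insert_self _ _),
        ih (fun j hj => h j (Finset.mem_insert_of_mem hj)), add_zero]
  have hprodW : ∀ I : Finset (Fin n), φ (∏ i ∈ I, a i) ∈ W ∧ l (φ (∏ i ∈ I, a i)) = 0 := by
    intro I
    induction I using Finset.induction_on with
    | empty => simp [hl1, W.one_mem]
    | insert i s hi ih =>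
      rw [Finset.prod_insert hi, map_mul, ha]
      refine ⟨W.mul_mem (e i).2.1 ih.1, ?_⟩
      rw [hl, (e i).2.2, ih.2, add_zero]
  have hker : ∀ z, Φ z = 0 → Λ z = 0 := by
    rintro ⟨y, β⟩ hz0
    have h1 : sy x y.toMul = ∑ i, sy (a i) (β i).toMul := by
      have h1 : sy x y.toMul + ∑ i, sy (a i) (β i).toMul = 0 := hz0
      have h3 := K2_add_self (∑ i, sy (a i) (β i).toMul)
      rw [← h3] at h1
      exact add_right_cancel h1
    obtain ⟨c, hc, s, hy⟩ := h n a (fun i => (β i).toMul) x y.toMul h1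
    show f (φ y.toMul) = 0
    rw [hy, map_mul, hf, hfsq, zero_add]
    apply hfprod
    intro I _
    have h3 := (hz _ _).mpr (hc I)
    have h4 : φ (x * ∏ i ∈ I, a i) ∈ W := by
      rw [map_mul, hx]
      exact W.mul_mem hw0 (hprodW I).1
    have h5 := hχ0 _ h4 _ h3
    have h6 : l (φ (x * ∏ i ∈ I, a i)) = 1 := by
      rw [map_mul, hl, hx, hlw1, (hprodW I).2, add_zero]
    simp only [h6, one_mul] at h5
    exact h5
  obtain ⟨k, hkk⟩ := exists_factor K2_add_self Φ Λ hker
  have hk1 : ∀ y : Fˣ, k (sy x y) = f (φ y) := by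
    intro y
    have := hkk (Additive.ofMul y, 0)
    have h1 : Φ (Additive.ofMul y, 0) = sy x y := by
      show sy x y + ∑ i, sy (a i) ((0 : Fin n → Additive Fˣ) i).toMul = sy x y
      simp [sy_one_right]
    rw [h1] at this
    exact this
  have hk2 : ∀ i (y : Fˣ), k (sy (a i) y) = 0 := by
    intro i y
    have := hkk (0, Pi.single i (Additive.ofMul y))
    have h1 : Φ (0, Pi.single i (Additive.ofMul y)) = sy (a i) y := by
      show sy x (0 : Additive Fˣ).toMul +
        ∑ j, sy (a j) ((Pi.single i (Additive.ofMul y) : Fin n → Additive Fˣ) j).toMul = _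
      rw [toMul_zero, sy_one_right, zero_add, Finset.sum_eq_single i]
      · rw [Pi.single_eq_same]; rfl
      · intro j _ hj
        rw [Pi.single_eq_of_ne hj, toMul_zero, sy_one_right]
      · intro hi
        exact absurd (Finset.mem_univ i) hi
    rw [h1] at this
    rw [this]
    show f (φ (0 : Additive Fˣ).toMul) = 0
    rw [toMul_zero, map_one, hf1]
  -- invariance of symbols
  have hinv : ∀ y y' z z' : Fˣ, φ y = φ y' → φ z = φ z' → sy y z = sy y' z' := by
    intro y y' z z' h1 h3
    obtain ⟨c, rfl⟩ := eq_mul_sq hk h1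
    obtain ⟨d, rfl⟩ := eq_mul_sq hk h3
    rw [sy_sq_left, sy_sq_right]
  choose r hr using hs
  have hχ' : ∀ y z : Fˣ, k (sy (r (φ y)) (r (φ z))) = k (sy y z) := by
    intro y z
    rw [hinv _ _ _ _ (hr (φ y)) (hr (φ z))]
  refine ⟨fun g g' => k (sy (r g) (r g')), ⟨?_, ?_, ?_⟩, ?_⟩
  · intro g _ g' _ g''
    show k (sy (r (g * g')) (r g'')) = k (sy (r g) (r g'')) + k (sy (r g') (r g''))
    rw [← map_add, ← sy_mul_left]
    congr 1
    apply hinv _ _ _ _ _ rfl
    rw [map_mul, hr, hr, hr]
  · intro g _ g' g''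
    show k (sy (r g) (r (g' * g''))) = k (sy (r g) (r g')) + k (sy (r g) (r g''))
    rw [← map_add, ← sy_mul_right]
    congr 1
    apply hinv _ _ _ _ rfl
    rw [map_mul, hr, hr, hr]
  · intro g _ g' hg
    show k (sy (r g) (r g')) = 0
    rw [← hr g, ← hr g', hz] at hg
    rw [sy_of_norm _ _ hg, map_zero]
  · intro w hw g
    show k (sy (r w) (r g)) = l w * f g
    by_cases hlw : l w = 0
    · obtain ⟨i, hi⟩ := e.surjective ⟨w, hw, hlw⟩
      have : φ (a i) = w := by rw [ha, hi]
      rw [hlw, zero_mul, hinv (r w) (a i) (r g) (r g) (by rw [hr, this]) rfl]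
      exact hk2 i _
    · have hlw' : l w = 1 := by
        have : ∀ z : ZMod 2, z ≠ 0 → z = 1 := by decide
        exact this _ hlw
      have hlw3 : l (w * w0) = 0 := by
        rw [hl, hlw', hlw1]
        exact CharTwo.add_self_eq_zero _
      obtain ⟨i, hi⟩ := e.surjective ⟨w * w0, W.mul_mem hw hw0, hlw3⟩
      have h1 : φ (a i) = w * w0 := by rw [ha, hi]
      have hw02 : w0 * w0 = 1 := by
        rw [← hx, ← map_mul]
        exact (hk _).mpr ⟨x, (pow_two x).symm⟩
      have h3 : φ (a i * x) = w := by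
        rw [map_mul, h1, hx, mul_assoc, hw02, mul_one]
      rw [hlw', one_mul, hinv (r w) (a i * x) (r g) (r g) (by rw [hr, h3]) rfl, sy_mul_left,
        map_add, hk2, hk1, zero_add, hr]

end Pool.Agent.TH188.ET
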