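import Pool.Agent.H315R3.ETC.Defs

set_option autoImplicit false

/-! The quaternionic structure of a field and `K_2(F)/2`. -/

namespace Pool.Agent.TH188.ET

open scoped Quaternion TensorProduct
open Pool.Agent.H315R3.ETC

/-- `F` has finitely many square classes: `F*/F*²` is finite -/
def FinSq (F : Type*) [Field F] : Prop := Finite (Fˣ ⧸ (powMonoidHom 2 : Fˣ →* Fˣ).range)

/-- `S` is the quaternionic structure of the field `F`, up to isomorphism: `G = F*/F*²`, the
distinguished element is the class of `-1`, and `q(a,b)` is the class of the quaternion algebra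
`(a,b)`. -/
def IsStructureOf (F : Type*) [Field F] (S : QData) : Prop :=
  ∃ φ : Fˣ →* S.G, Function.Surjective φ ∧ (∀ a : Fˣ, φ a = 1 ↔ ∃ b : Fˣ, a = b ^ 2) ∧
    φ (-1) = S.neg ∧ S.q 1 1 = S.zero ∧
    ∀ a b c d : Fˣ, S.q (φ a) (φ b) = S.q (φ c) (φ d) ↔
      Nonempty (ℍ[F,(a : F),0,(b : F)] ≃ₐ[F] ℍ[F,(c : F),0,(d : F)])

/-- the relations of `K_2(F)/2` in `F* ⊗ F*`: the Steinberg relations and the doubles -/
def steinberg (F : Type*) [Field F] : AddSubgroup (Additive Fˣ ⊗[ℤ] Additive Fˣ) :=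
  AddSubgroup.closure
    ({t | ∃ a b : Fˣ, (a : F) + (b : F) = 1 ∧ t = Additive.ofMul a ⊗ₜ[ℤ] Additive.ofMul b} ∪
      {t | ∃ s, t = s + s})

/-- `k_2(F) = K_2(F)/2` -/
abbrev K2 (F : Type*) [Field F] : Type _ := (Additive Fˣ ⊗[ℤ] Additive Fˣ) ⧸ steinberg F

/-- the symbol `{a,b}` in `K_2(F)/2` -/
def sy {F : Type*} [Field F] (a b : Fˣ) : K2 F :=
  QuotientAddGroup.mk (Additive.ofMul a ⊗ₜ[ℤ] Additive.ofMul b)

/-- `c` is a value of the norm form `x² - a y²` (so a norm from `F(√a)`, if `a` is not a square) -/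
def NormFrom {F : Type*} [Field F] (a c : Fˣ) : Prop := ∃ x y : F, (c : F) = x ^ 2 - a * y ^ 2

/-- every relation `∑ {a_i,b_i} = 0` in `K_2(F)/2` comes from common slots: `b_i` is, up to a
square, the product over the sets `I` containing `i` of values `c_I` of the norm form of
`F(√(∏_{i ∈ I} a_i))` -/
def RelationsFromSlots (F : Type*) [Field F] : Prop :=
  ∀ (n : ℕ) (a b : Fin n → Fˣ), ∑ i, sy (a i) (b i) = 0 →
    ∃ c : Finset (Fin n) → Fˣ, (∀ I, NormFrom (∏ i ∈ I, a i) (c I)) ∧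
      ∀ i, ∃ s : Fˣ, b i = s ^ 2 * ∏ I with i ∈ I, c I

/-- if `{x,y}` is a sum of symbols `{a_i,b_i}`, then `y` is, up to a square, a product of values of
the norm forms of the fields `F(√(x w))`, `w` a partial product of the `a_i` -/
def SlotsFromNorms (F : Type*) [Field F] : Prop :=
  ∀ (n : ℕ) (a b : Fin n → Fˣ) (x y : Fˣ), sy x y = ∑ i, sy (a i) (b i) →
    ∃ c : Finset (Fin n) → Fˣ, (∀ I, NormFrom (x * ∏ i ∈ I, a i) (c I)) ∧
      ∃ s : Fˣ, y = s ^ 2 * ∏ I, c I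

end Pool.Agent.TH188.ET
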