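import Pool.Agent.W622.ETG.Final
import Pool.Agent.W622.ETG.Bri
import Pool.Agent.TH188.ET.Conv

set_option autoImplicit false

/-!
The elementary type conjecture for structures of order `≤ N` follows from the extension of product
symbols defined on subgroups with at most eight elements.
-/

namespace Pool.Agent.TH188.ET8

open Pool.Agent.H315R3.ETC Pool.Agent.W622.ETG Module

section fam
variable {V : Type} [AddCommGroup V] [Module (ZMod 2) V] [Finite V] {e : V}

/-- product symbols on `W` extend -/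
def PE (A : Fam V) (W : Submodule (ZMod 2) V) : Prop :=
  ∀ φ f : Dl V, (∀ w ∈ W, φ w ≠ 0 → ∀ b : V, (∀ ω ∈ A, ω w b = 0) → f b = 0) →
    ∃ ω ∈ A, ∀ w ∈ W, ω w = φ w • f

/-- linkage of `A[X]` from extension of product symbols -/
theorem linked_of_PE {A : Fam V} (hA : EFam e A) (X : DSub V)
    (h : ∀ a c : V, PE A (X.dualCoannihilator ⊔ Submodule.span (ZMod 2) {a, c})) :
    Linked (res A X) := by
  intro ω hω η hη a c hac
  set U : Submodule (ZMod 2) V := X.dualCoannihilator with hU
  have hUm : ∀ u, u ∈ U ↔ ∀ g ∈ X, g u = 0 := fun u => Submodule.mem_dualCoannihilator u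
  have kill : ∀ ω ∈ res A X, ∀ u ∈ U, ω u = 0 := by
    intro ω hω u hu
    ext y
    rw [(hA ω hω.1).symm]
    exact (hUm u).1 hu _ (hω.2 y)
  have kill' : ∀ ω ∈ A, (∀ u ∈ U, ω u = 0) → ω ∈ res A X := by
    intro ω hω h
    refine ⟨hω, fun y => mem_of_coann fun b hb => ?_⟩
    rw [(hA ω hω).symm, h b ((hUm b).2 hb)]
    rfl
  by_cases haU : a ∈ U
  · refine ⟨0, Submodule.zero_mem _, ?_, ?_⟩
    · rw [kill ω hω a haU]; rfl
    · rw [kill ω hω a haU]; rfl
  by_cases hcU : c ∈ U
  · refine ⟨0, Submodule.zero_mem _, ?_, ?_⟩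
    · rw [hac, kill η hη c hcU]; rfl
    · rw [hac, kill η hη c hcU]; rfl
  obtain ⟨φ, hφX, hφa, hφc⟩ : ∃ φ ∈ X, φ a = 1 ∧ φ c = 1 := by
    rw [hUm] at haU hcU
    push Not at haU hcU
    obtain ⟨g, hgX, hg⟩ := haU
    obtain ⟨g', hgX', hg'⟩ := hcU
    have hg1 := z_ne hg
    have hg1' := z_ne hg'
    rcases z01 (g c) with h0 | h0
    · rcases z01 (g' a) with h0' | h0'
      · refine ⟨g + g', X.add_mem hgX hgX', ?_, ?_⟩
        · rw [LinearMap.add_apply, hg1, h0', add_zero]
        · rw [LinearMap.add_apply, h0, hg1', zero_add]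
      · exact ⟨g', hgX', h0', hg1'⟩
    · exact ⟨g, hgX, hg1, h0⟩
  obtain ⟨ζ, hζ, hζ'⟩ := h a c φ (ω a) (by
    intro w hw hφw y hy
    obtain ⟨u, hu, v, hv, rfl⟩ := Submodule.mem_sup.1 hw
    have hφu : φ u = 0 := (hUm u).1 hu φ hφX
    rcases span_pair_mem.1 hv with rfl | rfl | rfl | rfl
    · exact absurd (by rw [add_zero, hφu]) hφw
    · have h1 := hy ω hω.1
      rw [map_add, kill ω hω u hu, zero_add] at h1
      exact h1
    · have h1 := hy η hη.1
      rw [map_add, kill η hη u hu, zero_add, ← hac] at h1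
      exact h1
    · exact absurd (by rw [map_add, map_add, hφu, hφa, hφc, zadd, add_zero]) hφw)
  have ha' : a ∈ U ⊔ Submodule.span (ZMod 2) {a, c} :=
    Submodule.mem_sup_right (Submodule.subset_span (by simp))
  have hc' : c ∈ U ⊔ Submodule.span (ZMod 2) {a, c} :=
    Submodule.mem_sup_right (Submodule.subset_span (by simp))
  refine ⟨ζ, kill' ζ hζ fun u hu => ?_, ?_, ?_⟩
  · rw [hζ' u (Submodule.mem_sup_left hu), (hUm u).1 hu φ hφX, zero_smul]
  · rw [hζ' a ha', hφa, one_smul]
  · rw [hζ' c hc', hφc, one_smul]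

omit [Finite V] in
theorem QD_eq (A : Fam V) (a b c d : Multiplicative V) :
    ((QD e A).q a b = (QD e A).q c d) ↔ ∀ ω ∈ A, ω a.toAdd b.toAdd = ω c.toAdd d.toAdd := by
  constructor
  · intro h ω hω
    exact congrFun h ⟨ω, hω⟩
  · intro h
    funext ω
    exact h ω.1 ω.2

omit [Finite V] in
theorem QD_zero (A : Fam V) (a b : Multiplicative V) :
    ((QD e A).q a b = (QD e A).zero) ↔ ∀ ω ∈ A, ω a.toAdd b.toAdd = 0 := by
  constructor
  · intro h ω hω
    exact congrFun h ⟨ω, hω⟩
  · intro h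
    funext ω
    exact h ω.1 ω.2

/-- linked families are quaternionic structures -/
theorem isQuat_QD (hPL : S_PL) {A : Fam V} (hA : EFam e A) (hL : Linked A) :
    IsQuat (QD e A) := by
  refine ⟨?_, ?_, ?_, ?_, ?_⟩
  · intro (a : Multiplicative V)
    exact vadd (V := V) a.toAdd
  · intro (a : Multiplicative V)
    refine (QD_zero A _ _).2 ?_
    intro ω hω
    have := (hA ω hω).self_e a.toAdd
    show ω a.toAdd (e + a.toAdd) = 0
    rw [add_comm]
    exact this
  · intro (a : Multiplicative V) (b : Multiplicative V)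
    refine (QD_eq A _ _ _ _).2 ?_
    intro ω hω
    exact (hA ω hω).symm _ _
  · intro (a : Multiplicative V) (b : Multiplicative V) (c : Multiplicative V)
    refine Iff.trans (QD_eq A _ _ _ _) (Iff.trans ?_ (QD_zero A _ _).symm)
    refine forall₂_congr fun ω _ => ?_
    show _ ↔ ω a.toAdd (b.toAdd + c.toAdd) = 0
    rw [map_add]
    exact (Pool.Agent.W622.ETC.add_eq_zero').symm
  · intro (a : Multiplicative V) (b : Multiplicative V) (c : Multiplicative V)
      (d : Multiplicative V) h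
    obtain ⟨z, h1, h2, -⟩ := hPL V e A hA hL a.toAdd c.toAdd b.toAdd d.toAdd
      ((QD_eq A a b c d).1 h)
    refine ⟨Multiplicative.ofAdd z, (QD_eq A _ _ _ _).2 ?_, (QD_eq A _ _ _ _).2 ?_⟩
    · intro ω hω
      have := h1 ω hω
      rw [map_add] at this
      exact Pool.Agent.W622.ETC.add_eq_zero'.1 this
    · intro ω hω
      have := h2 ω hω
      rw [map_add] at this
      exact Pool.Agent.W622.ETC.add_eq_zero'.1 this

/-- a form as a map on the multiplicative group -/
theorem exists_form {S : QData} [Module (ZMod 2) (Additive S.G)] {χ : S.G → S.G → ZMod 2}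
    (h : Symb S ⊤ χ) : ∃ ω ∈ BRI_A S, ∀ a b : Additive S.G, ω a b = χ a.toMul b.toMul :=
  BRI_form h

/-- families whose zeros are closed -/
def Closed (A : Fam V) : Prop :=
  ∀ ω : Frm V, (∀ a b : V, (∀ η ∈ A, η a b = 0) → ω a b = 0) → ω ∈ A

omit [Finite V] in
theorem PE_of_MX {A : Fam V} (hcl : Closed A) (h : MX (QD e A)) (W : Submodule (ZMod 2) V) :
    PE A W := by
  intro φ f hW
  let W' : Subgroup (QD e A).G :=
    { carrier := {x : Multiplicative V | x.toAdd ∈ W}
      mul_mem' := fun {x y} hx hy => W.add_mem hx hy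
      one_mem' := W.zero_mem
      inv_mem' := fun {x} hx => W.neg_mem hx }
  have hsy : Symb (QD e A) W' (fun x y => φ (Multiplicative.toAdd x) * f (Multiplicative.toAdd y)) := by
    refine ⟨?_, ?_, ?_⟩
    · intro (a : Multiplicative V) _ (b : Multiplicative V) _ c
      show φ (Multiplicative.toAdd a + Multiplicative.toAdd b) * _ = _
      rw [map_add, add_mul]
    · intro a _ (b : Multiplicative V) (c : Multiplicative V)
      show _ * f (Multiplicative.toAdd b + Multiplicative.toAdd c) = _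
      rw [map_add, mul_add]
    · intro a ha b hab
      by_cases h0 : φ (Multiplicative.toAdd a) = 0
      · show φ (Multiplicative.toAdd a) * _ = 0
        rw [h0, zero_mul]
      · show _ * f (Multiplicative.toAdd b) = 0
        rw [hW _ ha h0 _ ((QD_zero A _ _).1 hab), mul_zero]
  obtain ⟨χ', ⟨hl, hr, hz⟩, hχ'⟩ := h W' _ hsy
  have hl1 : ∀ b, χ' 1 b = 0 := by
    intro b
    have := hl 1 trivial 1 trivial b
    rw [mul_one] at this
    simpa using this.symm
  have hr1 : ∀ b, χ' b 1 = 0 := by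
    intro b
    have := hr b trivial 1 1
    rw [mul_one] at this
    simpa using this.symm
  let ω1 (a : V) : Dl V := AddMonoidHom.toZModLinearMap 2
    { toFun := fun b => χ' (Multiplicative.ofAdd a) (Multiplicative.ofAdd b)
      map_zero' := hr1 _
      map_add' := fun b c => hr _ trivial _ _ }
  have hω1 : ∀ a b, ω1 a b = χ' (Multiplicative.ofAdd a) (Multiplicative.ofAdd b) :=
    fun a b => rfl
  let ω : Frm V := AddMonoidHom.toZModLinearMap 2
    { toFun := ω1
      map_zero' := by
        ext b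
        exact hl1 _
      map_add' := by
        intro a a'
        ext b
        rw [LinearMap.add_apply, hω1, hω1, hω1]
        exact hl _ trivial _ trivial _ }
  have hω : ∀ a b, ω a b = χ' (Multiplicative.ofAdd a) (Multiplicative.ofAdd b) :=
    fun a b => rfl
  refine ⟨ω, hcl ω ?_, ?_⟩
  · intro a b hab
    rw [hω]
    exact hz _ trivial _ ((QD_zero A _ _).2 hab)
  · intro w hw
    ext b
    rw [hω]
    exact hχ' (Multiplicative.ofAdd w) hw (Multiplicative.ofAdd b)

/-- if the smaller structures are of elementary type and `A_u` is linked, `A_u` is hereditarily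
linked -/
theorem hered_quot (hPL : S_PL) (hconv : S_CONV) {A : Fam V} (hA : EFam e A) (hcl : Closed A)
    {u : V} (hu : u ≠ 0) (hL : Linked (res A (ann u)))
    (IH : ∀ T : QData, IsQuat T → Finite T.G → Nat.card T.G < Nat.card V → Elem T) :
    Hered (res A (ann u)) := by
  classical
  set K : Submodule (ZMod 2) V := Submodule.span (ZMod 2) {u} with hK
  let V' : Type := V ⧸ K
  let mk : V →ₗ[ZMod 2] V' := K.mkQ
  have hmks : Function.Surjective mk := K.mkQ_surjective
  obtain ⟨s, hs⟩ := mk.exists_rightInverse_of_surjective (LinearMap.range_eq_top.2 hmks)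
  have hs' : ∀ x, mk (s x) = x := fun x => LinearMap.congr_fun hs x
  have hmku : mk u = 0 := by
    show K.mkQ u = 0
    rw [Submodule.mkQ_apply, Submodule.Quotient.mk_eq_zero]
    exact Submodule.mem_span_singleton_self u
  let pull : Frm V' →ₗ[ZMod 2] Frm V :=
    { toFun := fun ω => ω.compl₁₂ mk mk
      map_add' := by intro a b; ext x y; rfl
      map_smul' := by intro c a; ext x y; rfl }
  have hpull : ∀ (ω : Frm V') (a b : V), pull ω a b = ω (mk a) (mk b) := fun ω a b => rfl
  -- descent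
  have hdesc : ∀ ω ∈ A, ω u = 0 → ∃ ω' : Frm V', pull ω' = ω := by
    intro ω hω hωu
    refine ⟨ω.compl₁₂ s s, ?_⟩
    have hd : ∀ a : V, s (mk a) - a = 0 ∨ s (mk a) - a = u := by
      intro a
      have h1 : s (mk a) - a ∈ K := by
        rw [← Submodule.Quotient.mk_eq_zero]
        show mk (s (mk a) - a) = 0
        rw [map_sub, hs', sub_self]
      exact span_one_mem.1 h1
    have hk : ∀ a : V, ω (s (mk a)) = ω a := by
      intro a
      have h1 : s (mk a) = (s (mk a) - a) + a := by abel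
      rcases hd a with h | h
      · rw [h1, h, zero_add]
      · rw [h1, h, map_add, hωu, zero_add]
    ext a b
    show ω (s (mk a)) (s (mk b)) = ω a b
    rw [hk, (hA ω hω).symm, hk, (hA ω hω).symm]
  let A' : Fam V' := A.comap pull
  have hA'm : ∀ ω', ω' ∈ A' ↔ pull ω' ∈ A := fun _ => Iff.rfl
  have hpu : ∀ ω' : Frm V', ∀ a, pull ω' a u = 0 := by
    intro ω' a
    rw [hpull, hmku, map_zero]
  have hpann : ∀ ω' ∈ A', pull ω' ∈ res A (ann u) := by
    intro ω' hω'
    exact ⟨hω', fun a => hpu ω' a⟩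
  have hker : ∀ ω ∈ res A (ann u), ω ∈ A ∧ ω u = 0 := fun ω hω => (mem_res_ann hA).1 hω
  have hEF : EFam (mk e) A' := by
    intro ω' hω'
    constructor
    · intro x y
      obtain ⟨a, rfl⟩ := hmks x
      obtain ⟨b, rfl⟩ := hmks y
      rw [← hpull, ← hpull]
      exact (hA _ hω').symm a b
    · intro x
      obtain ⟨a, rfl⟩ := hmks x
      rw [← hpull, ← hpull]
      exact (hA _ hω').sq a
  -- equality of values
  have hval : ∀ (ω' η' : Frm V') (a c : V), ω' (mk a) = η' (mk c) ↔ pull ω' a = pull η' c := by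
    intro ω' η' a c
    constructor
    · intro h
      refine LinearMap.ext fun b => ?_
      rw [hpull, hpull, h]
    · intro h
      refine LinearMap.ext fun y => ?_
      obtain ⟨b, rfl⟩ := hmks y
      rw [← hpull, ← hpull, h]
  have hL' : Linked A' := by
    intro ω' hω' η' hη' x z hxz
    obtain ⟨a, rfl⟩ := hmks x
    obtain ⟨c, rfl⟩ := hmks z
    obtain ⟨ζ, hζ, h1, h2⟩ := hL _ (hpann _ hω') _ (hpann _ hη') a c ((hval _ _ _ _).1 hxz)
    obtain ⟨hζA, hζu⟩ := hker ζ hζ
    obtain ⟨ζ', rfl⟩ := hdesc ζ hζA hζu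
    exact ⟨ζ', hζA, (hval _ _ _ _).2 h1, (hval _ _ _ _).2 h2⟩
  have hcl' : Closed A' := by
    intro ω' hω'
    apply hcl
    intro a b hab
    rw [hpull]
    apply hω'
    intro η' hη'
    have := hab _ hη'
    rwa [hpull] at this
  have hfin' : Finite V' := Finite.of_surjective mk hmks
  have hcard : Nat.card V' < Nat.card V := by
    have h1 : Nat.card V' ≤ Nat.card V := Nat.card_le_card_of_surjective mk hmks
    refine lt_of_le_of_ne h1 fun h2 => ?_
    have hbij : Function.Bijective mk := by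
      rw [Nat.bijective_iff_surjective_and_card]
      exact ⟨hmks, h2.symm⟩
    exact hu (hbij.1 (by rw [hmku, map_zero]))
  have hElem : Elem (QD (mk e) A') :=
    IH _ (isQuat_QD hPL hEF hL') hfin' hcard
  have hMX : MX (QD (mk e) A') := hconv _ (isQuat_QD hPL hEF hL') hElem
  have hH' : Hered A' := fun X' => linked_of_PE hEF X' fun a c => PE_of_MX hcl' hMX _
  intro X ω hω η hη a c hac
  have hω2 : ω ∈ res A (ann u) := hω.1
  have hη2 : η ∈ res A (ann u) := hη.1
  obtain ⟨hωA, hωu⟩ := hker ω hω2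
  obtain ⟨hηA, hηu⟩ := hker η hη2
  obtain ⟨ω', rfl⟩ := hdesc ω hωA hωu
  obtain ⟨η', rfl⟩ := hdesc η hηA hηu
  let X' : DSub V' := X.comap (Module.Dual.transpose (R := ZMod 2) mk)
  have hX' : ∀ g' : Dl V', g' ∈ X' ↔ g'.comp mk ∈ X := fun _ => Iff.rfl
  have hmem : ∀ ζ' : Frm V', pull ζ' ∈ res (res A (ann u)) X ↔ ζ' ∈ res A' X' := by
    intro ζ'
    constructor
    · rintro ⟨h1, h2⟩
      refine ⟨h1.1, fun x => ?_⟩
      obtain ⟨b, rfl⟩ := hmks x
      exact h2 b
    · rintro ⟨h1, h2⟩
      exact ⟨hpann _ h1, fun b => h2 (mk b)⟩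
  obtain ⟨ζ', hζ', h1, h2⟩ := hH' X' _ ((hmem _).1 hω) _ ((hmem _).1 hη) (mk a) (mk c)
    ((hval _ _ _ _).2 hac)
  exact ⟨pull ζ', (hmem _).2 hζ', (hval _ _ _ _).1 h1, (hval _ _ _ _).1 h2⟩

end fam

end Pool.Agent.TH188.ET8
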