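import Pool.Agent.TH188.ET.Eight

set_option autoImplicit false

/-!
The inductive step: if all smaller structures are of elementary type and product symbols defined on
subgroups with at most eight elements extend, the structure is of elementary type.
-/

namespace Pool.Agent.TH188.ET8

open Pool.Agent.H315R3.ETC Pool.Agent.W622.ETG Module

/-- product symbols defined on subgroups with at most eight elements extend -/
def SmallProd (S : QData) : Prop :=
  ∀ (W : Subgroup S.G), Nat.card W ≤ 8 → ∀ (l f : S.G → ZMod 2), (∀ a b, l (a * b) = l a + l b) →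
    (∀ a b, f (a * b) = f a + f b) → (∀ w ∈ W, ∀ b, S.q w b = S.zero → l w * f b = 0) →
    ∃ χ' : S.G → S.G → ZMod 2, Symb S ⊤ χ' ∧ ∀ w ∈ W, ∀ b, χ' w b = l w * f b

theorem card_span_three {V : Type} [AddCommGroup V] [Module (ZMod 2) V] [Finite V] (u a c : V)
    (W : Submodule (ZMod 2) V) (hW : W ≤ Submodule.span (ZMod 2) {u} ⊔
      Submodule.span (ZMod 2) {a, c}) : Nat.card W ≤ 8 := by
  classical
  have h1 : ∀ w : W, ∃ x : ZMod 2 × ZMod 2 × ZMod 2, (w : V) = x.1 • u + (x.2.1 • a + x.2.2 • c) := by
    intro w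
    obtain ⟨y, hy, z, hz, h⟩ := Submodule.mem_sup.1 (hW w.2)
    obtain ⟨r, rfl⟩ := Submodule.mem_span_singleton.1 hy
    obtain ⟨s, t, rfl⟩ := Submodule.mem_span_pair.1 hz
    exact ⟨(r, s, t), h.symm⟩
  choose f hf using h1
  have hinj : Function.Injective f := by
    intro w w' h
    apply Subtype.ext
    rw [hf w, hf w', h]
  have h2 := Nat.card_le_card_of_injective f hinj
  refine h2.trans ?_
  rw [Nat.card_prod, Nat.card_prod, Nat.card_zmod]

theorem step (S : QData) (hS : IsQuat S) (hfin : Finite S.G) (hMX : SmallProd S)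
    (IH : ∀ T : QData, IsQuat T → Finite T.G → Nat.card T.G < Nat.card S.G → Elem T) :
    Elem S := by
  classical
  obtain ⟨hcore, hPL, hout, hconv⟩ := Pool.Agent.W622.ETG.all_parts
  let _ : Module (ZMod 2) (Additive S.G) := AddCommGroup.zmodModule (n := 2) (by
    intro x
    rw [two_smul]
    exact hS.exp2 x.toMul)
  have : Finite (Additive S.G) := hfin
  -- facts on `q`
  have q1 : ∀ a, S.q a 1 = S.zero := by
    intro a
    have := (hS.qs3 a 1 1).1 rfl
    rwa [mul_one] at this
  have qmul : ∀ a b c, S.q a b = S.zero → S.q a c = S.zero → S.q a (b * c) = S.zero := by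
    intro a b c h1 h2
    exact (hS.qs3 a b c).1 (h1.trans h2.symm)
  set e : Additive S.G := Additive.ofMul S.neg with he
  have hsq : ∀ ω ∈ BRI_A S, ∀ a : Additive S.G, ω a a = ω a e := by
    intro ω hω a
    have h1 : ω a (e + a) = 0 := hω a (e + a) (hS.qs1 a.toMul)
    rw [map_add] at h1
    exact (Pool.Agent.W622.ETC.add_eq_zero'.1 h1).symm
  have halt : EFam e (BRI_A S) := by
    intro ω hω
    refine ⟨fun a b => ?_, hsq ω hω⟩
    have h1 := hsq ω hω (a + b)
    simp only [map_add, LinearMap.add_apply] at h1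
    rw [hsq ω hω a, hsq ω hω b] at h1
    have h2 : ω a b + ω b a = 0 := by linear_combination h1
    exact Pool.Agent.W622.ETC.add_eq_zero'.1 h2
  -- extension of symbols given by a product
  have hext : ∀ (W : Submodule (ZMod 2) (Additive S.G)), Nat.card W ≤ 8 →
      ∀ (φ f : Dl (Additive S.G)),
      (∀ w ∈ W, φ w ≠ 0 → ∀ b : Additive S.G, S.q w.toMul b.toMul = S.zero → f b = 0) →
      ∃ ω ∈ BRI_A S, ∀ w ∈ W, ω w = φ w • f := by
    intro W hWc φ f hW
    let W' : Subgroup S.G :=
      { carrier := {x | Additive.ofMul x ∈ W}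
        mul_mem' := fun {x y} hx hy => W.add_mem hx hy
        one_mem' := W.zero_mem
        inv_mem' := fun {x} hx => W.neg_mem hx }
    have hWc' : Nat.card W' ≤ 8 := hWc
    obtain ⟨χ', hχ, hχ'⟩ := hMX W' hWc' (fun x => φ (Additive.ofMul x))
      (fun y => f (Additive.ofMul y)) (fun a b => by
        show φ (Additive.ofMul (a * b)) = _
        rw [ofMul_mul, map_add]) (fun a b => by
        show f (Additive.ofMul (a * b)) = _
        rw [ofMul_mul, map_add]) (by
        intro a ha b hab
        show φ (Additive.ofMul a) * f (Additive.ofMul b) = 0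
        by_cases h0 : φ (Additive.ofMul a) = 0
        · rw [h0, zero_mul]
        · rw [hW _ ha h0 (Additive.ofMul b) hab, mul_zero])
    obtain ⟨ω, hω, hω'⟩ := BRI_form hχ
    refine ⟨ω, hω, fun w hw => ?_⟩
    ext b
    rw [hω', hχ' w.toMul hw]
    rfl
  -- the forms detect the zeros of `q`
  have hdet : ∀ a b : Additive S.G, (∀ ω ∈ BRI_A S, ω a b = 0) →
      S.q a.toMul b.toMul = S.zero := by
    intro a b hab
    by_contra hne
    let K : Submodule (ZMod 2) (Additive S.G) :=
      AddSubgroup.toZModSubmodule 2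
        { carrier := {y : Additive S.G | S.q a.toMul y.toMul = S.zero}
          add_mem' := fun {x y} hx hy => qmul _ _ _ hx hy
          zero_mem' := q1 _
          neg_mem' := fun {x} hx => by
            have : -x = x := by
              rw [neg_eq_iff_add_eq_zero]; exact vadd x
            rw [this]; exact hx }
    have hbK : b ∉ K := hne
    obtain ⟨f, hf1, hf2⟩ := Submodule.exists_le_ker_of_notMem hbK
    have ha0 : a ≠ 0 := by
      rintro rfl
      apply hne
      rw [hS.qs2]
      exact q1 _
    obtain ⟨φ, hφ⟩ := exists_ne_one ha0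
    obtain ⟨ω, hω, hω'⟩ := hext (Submodule.span (ZMod 2) {a})
      (card_span_three 0 a a _ (le_sup_of_le_right (Submodule.span_mono (by simp)))) φ f (by
      intro w hw hφw y hy
      rcases span_one_mem.1 hw with rfl | rfl
      · exact absurd (map_zero φ) hφw
      · exact hf2 hy)
    have h1 := hab ω hω
    rw [hω' a (Submodule.mem_span_singleton_self a), hφ, one_smul] at h1
    exact hf1 h1
  -- extension in terms of the family
  have hPE : ∀ W : Submodule (ZMod 2) (Additive S.G), Nat.card W ≤ 8 → PE (BRI_A S) W := by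
    intro W hW φ f h
    refine hext W hW φ f fun w hw hφ b hb => h w hw hφ b fun ω hω => hω w b hb
  have hL : Linked (BRI_A S) := by
    have h1 := linked_of_PE halt ⊤ (by
      intro a c
      apply hPE
      apply card_span_three 0 a c
      rw [Submodule.dualCoannihilator_top]
      simp)
    rwa [res_top] at h1
  have hLu : ∀ u : Additive S.G, Linked (res (BRI_A S) (ann u)) := by
    intro u
    refine linked_of_PE halt (ann u) ?_
    intro a c
    apply hPE
    apply card_span_three u a c
    refine sup_le_sup_right ?_ _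
    intro v hv
    by_contra hcon
    obtain ⟨g, hg1, hg2⟩ := Submodule.exists_le_ker_of_notMem hcon
    rw [Submodule.mem_dualCoannihilator] at hv
    refine hg1 (hv g ?_)
    exact hg2 (Submodule.mem_span_singleton_self u)
  have hcl : Closed (BRI_A S) := by
    intro ω hω a b hab
    exact hω a b fun η hη => hη a b hab
  have hHu : ∀ u : Additive S.G, u ≠ 0 → Hered (res (BRI_A S) (ann u)) := by
    intro u hu
    refine hered_quot hPL hconv halt hcl hu (hLu u) ?_
    intro T hT hTf hTc
    exact IH T hT hTf hTc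
  have hher : Hered (BRI_A S) := by
    intro X
    by_cases hX : X = ⊤
    · rw [hX, res_top]
      exact hL
    · obtain ⟨u, hu, hXu⟩ := exists_ann hX
      have h1 := hHu u hu X
      rwa [res_res_of_le _ hXu] at h1
  -- equality of quaternions
  have heq : ∀ a b c d : Additive S.G, (∀ ω ∈ BRI_A S, ω a b = ω c d) ↔
      S.q a.toMul b.toMul = S.q c.toMul d.toMul := by
    intro a b c d
    constructor
    · intro h
      obtain ⟨z, h1, h2, h3⟩ := hPL (Additive S.G) e (BRI_A S) halt hher.linked a c b d h
      have e1 := (hS.qs3 a.toMul b.toMul z.toMul).2 (hdet a (b + z) h1)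
      have e2 := (hS.qs3 c.toMul d.toMul z.toMul).2 (hdet c (d + z) h2)
      have e3 := hdet (a + c) z h3
      rw [hS.qs2] at e3
      have e4 := (hS.qs3 z.toMul a.toMul c.toMul).2 e3
      rw [e1, e2, hS.qs2 a.toMul, hS.qs2 c.toMul, e4]
    · intro h ω hω
      obtain ⟨x, hx1, hx2⟩ := hS.qs4 _ _ _ _ h
      have e1 : ω a (b + Additive.ofMul x) = 0 := hω _ _ ((hS.qs3 _ _ _).1 hx1)
      have e2 : ω c (d + Additive.ofMul x) = 0 := hω _ _ ((hS.qs3 _ _ _).1 hx2)
      have e3 : S.q x a.toMul = S.q x c.toMul := by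
        rw [hS.qs2 x, hS.qs2 x, ← hx1, ← hx2, h]
      have e4 : ω (Additive.ofMul x) (a + c) = 0 := hω _ _ ((hS.qs3 _ _ _).1 e3)
      rw [map_add] at e1 e2 e4
      have f1 := Pool.Agent.W622.ETC.add_eq_zero'.1 e1
      have f2 := Pool.Agent.W622.ETC.add_eq_zero'.1 e2
      have f4 := Pool.Agent.W622.ETC.add_eq_zero'.1 e4
      rw [f1, f2, (halt ω hω).symm, f4, (halt ω hω).symm]
  have hElem : Elem (QD e (BRI_A S)) := hout _ _ _ (hcore _ _ _ halt hher)
  refine Elem.iso _ _ hElem ⟨MulEquiv.multiplicativeAdditive S.G, rfl, ?_⟩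
  intro a b c d
  rw [QD_eq]
  exact heq a.toAdd b.toAdd c.toAdd d.toAdd

end Pool.Agent.TH188.ET8
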