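import Pool.Agent.TH188.ET.BrDet
import Pool.Agent.TH188.ET.Cor

set_option autoImplicit false
set_option linter.all false

/-! Fields whose quaternionic structure is small on three-generated subgroups. -/

open scoped TensorProduct Quaternion

noncomputable section

namespace Pool.Agent.TH188.ETF

open Pool.Agent.H315R3.ETC Pool.Agent.TH188.ET Pool.Agent.TH188.ETB Pool.Agent.TH188.ETV
open Pool.Agent.Helper18.Br

universe u

variable {F : Type u} [Field F]

/-- the elements of order at most two of the Brauer group, written additively -/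
def B2 (F : Type u) [Field F] : AddSubgroup (Additive (BrauerGroup.{u, u} F)) where
  carrier := {t | t + t = 0}
  zero_mem' := add_zero _
  add_mem' := by
    intro a b ha hb
    show (a + b) + (a + b) = 0
    have : (a + b) + (a + b) = (a + a) + (b + b) := by abel
    rw [this, show a + a = 0 from ha, show b + b = 0 from hb, add_zero]
  neg_mem' := by
    intro a ha
    show -a + -a = 0
    rw [← neg_add, show a + a = 0 from ha, neg_zero]

/-- the class of `(a,b)` -/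
def bq (h2 : (2 : F) ≠ 0) (a b : Fˣ) : B2 F := ⟨Additive.ofMul (qCl h2 a b), by
  show Additive.ofMul (qCl h2 a b * qCl h2 a b) = 0
  rw [qCl_sq]
  rfl⟩

theorem bq_eq_iff (h2 : (2 : F) ≠ 0) (a b c d : Fˣ) : bq h2 a b = bq h2 c d ↔ QIso a b c d := by
  rw [← qCl_eq_iff h2, Subtype.ext_iff]
  exact Additive.ofMul.injective.eq_iff

theorem bq_mul (h2 : (2 : F) ≠ 0) (a b c : Fˣ) : bq h2 a (b * c) = bq h2 a b + bq h2 a c := by
  apply Subtype.ext
  show Additive.ofMul (qCl h2 a (b * c)) = Additive.ofMul (qCl h2 a b) + Additive.ofMul (qCl h2 a c)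
  rw [qCl_mul_right, ofMul_mul]

theorem bq_mul_left (h2 : (2 : F) ≠ 0) (a b c : Fˣ) :
    bq h2 (a * b) c = bq h2 a c + bq h2 b c := by
  apply Subtype.ext
  show Additive.ofMul (qCl h2 (a * b) c) = Additive.ofMul (qCl h2 a c) + Additive.ofMul (qCl h2 b c)
  rw [qCl_mul_left, ofMul_mul]

theorem bq_eq_zero_iff (h2 : (2 : F) ≠ 0) (a b : Fˣ) : bq h2 a b = 0 ↔ NormFrom a b := by
  rw [← qCl_eq_one_iff h2, Subtype.ext_iff]
  exact Iff.rfl

theorem B2_add_self (t : B2 F) : t + t = 0 := Subtype.ext t.2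

/-- main theorem for fields, in terms of the Brauer group -/
theorem elem_of_br (h2 : (2 : F) ≠ 0) (hfin : FinSq F)
    (hsmall : ∀ x y z : Fˣ, SmallG (bq h2) x y z) : ∃ S : QData, Elem S ∧ IsStructureOf F S := by
  obtain ⟨S, hS, hSfin, hSq⟩ := exists_structure h2 hfin
  refine ⟨S, ?_, hS⟩
  obtain ⟨φ, hs, hk, hn, h0, hq⟩ := hS
  have hinv : ∀ a b a' b' : Fˣ, φ a = φ a' → φ b = φ b' → bq h2 a b = bq h2 a' b' := by
    intro a b a' b' h1 h3
    rw [bq_eq_iff]
    exact qiso_of_phi h2 hk h1 h3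
  choose r hr using hs
  let β : S.G → S.G → B2 F := fun g h => bq h2 (r g) (r h)
  have hβ : ∀ a b : Fˣ, β (φ a) (φ b) = bq h2 a b := fun a b => hinv _ _ _ _ (hr _) (hr _)
  have hQs : ∀ a : Fˣ, Qs β (φ a) = Qs (bq h2) a := by
    intro a
    unfold Qs
    congr 1
    ext t
    constructor
    · rintro ⟨g, rfl⟩
      exact ⟨r g, by rw [← hβ, hr]⟩
    · rintro ⟨b, rfl⟩
      exact ⟨φ b, hβ a b⟩
  refine elem_of_small S hSq hSfin B2_add_self β ?_ ?_ ?_
  · intro g h k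
    show bq h2 (r g) (r (h * k)) = bq h2 (r g) (r h) + bq h2 (r g) (r k)
    rw [← bq_mul]
    apply hinv _ _ _ _ rfl
    rw [map_mul, hr, hr, hr]
  · intro g h k l
    show bq h2 (r g) (r h) = bq h2 (r k) (r l) ↔ _
    rw [bq_eq_iff]
    have := hq (r g) (r h) (r k) (r l)
    rw [hr, hr, hr, hr] at this
    exact this.symm
  · intro x y z
    obtain ⟨a, rfl⟩ : ∃ a, φ a = x := ⟨r x, hr _⟩
    obtain ⟨b, rfl⟩ : ∃ a, φ a = y := ⟨r y, hr _⟩
    obtain ⟨c, rfl⟩ : ∃ a, φ a = z := ⟨r z, hr _⟩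
    rcases hsmall a b c with h | ⟨p, hp, h⟩
    · refine Or.inl ?_
      rintro p (rfl | rfl | rfl | rfl)
      · rw [hQs]; exact h _ (Or.inl rfl)
      · rw [hQs]; exact h _ (Or.inr (Or.inl rfl))
      · rw [hQs]; exact h _ (Or.inr (Or.inr (Or.inl rfl)))
      · rw [← map_mul, ← map_mul, hQs]; exact h _ (Or.inr (Or.inr (Or.inr rfl)))
    · refine Or.inr ⟨φ p, ?_, ?_⟩
      · rcases hp with rfl | rfl | rfl | rfl
        · exact Or.inl rfl
        · exact Or.inr (Or.inl rfl)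
        · exact Or.inr (Or.inr (Or.inl rfl))
        · exact Or.inr (Or.inr (Or.inr (by rw [map_mul, map_mul])))
      · rw [hQs, hQs, hQs, hQs]
        exact h

/-- the homomorphism `K_2(F)/2 → Br(F)` -/
theorem exists_res (h2 : (2 : F) ≠ 0) :
    ∃ f : K2 F →+ B2 F, ∀ a b, f (sy a b) = bq h2 a b := by
  let B' : Additive Fˣ →+ Additive Fˣ →+ B2 F :=
    AddMonoidHom.mk' (fun a => AddMonoidHom.mk' (fun b => bq h2 a.toMul b.toMul)
      (fun b c => bq_mul h2 _ _ _)) (fun a b => by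
        ext c
        exact congrArg Subtype.val (bq_mul_left h2 _ _ _))
  let g : Additive Fˣ ⊗[ℤ] Additive Fˣ →+ B2 F :=
    TensorProduct.liftAddHom B' (fun r m n => by
      rw [map_zsmul, AddMonoidHom.smul_apply, map_zsmul])
  have hg : ∀ a b : Fˣ, g (Additive.ofMul a ⊗ₜ[ℤ] Additive.ofMul b) = bq h2 a b := by
    intro a b
    rfl
  have hker : steinberg F ≤ g.ker := by
    unfold steinberg
    rw [AddSubgroup.closure_le]
    rintro t (⟨a, b, hab, rfl⟩ | ⟨s, rfl⟩)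
    · rw [SetLike.mem_coe, AddMonoidHom.mem_ker, hg, bq_eq_zero_iff]
      refine ⟨1, 1, ?_⟩
      linear_combination hab
    · rw [SetLike.mem_coe, AddMonoidHom.mem_ker, map_add]
      exact B2_add_self _
  refine ⟨QuotientAddGroup.lift _ g hker, ?_⟩
  intro a b
  exact hg a b

/-- finiteness of the groups of symbols with a fixed slot -/
theorem finite_Qs (hfin : FinSq F) (a : Fˣ) : Finite (Qs (sy (F := F)) a) := by
  have : Finite (Fˣ ⧸ (powMonoidHom 2 : Fˣ →* Fˣ).range) := hfin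
  obtain ⟨f, hf1, hf2, -⟩ := card_Qs (sy (F := F)) sy_mul_right a
  have h1 : ∀ t : Qs (sy (F := F)) a, ∃ b : Fˣ, sy a b = t := by
    intro t
    have ht : (t : K2 F) ∈ f.range := by rw [hf2]; exact t.2
    obtain ⟨b, hb⟩ := ht
    exact ⟨b.toMul, by rw [← hf1]; exact hb⟩
  choose g hg using h1
  refine Finite.of_injective (fun t => (QuotientGroup.mk (g t) :
    Fˣ ⧸ (powMonoidHom 2 : Fˣ →* Fˣ).range)) ?_
  intro t t' h
  apply Subtype.ext
  rw [← hg, ← hg t']
  have h2 : (g t)⁻¹ * g t' ∈ (powMonoidHom 2 : Fˣ →* Fˣ).range := QuotientGroup.eq.1 h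
  obtain ⟨c, hc⟩ := h2
  have h3 : g t' = g t * c ^ 2 := by
    have : c ^ 2 = (g t)⁻¹ * g t' := hc
    rw [this, mul_inv_cancel_left]
  rw [h3, sy_sq_right]

/-- smallness in terms of `K_2(F)/2` -/
theorem small_of_K2 (h2 : (2 : F) ≠ 0) (hfin : FinSq F) (x y z : Fˣ)
    (h : SmallG (sy (F := F)) x y z) : SmallG (bq h2) x y z := by
  obtain ⟨f, hf⟩ := exists_res h2
  have hmap : ∀ a : Fˣ, Qs (bq h2) a = (Qs (sy (F := F)) a).map f := by
    intro a
    unfold Qs
    rw [AddMonoidHom.map_closure]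
    congr 1
    ext t
    constructor
    · rintro ⟨b, rfl⟩
      exact ⟨sy a b, ⟨b, rfl⟩, hf a b⟩
    · rintro ⟨_, ⟨b, rfl⟩, rfl⟩
      exact ⟨b, (hf a b).symm⟩
  rcases h with h | ⟨p, hp, h⟩
  · refine Or.inl fun p hp => ?_
    haveI := finite_Qs hfin p
    have hsurj : Function.Surjective
        (fun t : Qs (sy (F := F)) p => (⟨f t, by rw [hmap]; exact ⟨t, t.2, rfl⟩⟩ : Qs (bq h2) p)) := by
      rintro ⟨t, ht⟩
      rw [hmap] at ht
      obtain ⟨s, hs, rfl⟩ := ht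
      exact ⟨⟨s, hs⟩, rfl⟩
    exact (Nat.card_le_card_of_surjective _ hsurj).trans (h p hp)
  · refine Or.inr ⟨p, hp, ?_⟩
    have hsup : Qs (bq h2) x ⊔ Qs (bq h2) y ⊔ Qs (bq h2) z =
        (Qs (sy (F := F)) x ⊔ Qs (sy (F := F)) y ⊔ Qs (sy (F := F)) z).map f := by
      rw [AddSubgroup.map_sup, AddSubgroup.map_sup, ← hmap, ← hmap, ← hmap]
    rw [hsup, hmap p]
    rintro _ ⟨u, hu, rfl⟩ _ ⟨v, hv, rfl⟩
    rcases h u hu v hv with h | h | h
    · exact Or.inl ⟨u, h, rfl⟩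
    · exact Or.inr (Or.inl ⟨v, h, rfl⟩)
    · exact Or.inr (Or.inr ⟨u + v, h, by rw [map_add]⟩)

end Pool.Agent.TH188.ETF
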