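import Pool.Agent.TH188.ET.PlaneH
import Pool.Agent.TH188.ET.Eight

set_option autoImplicit false

/-!
Quaternionic structures with values in a group which are small on three-generated subgroups are of
elementary type.
-/

namespace Pool.Agent.TH188.ETV

open Pool.Agent.H315R3.ETC Pool.Agent.W622.ETG Module Pool.Agent.TH188.ETP
open Pool.Agent.TH188.ET (exists_char exists_factor)
open Pool.Agent.TH188.ET8 (QD_eq)

universe v w

section comb
variable {B : Type v} [AddCommGroup B]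

theorem z2 (x : ZMod 2) : x = 0 ∨ x = 1 := by
  revert x; decide

/-- three characters of a group with at most four elements are dependent -/
theorem comb3 (H : AddSubgroup B) (hf : Finite H) (hc : Nat.card H ≤ 4) (l1 l2 l3 : B →+ ZMod 2) :
    (∀ h ∈ H, l1 h = 0) ∨ (∀ h ∈ H, l2 h = 0) ∨ (∀ h ∈ H, l3 h = 0) ∨ (∀ h ∈ H, l1 h = l2 h) ∨
      (∀ h ∈ H, l1 h = l3 h) ∨ (∀ h ∈ H, l2 h = l3 h) ∨ (∀ h ∈ H, l1 h = l2 h + l3 h) := by
  let t : H →+ ZMod 2 × ZMod 2 × ZMod 2 := (l1.prod (l2.prod l3)).comp H.subtype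
  have ht : ∀ h : H, t h = (l1 h, l2 h, l3 h) := fun _ => rfl
  have hcard : Nat.card t.range ≤ 4 :=
    (Nat.card_le_card_of_surjective _ t.rangeRestrict_surjective).trans hc
  have hne : ∃ v, v ∉ t.range := by
    by_contra hcon
    push Not at hcon
    have h1 : t.range = ⊤ := (AddSubgroup.eq_top_iff' _).2 hcon
    rw [h1, AddSubgroup.card_top, Nat.card_prod, Nat.card_prod, Nat.card_zmod] at hcard
    omega
  obtain ⟨v, hv⟩ := hne
  obtain ⟨f, hf1, hf2⟩ := exists_char t.range (fun x => by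
    have : x + x = 0 := by
      ext <;> exact CharTwo.add_self_eq_zero _
    rw [this]; exact zero_mem _) v hv
  set c1 := f (1, 0, 0) with hc1
  set c2 := f (0, 1, 0) with hc2
  set c3 := f (0, 0, 1) with hc3
  have hfv : ∀ x y z : ZMod 2, f (x, y, z) = c1 * x + c2 * y + c3 * z := by
    intro x y z
    have h1 : ((x, y, z) : ZMod 2 × ZMod 2 × ZMod 2) =
        x.val • ((1, 0, 0) : ZMod 2 × ZMod 2 × ZMod 2) + y.val • (0, 1, 0) + z.val • (0, 0, 1) := by
      ext <;> simp
    rw [h1, map_add, map_add, map_nsmul, map_nsmul, map_nsmul, ← hc1, ← hc2, ← hc3]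
    simp [mul_comm]
  have hz : ∀ h ∈ H, c1 * l1 h + c2 * l2 h + c3 * l3 h = 0 := by
    intro h hh
    rw [← hfv]
    exact hf1 _ ⟨⟨h, hh⟩, rfl⟩
  rcases z2 c1 with e1 | e1 <;> rcases z2 c2 with e2 | e2 <;> rcases z2 c3 with e3 | e3 <;>
    rw [e1, e2, e3] at hz hfv
  · exfalso
    apply hf2
    obtain ⟨x, y, z⟩ := v
    rw [hfv]; ring
  · exact Or.inr (Or.inr (Or.inl fun h hh => by simpa using hz h hh))
  · exact Or.inr (Or.inl fun h hh => by simpa using hz h hh)
  · refine Or.inr (Or.inr (Or.inr (Or.inr (Or.inr (Or.inl fun h hh => ?_)))))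
    have := hz h hh
    simp only [zero_mul, one_mul, zero_add] at this
    exact CharTwo.add_eq_zero.1 this
  · exact Or.inl fun h hh => by simpa using hz h hh
  · refine Or.inr (Or.inr (Or.inr (Or.inr (Or.inl fun h hh => ?_))))
    have := hz h hh
    simp only [zero_mul, one_mul, add_zero] at this
    exact CharTwo.add_eq_zero.1 this
  · refine Or.inr (Or.inr (Or.inr (Or.inl fun h hh => ?_)))
    have := hz h hh
    simp only [zero_mul, one_mul, add_zero] at this
    exact CharTwo.add_eq_zero.1 this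
  · refine Or.inr (Or.inr (Or.inr (Or.inr (Or.inr (Or.inr fun h hh => ?_)))))
    have := hz h hh
    simp only [one_mul] at this
    rw [add_assoc] at this
    exact CharTwo.add_eq_zero.1 this

/-- two characters trivial on a subgroup of index at most two are dependent -/
theorem comb2 (K H : AddSubgroup B)
    (hKH : ∀ u ∈ H, ∀ v ∈ H, u ∈ K ∨ v ∈ K ∨ u + v ∈ K)
    (l1 l2 : B →+ ZMod 2) (h1 : ∀ k ∈ K, l1 k = 0) (h2 : ∀ k ∈ K, l2 k = 0) :
    (∀ h ∈ H, l1 h = 0) ∨ (∀ h ∈ H, l2 h = 0) ∨ (∀ h ∈ H, l1 h = l2 h) := by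
  by_contra hcon
  push Not at hcon
  obtain ⟨⟨u, hu, hu1⟩, ⟨v, hv, hv2⟩, ⟨w, hw, hw3⟩⟩ := hcon
  have huK : u ∉ K := fun h => hu1 (h1 u h)
  have hvK : v ∉ K := fun h => hv2 (h2 v h)
  have hwK : w ∉ K := fun h => hw3 ((h1 w h).trans (h2 w h).symm)
  have huv : u + v ∈ K := ((hKH u hu v hv).resolve_left huK).resolve_left hvK
  have huw : u + w ∈ K := ((hKH u hu w hw).resolve_left huK).resolve_left hwK
  have e1 := h1 _ huw
  have e2 := h2 _ huw
  have e3 := h2 _ huv
  rw [map_add] at e1 e2 e3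
  rcases z2 (l1 u) with a1 | a1
  · exact hu1 a1
  rcases z2 (l2 v) with a2 | a2
  · exact hv2 a2
  rw [a1] at e1
  rw [a2] at e3
  have b1 : l2 u = 1 := CharTwo.add_eq_zero.1 e3
  rw [b1] at e2
  exact hw3 ((CharTwo.add_eq_zero.1 e1).symm.trans (CharTwo.add_eq_zero.1 e2))

end comb

/-- `Q_a`: the group generated by all `β(a,b)`, `b ∈ G` -/
def Qs {G : Type w} {B : Type v} [AddCommGroup B] (β : G → G → B) (a : G) : AddSubgroup B :=
  AddSubgroup.closure (Set.range (β a))

/-- the smallness condition at `x, y, z`: the groups `Q_p`, `p = x, y, z, xyz`, have at most four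
elements, or one of them has index at most two in `Q_x + Q_y + Q_z` (that is, `u ∈ Q_p` or
`v ∈ Q_p` or `u + v ∈ Q_p` for all `u, v ∈ Q_x + Q_y + Q_z`) -/
def SmallG {G : Type w} [CommGroup G] {B : Type v} [AddCommGroup B] (β : G → G → B)
    (x y z : G) : Prop :=
  (∀ p : G, p = x ∨ p = y ∨ p = z ∨ p = x * y * z → Nat.card (Qs β p) ≤ 4) ∨
  ∃ p : G, (p = x ∨ p = y ∨ p = z ∨ p = x * y * z) ∧
    ∀ u ∈ Qs β x ⊔ Qs β y ⊔ Qs β z, ∀ v ∈ Qs β x ⊔ Qs β y ⊔ Qs β z,
      u ∈ Qs β p ∨ v ∈ Qs β p ∨ u + v ∈ Qs β p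

theorem elem_of_small (S : QData) (hS : IsQuat S) (hfin : Finite S.G) {B : Type v}
    [AddCommGroup B] (hB : ∀ b : B, b + b = 0) (β : S.G → S.G → B)
    (hmul : ∀ a b c, β a (b * c) = β a b + β a c)
    (hiff : ∀ a b c d, β a b = β c d ↔ S.q a b = S.q c d)
    (hsmall : ∀ x y z : S.G, SmallG β x y z) : Elem S := by
  classical
  obtain ⟨hcore, hPL, hout, hconv⟩ := Pool.Agent.W622.ETG.all_parts
  let _ : Module (ZMod 2) (Additive S.G) := AddCommGroup.zmodModule (n := 2) (by
    intro x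
    rw [two_smul]
    exact hS.exp2 x.toMul)
  have hfV : Finite (Additive S.G) := hfin
  have q1 : ∀ a, S.q a 1 = S.zero := by
    intro a
    have := (hS.qs3 a 1 1).1 rfl
    rwa [mul_one] at this
  have b1 : ∀ a, β a 1 = 0 := by
    intro a
    have := hmul a 1 1
    rw [mul_one] at this
    exact left_eq_add.1 this
  have hz : ∀ a b, β a b = 0 ↔ S.q a b = S.zero := by
    intro a b
    rw [← b1 a, ← q1 a, hiff]
  have hsym : ∀ a b, β a b = β b a := fun a b => (hiff _ _ _ _).2 (hS.qs2 a b)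
  have hmul' : ∀ a b c, β (a * b) c = β a c + β b c := by
    intro a b c
    rw [hsym, hmul, hsym c, hsym c]
  -- the form of a character
  let frm (l : B →+ ZMod 2) : Frm (Additive S.G) :=
    AddMonoidHom.toZModLinearMap 2
      { toFun := fun a => AddMonoidHom.toZModLinearMap 2
          { toFun := fun b => l (β a.toMul b.toMul)
            map_zero' := by
              show l (β a.toMul 1) = 0
              rw [b1, map_zero]
            map_add' := fun b c => by
              show l (β a.toMul (b.toMul * c.toMul)) = _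
              rw [hmul, map_add] }
        map_zero' := by
          ext b
          show l (β 1 b.toMul) = 0
          rw [hsym, b1, map_zero]
        map_add' := fun a a' => by
          ext b
          show l (β (a.toMul * a'.toMul) b.toMul) = l _ + l _
          rw [hmul', map_add] }
  have hfrm : ∀ l a b, frm l a b = l (β a.toMul b.toMul) := fun _ _ _ => rfl
  let A : Fam (Additive S.G) :=
    { carrier := {ω | ∃ l : B →+ ZMod 2, ω = frm l}
      add_mem' := by
        rintro _ _ ⟨l, rfl⟩ ⟨l', rfl⟩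
        exact ⟨l + l', by ext a b; rfl⟩
      zero_mem' := ⟨0, by ext a b; rfl⟩
      smul_mem' := by
        rintro c _ ⟨l, rfl⟩
        refine ⟨c.val • l, ?_⟩
        ext a b
        rw [LinearMap.smul_apply, LinearMap.smul_apply, hfrm, hfrm, AddMonoidHom.nsmul_apply]
        simp }
  have hAm : ∀ ω, ω ∈ A ↔ ∃ l : B →+ ZMod 2, ω = frm l := fun _ => Iff.rfl
  set e : Additive S.G := Additive.ofMul S.neg with he
  have hEF : EFam e A := by
    rintro ω ⟨l, rfl⟩
    constructor
    · intro a b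
      rw [hfrm, hfrm, hsym]
    · intro a
      have h1 : β a.toMul (S.neg * a.toMul) = 0 := (hz _ _).2 (hS.qs1 a.toMul)
      rw [hmul] at h1
      have h2 : β a.toMul a.toMul = β a.toMul S.neg := by
        have h3 := hB (β a.toMul S.neg)
        rw [← h3] at h1
        exact add_left_cancel h1
      rw [hfrm, hfrm, h2]
      rfl
  -- linkage by gluing
  have hL : Linked A := by
    rintro ω ⟨l, rfl⟩ η ⟨m, rfl⟩ a c hac
    have hac' : ∀ b, l (β a.toMul b) = m (β c.toMul b) := by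
      intro b
      have := LinearMap.congr_fun hac (Additive.ofMul b)
      rwa [hfrm, hfrm] at this
    let Φ : Additive S.G × Additive S.G →+ B :=
      AddMonoidHom.mk' (fun z => β a.toMul z.1.toMul + β c.toMul z.2.toMul) (by
        intro z z'
        simp only [Prod.fst_add, Prod.snd_add, toMul_add, hmul]
        abel)
    let Λ : Additive S.G × Additive S.G →+ ZMod 2 :=
      AddMonoidHom.mk' (fun z => l (β a.toMul z.1.toMul) + m (β c.toMul z.2.toMul)) (by
        intro z z'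
        simp only [Prod.fst_add, Prod.snd_add, toMul_add, hmul, map_add]
        abel)
    obtain ⟨k, hk⟩ := exists_factor hB Φ Λ (by
      rintro ⟨b, d⟩ h
      have h1 : β a.toMul b.toMul + β c.toMul d.toMul = 0 := h
      have h2 : β a.toMul b.toMul = β c.toMul d.toMul := by
        have h3 := hB (β c.toMul d.toMul)
        rw [← h3] at h1
        exact add_right_cancel h1
      obtain ⟨x, hx1, hx2⟩ := hS.qs4 _ _ _ _ ((hiff _ _ _ _).1 h2)
      have e1 := (hiff _ _ _ _).2 hx1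
      have e2 := (hiff _ _ _ _).2 hx2
      show l (β a.toMul b.toMul) + m (β c.toMul d.toMul) = 0
      rw [e1, e2, hac']
      exact CharTwo.add_self_eq_zero _)
    refine ⟨frm k, ⟨k, rfl⟩, ?_, ?_⟩
    · ext b
      rw [hfrm, hfrm]
      have := hk (b, 0)
      have h1 : Φ (b, 0) = β a.toMul b.toMul := by
        show β a.toMul b.toMul + β c.toMul 1 = _
        rw [b1, add_zero]
      have h2 : Λ (b, 0) = l (β a.toMul b.toMul) := by
        show l (β a.toMul b.toMul) + m (β c.toMul 1) = _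
        rw [b1, map_zero, add_zero]
      rw [h1, h2] at this
      exact this
    · ext b
      rw [hfrm, hfrm]
      have := hk (0, b)
      have h1 : Φ (0, b) = β c.toMul b.toMul := by
        show β a.toMul 1 + β c.toMul b.toMul = _
        rw [b1, zero_add]
      have h2 : Λ (0, b) = m (β c.toMul b.toMul) := by
        show l (β a.toMul 1) + m (β c.toMul b.toMul) = _
        rw [b1, map_zero, zero_add]
      rw [h1, h2] at this
      rw [this]
      exact (hac' _).symm
  -- finiteness of the groups `Q_p`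
  have hQ : ∀ p : S.G, ∀ h, h ∈ Qs β p ↔ ∃ b, β p b = h := by
    intro p h
    constructor
    · intro hh
      refine AddSubgroup.closure_induction (p := fun h _ => ∃ b, β p b = h) ?_ ?_ ?_ ?_ hh
      · rintro _ ⟨b, rfl⟩; exact ⟨b, rfl⟩
      · exact ⟨1, b1 p⟩
      · rintro _ _ _ _ ⟨b, rfl⟩ ⟨c, rfl⟩
        exact ⟨b * c, hmul _ _ _⟩
      · rintro _ _ ⟨b, rfl⟩
        exact ⟨b, (neg_eq_iff_add_eq_zero.2 (hB _)).symm⟩
    · rintro ⟨b, rfl⟩
      exact AddSubgroup.subset_closure ⟨b, rfl⟩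
  have hQfin : ∀ p : S.G, Finite (Qs β p) := by
    intro p
    have hsurj : Function.Surjective
        (fun b : S.G => (⟨β p b, AddSubgroup.subset_closure ⟨b, rfl⟩⟩ : Qs β p)) := by
      rintro ⟨h, hh⟩
      obtain ⟨b, rfl⟩ := (hQ p h).1 hh
      exact ⟨b, rfl⟩
    exact Finite.of_surjective _ hsurj
  have hvan : ∀ (l : B →+ ZMod 2) (p : Additive S.G), (∀ h ∈ Qs β p.toMul, l h = 0) ↔
      frm l p = 0 := by
    intro l p
    constructor
    · intro h
      ext b
      rw [hfrm]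
      exact h _ ((hQ _ _).2 ⟨_, rfl⟩)
    · intro h k hk
      obtain ⟨b, rfl⟩ := (hQ _ _).1 hk
      have := LinearMap.congr_fun h (Additive.ofMul b)
      rwa [hfrm] at this
  have heqv : ∀ (l m : B →+ ZMod 2) (p : Additive S.G),
      (∀ h ∈ Qs β p.toMul, l h = m h) → frm l p = frm m p := by
    intro l m p h
    ext b
    rw [hfrm, hfrm]
    exact h _ ((hQ _ _).2 ⟨_, rfl⟩)
  have hR : ∀ p : Additive S.G, Nat.card (Qs β p.toMul) ≤ 4 → R2 A p := by
    intro p hp
    rintro ω₁ ⟨l1, rfl⟩ ω₂ ⟨l2, rfl⟩ ω₃ ⟨l3, rfl⟩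
    rcases comb3 _ (hQfin _) hp l1 l2 l3 with h | h | h | h | h | h | h
    · exact Or.inl ((hvan _ _).1 h)
    · exact Or.inr (Or.inl ((hvan _ _).1 h))
    · exact Or.inr (Or.inr (Or.inl ((hvan _ _).1 h)))
    · exact Or.inr (Or.inr (Or.inr (Or.inl (heqv _ _ _ h))))
    · exact Or.inr (Or.inr (Or.inr (Or.inr (Or.inl (heqv _ _ _ h)))))
    · exact Or.inr (Or.inr (Or.inr (Or.inr (Or.inr (Or.inl (heqv _ _ _ h))))))
    · refine Or.inr (Or.inr (Or.inr (Or.inr (Or.inr (Or.inr ?_)))))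
      ext b
      rw [LinearMap.add_apply, hfrm, hfrm, hfrm]
      exact h _ ((hQ _ _).2 ⟨_, rfl⟩)
  have hCC : ∀ (p x y z : Additive S.G),
      (∀ u ∈ Qs β x.toMul ⊔ Qs β y.toMul ⊔ Qs β z.toMul,
        ∀ v ∈ Qs β x.toMul ⊔ Qs β y.toMul ⊔ Qs β z.toMul,
        u ∈ Qs β p.toMul ∨ v ∈ Qs β p.toMul ∨ u + v ∈ Qs β p.toMul) →
      C2 A p x y z := by
    intro p x y z hp
    have hx : Qs β x.toMul ≤ Qs β x.toMul ⊔ Qs β y.toMul ⊔ Qs β z.toMul :=
      le_sup_of_le_left le_sup_left
    have hy : Qs β y.toMul ≤ Qs β x.toMul ⊔ Qs β y.toMul ⊔ Qs β z.toMul :=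
      le_sup_of_le_left le_sup_right
    have hz' : Qs β z.toMul ≤ Qs β x.toMul ⊔ Qs β y.toMul ⊔ Qs β z.toMul := le_sup_right
    rintro ω₁ ⟨l1, rfl⟩ ω₂ ⟨l2, rfl⟩ e1 e2
    rcases comb2 _ _ hp l1 l2 ((hvan _ _).2 e1) ((hvan _ _).2 e2) with h | h | h
    · exact Or.inl ⟨(hvan _ _).1 fun k hk => h k (hx hk), (hvan _ _).1 fun k hk => h k (hy hk),
        (hvan _ _).1 fun k hk => h k (hz' hk)⟩
    · exact Or.inr (Or.inl ⟨(hvan _ _).1 fun k hk => h k (hx hk),
        (hvan _ _).1 fun k hk => h k (hy hk), (hvan _ _).1 fun k hk => h k (hz' hk)⟩)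
    · exact Or.inr (Or.inr ⟨heqv _ _ _ fun k hk => h k (hx hk),
        heqv _ _ _ fun k hk => h k (hy hk), heqv _ _ _ fun k hk => h k (hz' hk)⟩)
  have hsm : ∀ x y z : Additive S.G, SmallAt A x y z := by
    intro x y z
    rcases hsmall x.toMul y.toMul z.toMul with h | ⟨p, hp, h⟩
    · refine Or.inl ⟨hR _ (h _ (Or.inl rfl)), hR _ (h _ (Or.inr (Or.inl rfl))),
        hR _ (h _ (Or.inr (Or.inr (Or.inl rfl)))), hR _ (h _ (Or.inr (Or.inr (Or.inr rfl))))⟩
    · rcases hp with rfl | rfl | rfl | rfl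
      · exact Or.inr (Or.inl (hCC _ _ _ _ h))
      · exact Or.inr (Or.inr (Or.inl (hCC _ _ _ _ h)))
      · exact Or.inr (Or.inr (Or.inr (Or.inl (hCC _ _ _ _ h))))
      · exact Or.inr (Or.inr (Or.inr (Or.inr (hCC (x + y + z) _ _ _ h))))
  have hher : Hered A := hered_of_small hEF hL hsm
  have hElem : Elem (QD e A) := hout _ _ _ (hcore _ _ _ hEF hher)
  refine Elem.iso _ _ hElem ⟨MulEquiv.multiplicativeAdditive S.G, rfl, ?_⟩
  intro a b c d
  rw [QD_eq]
  constructor
  · intro h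
    show S.q a.toAdd.toMul b.toAdd.toMul = S.q c.toAdd.toMul d.toAdd.toMul
    rw [← hiff]
    by_contra hne
    obtain ⟨l, -, hl⟩ := exists_char (⊥ : AddSubgroup B) (fun x => by
      rw [AddSubgroup.mem_bot]; exact hB x)
      (β a.toAdd.toMul b.toAdd.toMul - β c.toAdd.toMul d.toAdd.toMul) (by
        rw [AddSubgroup.mem_bot, sub_eq_zero]; exact hne)
    apply hl
    rw [map_sub, sub_eq_zero]
    exact h (frm l) ⟨l, rfl⟩
  · rintro h ω ⟨l, rfl⟩
    rw [hfrm, hfrm]
    congr 1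
    exact (hiff _ _ _ _).2 h

end Pool.Agent.TH188.ETV
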