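import Pool.Agent.TH188.ET.Struct

set_option autoImplicit false

namespace Pool.Agent.TH188.ET

open scoped Quaternion TensorProduct
open Pool.Agent.H315R3.ETC

section K
variable {F : Type*} [Field F]

theorem sy_mul_left (a b c : Fˣ) : sy (a * b) c = sy a c + sy b c := by
  unfold sy
  rw [ofMul_mul, TensorProduct.add_tmul, QuotientAddGroup.mk_add]

theorem sy_mul_right (a b c : Fˣ) : sy a (b * c) = sy a b + sy a c := by
  unfold sy
  rw [ofMul_mul, TensorProduct.tmul_add, QuotientAddGroup.mk_add]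

theorem K2_add_self (t : K2 F) : t + t = 0 := by
  obtain ⟨s, rfl⟩ := QuotientAddGroup.mk_surjective t
  rw [← QuotientAddGroup.mk_add, QuotientAddGroup.eq_zero_iff]
  exact AddSubgroup.subset_closure (Or.inr ⟨s, rfl⟩)

theorem sy_one_left (a : Fˣ) : sy 1 a = 0 := by
  unfold sy
  rw [ofMul_one, TensorProduct.zero_tmul, QuotientAddGroup.mk_zero]

theorem sy_one_right (a : Fˣ) : sy a 1 = 0 := by
  unfold sy
  rw [ofMul_one, TensorProduct.tmul_zero, QuotientAddGroup.mk_zero]

theorem sy_inv_left (a b : Fˣ) : sy a⁻¹ b = sy a b := by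
  have h : sy a⁻¹ b + sy a b = 0 := by
    rw [← sy_mul_left, inv_mul_cancel, sy_one_left]
  have h' := K2_add_self (sy a b)
  rw [← h'] at h
  exact add_right_cancel h

theorem sy_sq_right (a b c : Fˣ) : sy a (b * c ^ 2) = sy a b := by
  rw [sy_mul_right, pow_two, sy_mul_right, K2_add_self, add_zero]

theorem sy_sq_left (a b c : Fˣ) : sy (a * c ^ 2) b = sy a b := by
  rw [sy_mul_left, pow_two, sy_mul_left, K2_add_self, add_zero]

theorem sy_steinberg (a b : Fˣ) (h : (a : F) + (b : F) = 1) : sy a b = 0 := by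
  unfold sy
  rw [QuotientAddGroup.eq_zero_iff]
  exact AddSubgroup.subset_closure (Or.inl ⟨a, b, h, rfl⟩)

theorem sy_neg_self (a : Fˣ) : sy a (-a) = 0 := by
  by_cases h1 : (a : F) = 1
  · have : a = 1 := by ext; exact h1
    rw [this, sy_one_left]
  · have h2 : (1 : F) - a ≠ 0 := sub_ne_zero.mpr (Ne.symm h1)
    have ha : (a : F) ≠ 0 := a.ne_zero
    have h3 : (1 : F) - (a : F)⁻¹ ≠ 0 := by
      intro h
      apply h1
      have : (a : F)⁻¹ = 1 := by linear_combination -h
      exact inv_eq_one.mp this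
    have e : Units.mk0 _ h2 = -a * Units.mk0 _ h3 := by
      ext
      simp only [Units.val_mk0, Units.val_mul, Units.val_neg]
      field_simp
      ring
    have s1 : sy a (Units.mk0 _ h2) = 0 := sy_steinberg _ _ (by simp)
    have s2 : sy a⁻¹ (Units.mk0 _ h3) = 0 := sy_steinberg _ _ (by simp)
    rw [sy_inv_left] at s2
    rw [e, sy_mul_right, s2, add_zero] at s1
    exact s1

theorem sy_of_norm (a c : Fˣ) (h : NormFrom a c) : sy a c = 0 := by
  obtain ⟨x, y, h⟩ := h
  by_cases hy : y = 0
  · subst hy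
    have hx : x ≠ 0 := by
      rintro rfl
      apply c.ne_zero
      rw [h]; ring
    have e : c = 1 * (Units.mk0 x hx) ^ 2 := by
      ext
      simp only [one_mul, Units.val_pow_eq_pow_val, Units.val_mk0]
      rw [h]; ring
    rw [e, sy_sq_right, sy_one_right]
  · by_cases hx : x = 0
    · subst hx
      have e : c = -a * (Units.mk0 y hy) ^ 2 := by
        ext
        simp only [Units.val_mul, Units.val_neg, Units.val_pow_eq_pow_val, Units.val_mk0]
        rw [h]; ring
      rw [e, sy_sq_right, sy_neg_self]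
    · set X := Units.mk0 x hx with hX
      set Y := Units.mk0 y hy with hY
      have h1 : sy (a * (Y * X⁻¹) ^ 2) (c * (X⁻¹) ^ 2) = 0 := by
        apply sy_steinberg
        simp only [Units.val_mul, Units.val_pow_eq_pow_val, Units.val_inv_eq_inv_val]
        rw [h, hX, hY, Units.val_mk0, Units.val_mk0]
        field_simp
        ring
      rwa [sy_sq_left, sy_sq_right] at h1

theorem sy_prod_left {ι : Type*} (s : Finset ι) (a : ι → Fˣ) (c : Fˣ) :
    sy (∏ i ∈ s, a i) c = ∑ i ∈ s, sy (a i) c := by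
  classical
  induction s using Finset.induction_on with
  | empty => simp [sy_one_left]
  | insert i s hi ih => rw [Finset.prod_insert hi, Finset.sum_insert hi, sy_mul_left, ih]

theorem sy_prod_right {ι : Type*} (s : Finset ι) (a : Fˣ) (c : ι → Fˣ) :
    sy a (∏ i ∈ s, c i) = ∑ i ∈ s, sy a (c i) := by
  classical
  induction s using Finset.induction_on with
  | empty => simp [sy_one_right]
  | insert i s hi ih => rw [Finset.prod_insert hi, Finset.sum_insert hi, sy_mul_right, ih]

/-- additive maps out of `K_2(F)/2` from biadditive maps killing Steinberg symbols -/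
theorem exists_hom (B : Fˣ → Fˣ → ZMod 2) (hl : ∀ a b c, B (a * b) c = B a c + B b c)
    (hr : ∀ a b c, B a (b * c) = B a b + B a c)
    (h0 : ∀ a c, NormFrom a c → B a c = 0) :
    ∃ f : K2 F →+ ZMod 2, ∀ a b, f (sy a b) = B a b := by
  let B' : Additive Fˣ →+ Additive Fˣ →+ ZMod 2 :=
    AddMonoidHom.mk' (fun a => AddMonoidHom.mk' (fun b => B a.toMul b.toMul)
      (fun b c => hr _ _ _)) (fun a b => by
        ext c
        exact hl _ _ _)
  let g : Additive Fˣ ⊗[ℤ] Additive Fˣ →+ ZMod 2 :=
    TensorProduct.liftAddHom B' (fun r m n => by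
      rw [map_zsmul, AddMonoidHom.smul_apply, map_zsmul])
  have hg : ∀ a b : Fˣ, g (Additive.ofMul a ⊗ₜ[ℤ] Additive.ofMul b) = B a b := by
    intro a b
    rfl
  have hker : steinberg F ≤ g.ker := by
    unfold steinberg
    rw [AddSubgroup.closure_le]
    rintro t (⟨a, b, hab, rfl⟩ | ⟨s, rfl⟩)
    · rw [SetLike.mem_coe, AddMonoidHom.mem_ker, hg]
      apply h0
      refine ⟨1, 1, ?_⟩
      linear_combination hab
    · rw [SetLike.mem_coe, AddMonoidHom.mem_ker, map_add]
      exact CharTwo.add_self_eq_zero _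
  refine ⟨QuotientAddGroup.lift _ g hker, ?_⟩
  intro a b
  exact hg a b

end K

section L

/-- separation by characters of order two -/
theorem exists_char {A : Type*} [AddCommGroup A] (M : AddSubgroup A) (hM : ∀ x, x + x ∈ M)
    (b : A) (hb : b ∉ M) : ∃ f : A →+ ZMod 2, (∀ m ∈ M, f m = 0) ∧ f b ≠ 0 := by
  let _ : Module (ZMod 2) (A ⧸ M) := AddCommGroup.zmodModule (n := 2) (by
    intro x
    obtain ⟨y, rfl⟩ := QuotientAddGroup.mk_surjective x
    rw [two_nsmul, ← QuotientAddGroup.mk_add, QuotientAddGroup.eq_zero_iff]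
    exact hM y)
  have hb' : (QuotientAddGroup.mk b : A ⧸ M) ≠ 0 := by
    rw [Ne, QuotientAddGroup.eq_zero_iff]
    exact hb
  have := (Module.forall_dual_apply_eq_zero_iff (ZMod 2) (QuotientAddGroup.mk b : A ⧸ M)).not.mpr hb'
  push Not at this
  obtain ⟨f, hf⟩ := this
  refine ⟨f.toAddMonoidHom.comp (QuotientAddGroup.mk' M), ?_, hf⟩
  intro m hm
  have : (QuotientAddGroup.mk' M m) = 0 := (QuotientAddGroup.eq_zero_iff m).mpr hm
  show f (QuotientAddGroup.mk' M m) = 0
  rw [this, map_zero]

/-- factorization through an elementary abelian group -/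
theorem exists_factor {X Y : Type*} [AddCommGroup X] [AddCommGroup Y] (hY : ∀ y : Y, y + y = 0)
    (f : X →+ Y) (g : X →+ ZMod 2) (h : ∀ x, f x = 0 → g x = 0) :
    ∃ k : Y →+ ZMod 2, ∀ x, k (f x) = g x := by
  obtain ⟨p, hp, hp1⟩ := exists_char (f.prod g).range (fun z => by
    have : z + z = 0 := by
      ext
      · exact hY _
      · exact CharTwo.add_self_eq_zero _
    rw [this]
    exact zero_mem _) ((0, 1) : Y × ZMod 2) (by
      rintro ⟨x, hx⟩
      have h1 : f x = 0 := congrArg Prod.fst hx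
      have h2 : g x = 1 := congrArg Prod.snd hx
      rw [h x h1] at h2
      exact zero_ne_one h2)
  have hp1' : p (0, 1) = 1 := by
    have : ∀ z : ZMod 2, z ≠ 0 → z = 1 := by decide
    exact this _ hp1
  refine ⟨p.comp (AddMonoidHom.inl Y (ZMod 2)), ?_⟩
  intro x
  have h1 := hp ((f.prod g) x) ⟨x, rfl⟩
  have h2 : (f.prod g) x = (f x, 0) + (g x).val • (0, 1) := by
    ext
    · simp
    · simp
  rw [h2, map_add, map_nsmul, hp1'] at h1
  have h3 : (g x).val • (1 : ZMod 2) = g x := by simp
  rw [h3] at h1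
  have h4 : p (f x, 0) = - g x := eq_neg_of_add_eq_zero_left h1
  rw [CharTwo.neg_eq] at h4
  exact h4

end L

end Pool.Agent.TH188.ET
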