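import Pool.Agent.W622.ETG.Final

set_option autoImplicit false

/-!
Linked families of forms which are small on three-generated subgroups are hereditarily linked.
-/

namespace Pool.Agent.TH188.ETP

open Pool.Agent.W622.ETG Module

section
variable {V : Type} [AddCommGroup V] [Module (ZMod 2) V] {e : V}

/-- the functional `f` is a value at `p` -/
def In (A : Fam V) (p : V) (f : Dl V) : Prop := ∃ ω ∈ A, ω p = f

/-- the space of values at `p` has dimension `≤ 2` -/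
def R2 (A : Fam V) (p : V) : Prop :=
  ∀ ω₁ ∈ A, ∀ ω₂ ∈ A, ∀ ω₃ ∈ A, ω₁ p = 0 ∨ ω₂ p = 0 ∨ ω₃ p = 0 ∨ ω₁ p = ω₂ p ∨ ω₁ p = ω₃ p ∨
    ω₂ p = ω₃ p ∨ ω₁ p = ω₂ p + ω₃ p

/-- the members killing `p` have at most two restrictions to `⟨x,y,z⟩` -/
def C2 (A : Fam V) (p x y z : V) : Prop :=
  ∀ ω₁ ∈ A, ∀ ω₂ ∈ A, ω₁ p = 0 → ω₂ p = 0 → (ω₁ x = 0 ∧ ω₁ y = 0 ∧ ω₁ z = 0) ∨
    (ω₂ x = 0 ∧ ω₂ y = 0 ∧ ω₂ z = 0) ∨ (ω₁ x = ω₂ x ∧ ω₁ y = ω₂ y ∧ ω₁ z = ω₂ z)

/-- the smallness condition at the affine plane `x, y, z, x + y + z` -/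
def SmallAt (A : Fam V) (x y z : V) : Prop :=
  (R2 A x ∧ R2 A y ∧ R2 A z ∧ R2 A (x + y + z)) ∨
    C2 A x x y z ∨ C2 A y x y z ∨ C2 A z x y z ∨ C2 A (x + y + z) x y z

/-- linkage on affine planes -/
def PlaneAt (A : Fam V) (x y z : V) : Prop :=
  ∀ f : Dl V, In A x f → In A y f → In A z f → In A (x + y + z) f →
    ∃ ω ∈ A, ω x = f ∧ ω y = f ∧ ω z = f

theorem In.add {A : Fam V} {p : V} {f g : Dl V} (hf : In A p f) (hg : In A p g) :
    In A p (f + g) := by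
  obtain ⟨ω, hω, rfl⟩ := hf
  obtain ⟨η, hη, rfl⟩ := hg
  exact ⟨ω + η, A.add_mem hω hη, rfl⟩

theorem R2.mem {A : Fam V} {p : V} (h : R2 A p) {f g k : Dl V} (hf : In A p f) (hg : In A p g)
    (hk : In A p k) (hf0 : f ≠ 0) (hg0 : g ≠ 0) (hfg : g ≠ f) :
    k = 0 ∨ k = f ∨ k = g ∨ k = f + g := by
  obtain ⟨ω, hω, rfl⟩ := hf
  obtain ⟨η, hη, rfl⟩ := hg
  obtain ⟨ζ, hζ, rfl⟩ := hk
  rcases h ζ hζ ω hω η hη with h | h | h | h | h | h | h
  · exact Or.inl h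
  · exact absurd h hf0
  · exact absurd h hg0
  · exact Or.inr (Or.inl h)
  · exact Or.inr (Or.inr (Or.inl h))
  · exact absurd h.symm hfg
  · exact Or.inr (Or.inr (Or.inr h))

theorem key1 (x y z F1 F2 G1 G2 : ZMod 2) (h : x + y + z = 0) (h1 : F1 + F2 = 0)
    (h2 : G1 + G2 = 0)
    (h3 : (x = 0 ∧ y = 0) ∨ (x = F1 ∧ y = F2) ∨ (x = G1 ∧ y = G2) ∨ (x = F1 + G1 ∧ y = F2 + G2)) :
    z = 0 := by
  rcases h3 with ⟨rfl, rfl⟩ | ⟨rfl, rfl⟩ | ⟨rfl, rfl⟩ | ⟨rfl, rfl⟩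
  · linear_combination h
  · linear_combination h - h1
  · linear_combination h - h2
  · linear_combination h - h1 - h2

theorem key2 : ∀ (x y F1 F2 F3 G1 G2 : ZMod 2), F1 + F2 + F3 = 1 → F1 + F2 = 0 →
    x + y + F3 = 0 →
    ((x = 0 ∧ y = 0) ∨ (x = F1 ∧ y = F2) ∨ (x = G1 ∧ y = G2) ∨ (x = F1 + G1 ∧ y = F2 + G2)) →
    G1 + G2 = 1 := by decide

theorem key3 : ∀ (F1 F2 F3 G1 G2 G3 : ZMod 2), F1 + F2 + F3 = 1 →
    ((F3 = 0 ∧ G3 = 0) ↔ (F1 + F2 = 0 ∧ G1 + G2 = 0)) →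
    ((F2 = 0 ∧ G2 = 0) ↔ (F1 + F3 = 0 ∧ G1 + G3 = 0)) →
    ((F1 = 0 ∧ G1 = 0) ↔ (F2 + F3 = 0 ∧ G2 + G3 = 0)) → False := by
  decide

theorem key4 : ∀ (G1 G2 G3 : ZMod 2), G1 + G2 = 1 → G1 + G3 = 1 → G2 + G3 = 1 → False := by
  decide

/-- the core: three of the four value spaces are `⟨f,g⟩` -/
theorem core [Finite V] {A : Fam V} (hL : Linked A) {a b c d : V} (hsum : a + b + c = d)
    {f g : Dl V} (hf0 : f ≠ 0) (hg0 : g ≠ 0) (hfg : g ≠ f)
    (ha : R2 A a) (hb : R2 A b) (hc : R2 A c)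
    (hfa : In A a f) (hfb : In A b f) (hfc : In A c f) (hfd : In A d f)
    (hga : In A a g) (hgb : In A b g) (hgc : In A c g) :
    ∃ ω ∈ A, ω a = f ∧ ω b = f ∧ ω c = f := by
  by_contra hno
  have hd : ∀ ω : Frm V, ω d = ω a + ω b + ω c := by
    intro ω
    rw [← hsum, map_add, map_add]
  -- the image of `A` in triples
  let ev : Frm V →ₗ[ZMod 2] Dl V × Dl V × Dl V :=
    (LinearMap.applyₗ a).prod ((LinearMap.applyₗ b).prod (LinearMap.applyₗ c))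
  have hev : ∀ ω, ev ω = (ω a, ω b, ω c) := fun _ => rfl
  have hnot : ((f, f, f) : Dl V × Dl V × Dl V) ∉ Submodule.map ev A := by
    rintro ⟨ω, hω, h⟩
    rw [hev] at h
    simp only [Prod.mk.injEq] at h
    exact hno ⟨ω, hω, h⟩
  obtain ⟨Φ, hΦ1, hΦ2⟩ := Submodule.exists_le_ker_of_notMem hnot
  let φa : Dl V → ZMod 2 := fun h => Φ (h, 0, 0)
  let φb : Dl V → ZMod 2 := fun h => Φ (0, h, 0)
  let φc : Dl V → ZMod 2 := fun h => Φ (0, 0, h)
  have hφ : ∀ u v w, Φ (u, v, w) = φa u + φb v + φc w := by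
    intro u v w
    show _ = Φ _ + Φ _ + Φ _
    rw [← map_add, ← map_add]
    simp
  have hadd : ∀ u v, φa (u + v) = φa u + φa v ∧ φb (u + v) = φb u + φb v ∧
      φc (u + v) = φc u + φc v := by
    intro u v
    refine ⟨?_, ?_, ?_⟩
    · show Φ _ = Φ _ + Φ _
      rw [← map_add]; simp
    · show Φ _ = Φ _ + Φ _
      rw [← map_add]; simp
    · show Φ _ = Φ _ + Φ _
      rw [← map_add]; simp
  have hzero : φa 0 = 0 ∧ φb 0 = 0 ∧ φc 0 = 0 := by
    refine ⟨?_, ?_, ?_⟩ <;> exact map_zero Φ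
  have hA : ∀ ω ∈ A, φa (ω a) + φb (ω b) + φc (ω c) = 0 := by
    intro ω hω
    rw [← hφ]
    exact hΦ2 ⟨ω, hω, rfl⟩
  have hf : φa f + φb f + φc f = 1 := by
    rw [← hφ]
    exact z_ne hΦ1
  -- values
  have vals : ∀ (β : Dl V), (β = 0 ∨ β = f ∨ β = g ∨ β = f + g) → ∀ (F1 F2 F3 G1 G2 G3 : ZMod 2),
      F1 = φa f → F2 = φb f → F3 = φc f → G1 = φa g → G2 = φb g → G3 = φc g →
      (φa β = 0 ∧ φb β = 0 ∧ φc β = 0) ∨ (φa β = F1 ∧ φb β = F2 ∧ φc β = F3) ∨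
      (φa β = G1 ∧ φb β = G2 ∧ φc β = G3) ∨
      (φa β = F1 + G1 ∧ φb β = F2 + G2 ∧ φc β = F3 + G3) := by
    rintro β h F1 F2 F3 G1 G2 G3 rfl rfl rfl rfl rfl rfl
    rcases h with rfl | rfl | rfl | rfl
    · exact Or.inl hzero
    · exact Or.inr (Or.inl ⟨rfl, rfl, rfl⟩)
    · exact Or.inr (Or.inr (Or.inl ⟨rfl, rfl, rfl⟩))
    · exact Or.inr (Or.inr (Or.inr (hadd f g)))
  have ra : ∀ k, In A a k → k = 0 ∨ k = f ∨ k = g ∨ k = f + g :=
    fun k hk => ha.mem hfa hga hk hf0 hg0 hfg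
  have rb : ∀ k, In A b k → k = 0 ∨ k = f ∨ k = g ∨ k = f + g :=
    fun k hk => hb.mem hfb hgb hk hf0 hg0 hfg
  have rc : ∀ k, In A c k → k = 0 ∨ k = f ∨ k = g ∨ k = f + g :=
    fun k hk => hc.mem hfc hgc hk hf0 hg0 hfg
  -- linked pairs
  have pair : ∀ (p q : V) (h : Dl V), In A p h → In A q h → ∃ ω ∈ A, ω p = h ∧ ω q = h := by
    rintro p q h ⟨ω, hω, h1⟩ ⟨η, hη, h2⟩
    obtain ⟨ζ, hζ, h3, h4⟩ := hL ω hω η hη p q (h1.trans h2.symm)
    exact ⟨ζ, hζ, h3.trans h1, h4.trans h1⟩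
  -- relations from the pairs among `a, b, c`
  have relab : ∀ h, In A a h → In A b h → ∃ β, In A c β ∧ In A d β ∧ φa h + φb h + φc β = 0 := by
    intro h h1 h2
    obtain ⟨ω, hω, e1, e2⟩ := pair a b h h1 h2
    refine ⟨ω c, ⟨ω, hω, rfl⟩, ⟨ω, hω, ?_⟩, ?_⟩
    · rw [hd, e1, e2, vadd, zero_add]
    · have := hA ω hω
      rwa [e1, e2] at this
  have relac : ∀ h, In A a h → In A c h → ∃ β, In A b β ∧ In A d β ∧ φa h + φb β + φc h = 0 := by
    intro h h1 h2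
    obtain ⟨ω, hω, e1, e2⟩ := pair a c h h1 h2
    refine ⟨ω b, ⟨ω, hω, rfl⟩, ⟨ω, hω, ?_⟩, ?_⟩
    · rw [hd, e1, e2, add_comm h, add_assoc, vadd, add_zero]
    · have := hA ω hω
      rwa [e1, e2] at this
  have relbc : ∀ h, In A b h → In A c h → ∃ β, In A a β ∧ In A d β ∧ φa β + φb h + φc h = 0 := by
    intro h h1 h2
    obtain ⟨ω, hω, e1, e2⟩ := pair b c h h1 h2
    refine ⟨ω a, ⟨ω, hω, rfl⟩, ⟨ω, hω, ?_⟩, ?_⟩
    · rw [hd, e1, e2, add_assoc, vadd, add_zero]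
    · have := hA ω hω
      rwa [e1, e2] at this
  -- relations from the pairs with `d`
  have relcd : ∀ h, In A c h → In A d h → ∃ β, In A a β ∧ φa β + φb β + φc h = 0 := by
    intro h h1 h2
    obtain ⟨ω, hω, e1, e2⟩ := pair c d h h1 h2
    have e3 : ω a = ω b := by
      have := hd ω
      rw [e1, e2] at this
      have h4 : ω a + ω b = 0 := by
        have h5 : h + h = ω a + ω b + h + h := by rw [← this]
        rw [vadd, add_assoc, vadd, add_zero] at h5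
        exact h5.symm
      exact add_eq_zero'.1 h4
    refine ⟨ω a, ⟨ω, hω, rfl⟩, ?_⟩
    have := hA ω hω
    rwa [e1, ← e3] at this
  have relbd : ∀ h, In A b h → In A d h → ∃ β, In A a β ∧ φa β + φb h + φc β = 0 := by
    intro h h1 h2
    obtain ⟨ω, hω, e1, e2⟩ := pair b d h h1 h2
    have e3 : ω a = ω c := by
      have := hd ω
      rw [e1, e2] at this
      have h4 : ω a + ω c = 0 := by
        have h5 : h + h = ω a + h + ω c + h := by rw [← this]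
        rw [vadd] at h5
        have h6 : ω a + h + ω c + h = ω a + ω c + (h + h) := by abel
        rw [h6, vadd, add_zero] at h5
        exact h5.symm
      exact add_eq_zero'.1 h4
    refine ⟨ω a, ⟨ω, hω, rfl⟩, ?_⟩
    have := hA ω hω
    rwa [e1, ← e3] at this
  have relad : ∀ h, In A a h → In A d h → ∃ β, In A b β ∧ φa h + φb β + φc β = 0 := by
    intro h h1 h2
    obtain ⟨ω, hω, e1, e2⟩ := pair a d h h1 h2
    have e3 : ω b = ω c := by
      have := hd ω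
      rw [e1, e2] at this
      have h4 : ω b + ω c = 0 := by
        have h5 : h + h = h + ω b + ω c + h := by rw [← this]
        rw [vadd] at h5
        have h6 : h + ω b + ω c + h = ω b + ω c + (h + h) := by abel
        rw [h6, vadd, add_zero] at h5
        exact h5.symm
      exact add_eq_zero'.1 h4
    refine ⟨ω b, ⟨ω, hω, rfl⟩, ?_⟩
    have := hA ω hω
    rwa [e1, ← e3] at this
  generalize hF1 : φa f = F1 at hf
  generalize hF2 : φb f = F2 at hf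
  generalize hF3 : φc f = F3 at hf
  have vals' := fun β hβ => vals β hβ F1 F2 F3 (φa g) (φb g) (φc g) hF1.symm hF2.symm hF3.symm
    rfl rfl rfl
  generalize hG1 : φa g = G1 at vals'
  generalize hG2 : φb g = G2 at vals'
  generalize hG3 : φc g = G3 at vals'
  by_cases hgd : In A d g
  · -- all value spaces are `⟨f,g⟩`
    have c1 : (F3 = 0 ∧ G3 = 0) → F1 + F2 = 0 := by
      rintro ⟨h1, h2⟩
      obtain ⟨β, hβ, -, h⟩ := relab f hfa hfb
      rw [hF1, hF2] at h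
      rcases vals' β (rc β hβ) with v | v | v | v <;> rw [v.2.2] at h <;> simp_all
    have c2 : (F3 = 0 ∧ G3 = 0) → G1 + G2 = 0 := by
      rintro ⟨h1, h2⟩
      obtain ⟨β, hβ, -, h⟩ := relab g hga hgb
      rw [hG1, hG2] at h
      rcases vals' β (rc β hβ) with v | v | v | v <;> rw [v.2.2] at h <;> simp_all
    have c3 : (F2 = 0 ∧ G2 = 0) → F1 + F3 = 0 := by
      rintro ⟨h1, h2⟩
      obtain ⟨β, hβ, -, h⟩ := relac f hfa hfc
      rw [hF1, hF3] at h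
      rcases vals' β (rb β hβ) with v | v | v | v <;> rw [v.2.1] at h <;> simp_all
    have c4 : (F2 = 0 ∧ G2 = 0) → G1 + G3 = 0 := by
      rintro ⟨h1, h2⟩
      obtain ⟨β, hβ, -, h⟩ := relac g hga hgc
      rw [hG1, hG3] at h
      rcases vals' β (rb β hβ) with v | v | v | v <;> rw [v.2.1] at h <;> simp_all
    have c5 : (F1 = 0 ∧ G1 = 0) → F2 + F3 = 0 := by
      rintro ⟨h1, h2⟩
      obtain ⟨β, hβ, -, h⟩ := relbc f hfb hfc
      rw [hF2, hF3] at h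
      rcases vals' β (ra β hβ) with v | v | v | v <;> rw [v.1] at h <;> simp_all
    have c6 : (F1 = 0 ∧ G1 = 0) → G2 + G3 = 0 := by
      rintro ⟨h1, h2⟩
      obtain ⟨β, hβ, -, h⟩ := relbc g hgb hgc
      rw [hG2, hG3] at h
      rcases vals' β (ra β hβ) with v | v | v | v <;> rw [v.1] at h <;> simp_all
    have c7 : (F1 + F2 = 0 ∧ G1 + G2 = 0) → F3 = 0 := by
      rintro ⟨h1, h2⟩
      obtain ⟨β, hβ, h⟩ := relcd f hfc hfd
      rw [hF3] at h
      refine key1 _ _ _ F1 F2 G1 G2 h h1 h2 ?_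
      rcases vals' β (ra β hβ) with v | v | v | v
      · exact Or.inl ⟨v.1, v.2.1⟩
      · exact Or.inr (Or.inl ⟨v.1, v.2.1⟩)
      · exact Or.inr (Or.inr (Or.inl ⟨v.1, v.2.1⟩))
      · exact Or.inr (Or.inr (Or.inr ⟨v.1, v.2.1⟩))
    have c8 : (F1 + F2 = 0 ∧ G1 + G2 = 0) → G3 = 0 := by
      rintro ⟨h1, h2⟩
      obtain ⟨β, hβ, h⟩ := relcd g hgc hgd
      rw [hG3] at h
      refine key1 _ _ _ F1 F2 G1 G2 h h1 h2 ?_
      rcases vals' β (ra β hβ) with v | v | v | v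
      · exact Or.inl ⟨v.1, v.2.1⟩
      · exact Or.inr (Or.inl ⟨v.1, v.2.1⟩)
      · exact Or.inr (Or.inr (Or.inl ⟨v.1, v.2.1⟩))
      · exact Or.inr (Or.inr (Or.inr ⟨v.1, v.2.1⟩))
    have c9 : (F1 + F3 = 0 ∧ G1 + G3 = 0) → F2 = 0 := by
      rintro ⟨h1, h2⟩
      obtain ⟨β, hβ, h⟩ := relbd f hfb hfd
      rw [hF2] at h
      have h' : φa β + φc β + F2 = 0 := by rw [← h]; ring
      refine key1 _ _ _ F1 F3 G1 G3 h' h1 h2 ?_
      rcases vals' β (ra β hβ) with v | v | v | v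
      · exact Or.inl ⟨v.1, v.2.2⟩
      · exact Or.inr (Or.inl ⟨v.1, v.2.2⟩)
      · exact Or.inr (Or.inr (Or.inl ⟨v.1, v.2.2⟩))
      · exact Or.inr (Or.inr (Or.inr ⟨v.1, v.2.2⟩))
    have c10 : (F1 + F3 = 0 ∧ G1 + G3 = 0) → G2 = 0 := by
      rintro ⟨h1, h2⟩
      obtain ⟨β, hβ, h⟩ := relbd g hgb hgd
      rw [hG2] at h
      have h' : φa β + φc β + G2 = 0 := by rw [← h]; ring
      refine key1 _ _ _ F1 F3 G1 G3 h' h1 h2 ?_
      rcases vals' β (ra β hβ) with v | v | v | v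
      · exact Or.inl ⟨v.1, v.2.2⟩
      · exact Or.inr (Or.inl ⟨v.1, v.2.2⟩)
      · exact Or.inr (Or.inr (Or.inl ⟨v.1, v.2.2⟩))
      · exact Or.inr (Or.inr (Or.inr ⟨v.1, v.2.2⟩))
    have c11 : (F2 + F3 = 0 ∧ G2 + G3 = 0) → F1 = 0 := by
      rintro ⟨h1, h2⟩
      obtain ⟨β, hβ, h⟩ := relad f hfa hfd
      rw [hF1] at h
      have h' : φb β + φc β + F1 = 0 := by rw [← h]; ring
      refine key1 _ _ _ F2 F3 G2 G3 h' h1 h2 ?_
      rcases vals' β (rb β hβ) with v | v | v | v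
      · exact Or.inl ⟨v.2.1, v.2.2⟩
      · exact Or.inr (Or.inl ⟨v.2.1, v.2.2⟩)
      · exact Or.inr (Or.inr (Or.inl ⟨v.2.1, v.2.2⟩))
      · exact Or.inr (Or.inr (Or.inr ⟨v.2.1, v.2.2⟩))
    have c12 : (F2 + F3 = 0 ∧ G2 + G3 = 0) → G1 = 0 := by
      rintro ⟨h1, h2⟩
      obtain ⟨β, hβ, h⟩ := relad g hga hgd
      rw [hG1] at h
      have h' : φb β + φc β + G1 = 0 := by rw [← h]; ring
      refine key1 _ _ _ F2 F3 G2 G3 h' h1 h2 ?_
      rcases vals' β (rb β hβ) with v | v | v | v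
      · exact Or.inl ⟨v.2.1, v.2.2⟩
      · exact Or.inr (Or.inl ⟨v.2.1, v.2.2⟩)
      · exact Or.inr (Or.inr (Or.inl ⟨v.2.1, v.2.2⟩))
      · exact Or.inr (Or.inr (Or.inr ⟨v.2.1, v.2.2⟩))
    exact key3 F1 F2 F3 G1 G2 G3 hf ⟨fun h => ⟨c1 h, c2 h⟩, fun h => ⟨c7 h, c8 h⟩⟩
      ⟨fun h => ⟨c3 h, c4 h⟩, fun h => ⟨c9 h, c10 h⟩⟩
      ⟨fun h => ⟨c5 h, c6 h⟩, fun h => ⟨c11 h, c12 h⟩⟩
  · -- the value space at `d` is `⟨f⟩`
    have rd : ∀ k, In A d k → k = 0 ∨ k = f := by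
      intro k hk
      obtain ⟨ω, hω, h⟩ := hk
      have h1 := ra _ ⟨ω, hω, rfl⟩
      have h2 := rb _ ⟨ω, hω, rfl⟩
      have h3 := rc _ ⟨ω, hω, rfl⟩
      have h4 : k = 0 ∨ k = f ∨ k = g ∨ k = f + g := by
        rw [← h, hd]
        have cl : ∀ u v : Dl V, (u = 0 ∨ u = f ∨ u = g ∨ u = f + g) →
            (v = 0 ∨ v = f ∨ v = g ∨ v = f + g) →
            (u + v = 0 ∨ u + v = f ∨ u + v = g ∨ u + v = f + g) := by
          have hff : f + f = 0 := vadd f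
          have hgg : g + g = 0 := vadd g
          have a1 : f + (f + g) = g := by rw [← add_assoc, hff, zero_add]
          have a2 : g + (f + g) = f := by rw [add_comm f, ← add_assoc, hgg, zero_add]
          have a3 : (f + g) + (f + g) = 0 := vadd _
          have a4 : (f + g) + f = g := by rw [add_comm, a1]
          have a5 : (f + g) + g = f := by rw [add_comm, a2]
          have a6 : g + f = f + g := add_comm _ _
          intro u v hu hv
          rcases hu with hu | hu | hu | hu <;> rcases hv with hv | hv | hv | hv <;> rw [hu, hv] <;>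
            simp only [hff, hgg, a1, a2, a3, a4, a5, a6, add_zero, zero_add, true_or, or_true]
        exact cl _ _ (cl _ _ h1 h2) h3
      rcases h4 with h4 | h4 | h4 | h4
      · exact Or.inl h4
      · exact Or.inr h4
      · exact absurd (h4 ▸ ⟨ω, hω, h⟩) hgd
      · exfalso
        apply hgd
        have h5 : In A d (f + g) := h4 ▸ ⟨ω, hω, h⟩
        have h6 := hfd.add h5
        rwa [← add_assoc, vadd, zero_add] at h6
    have d1 : F1 + F2 = 0 := by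
      obtain ⟨β, -, hβ, h⟩ := relab f hfa hfb
      rw [hF1, hF2] at h
      rcases rd β hβ with rfl | rfl
      · rw [hzero.2.2, add_zero] at h
        exact h
      · rw [hF3, hf] at h
        exact absurd h one_ne_zero
    have d2 : F1 + F3 = 0 := by
      obtain ⟨β, -, hβ, h⟩ := relac f hfa hfc
      rw [hF1, hF3] at h
      rcases rd β hβ with rfl | rfl
      · rw [hzero.2.1, add_zero] at h
        exact h
      · rw [hF2, hf] at h
        exact absurd h one_ne_zero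
    have d3 : F2 + F3 = 0 := by
      obtain ⟨β, -, hβ, h⟩ := relbc f hfb hfc
      rw [hF2, hF3] at h
      rcases rd β hβ with rfl | rfl
      · rw [hzero.1, zero_add] at h
        exact h
      · rw [hF1, hf] at h
        exact absurd h one_ne_zero
    -- the values at `g` differ pairwise
    have g1 : G1 + G2 = 1 := by
      obtain ⟨β, hβ, h⟩ := relcd f hfc hfd
      rw [hF3] at h
      refine key2 _ _ F1 F2 F3 G1 G2 hf d1 h ?_
      rcases vals' β (ra β hβ) with v | v | v | v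
      · exact Or.inl ⟨v.1, v.2.1⟩
      · exact Or.inr (Or.inl ⟨v.1, v.2.1⟩)
      · exact Or.inr (Or.inr (Or.inl ⟨v.1, v.2.1⟩))
      · exact Or.inr (Or.inr (Or.inr ⟨v.1, v.2.1⟩))
    have g2 : G1 + G3 = 1 := by
      obtain ⟨β, hβ, h⟩ := relbd f hfb hfd
      rw [hF2] at h
      have h' : φa β + φc β + F2 = 0 := by rw [← h]; ring
      refine key2 _ _ F1 F3 F2 G1 G3 (by rw [← hf]; ring) d2 h' ?_
      rcases vals' β (ra β hβ) with v | v | v | v
      · exact Or.inl ⟨v.1, v.2.2⟩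
      · exact Or.inr (Or.inl ⟨v.1, v.2.2⟩)
      · exact Or.inr (Or.inr (Or.inl ⟨v.1, v.2.2⟩))
      · exact Or.inr (Or.inr (Or.inr ⟨v.1, v.2.2⟩))
    have g3 : G2 + G3 = 1 := by
      obtain ⟨β, hβ, h⟩ := relad f hfa hfd
      rw [hF1] at h
      have h' : φb β + φc β + F1 = 0 := by rw [← h]; ring
      refine key2 _ _ F2 F3 F1 G2 G3 (by rw [← hf]; ring) d3 h' ?_
      rcases vals' β (rb β hβ) with v | v | v | v
      · exact Or.inl ⟨v.2.1, v.2.2⟩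
      · exact Or.inr (Or.inl ⟨v.2.1, v.2.2⟩)
      · exact Or.inr (Or.inr (Or.inl ⟨v.2.1, v.2.2⟩))
      · exact Or.inr (Or.inr (Or.inr ⟨v.2.1, v.2.2⟩))
    exact key4 G1 G2 G3 g1 g2 g3

end

end Pool.Agent.TH188.ETP
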