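import Pool.Agent.TH188.ET.Plane

set_option autoImplicit false

namespace Pool.Agent.TH188.ETP

open Pool.Agent.W622.ETG Module

section
variable {V : Type} [AddCommGroup V] [Module (ZMod 2) V] {e : V}

/-- a common further value -/
def Ed (A : Fam V) (f : Dl V) (a b : V) : Prop := ∃ β, β ≠ 0 ∧ β ≠ f ∧ In A a β ∧ In A b β

theorem pairL {A : Fam V} (hL : Linked A) (p q : V) (h : Dl V) (hp : In A p h) (hq : In A q h) :
    ∃ ω ∈ A, ω p = h ∧ ω q = h := by
  obtain ⟨ω, hω, h1⟩ := hp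
  obtain ⟨η, hη, h2⟩ := hq
  obtain ⟨ζ, hζ, h3, h4⟩ := hL ω hω η hη p q (h1.trans h2.symm)
  exact ⟨ζ, hζ, h3.trans h1, h4.trans h1⟩

theorem four {a b c d : V} (hsum : a + b + c = d) (ω : Frm V) : ω d = ω a + ω b + ω c := by
  rw [← hsum, map_add, map_add]

theorem edge {A : Fam V} (hL : Linked A) {a b c d : V} (hsum : a + b + c = d) {f : Dl V}
    (hfa : In A a f) (hfb : In A b f) (hfc : In A c f) (hfd : In A d f)
    (hno : ∀ ω ∈ A, ω a = f → ω b = f → ω c = f → False) : Ed A f a b ∨ Ed A f c d := by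
  obtain ⟨p, hp, p1, p2⟩ := pairL hL a b f hfa hfb
  obtain ⟨p', hp', p3, p4⟩ := pairL hL c d f hfc hfd
  have e1 : p d = p c := by rw [four hsum, p1, p2, vadd, zero_add]
  have e2 : p' a = p' b := by
    have h := four hsum p'
    rw [p4, p3] at h
    have h5 : f + f = p' a + p' b + f + f := by rw [← h]
    rw [vadd, add_assoc, vadd, add_zero] at h5
    exact add_eq_zero'.1 h5.symm
  have n1 : p c ≠ f := fun h => hno p hp p1 p2 h
  have n2 : p' a ≠ f := fun h => hno p' hp' h (e2 ▸ h) p3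
  by_cases h0 : p c = 0
  · by_cases h1 : p' a = 0
    · exfalso
      refine hno (p + p') (A.add_mem hp hp') ?_ ?_ ?_
      · rw [LinearMap.add_apply, p1, h1, add_zero]
      · rw [LinearMap.add_apply, p2, ← e2, h1, add_zero]
      · rw [LinearMap.add_apply, h0, p3, zero_add]
    · exact Or.inl ⟨p' a, h1, n2, ⟨p', hp', rfl⟩, ⟨p', hp', e2.symm⟩⟩
  · exact Or.inr ⟨p c, h0, n1, ⟨p, hp, rfl⟩, ⟨p, hp, e1⟩⟩

theorem tri {A : Fam V} {a b c : V} {f : Dl V} (hf0 : f ≠ 0) (ha : R2 A a) (hfa : In A a f)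
    (hfc : In A c f) (h1 : Ed A f a b) (h2 : Ed A f a c) :
    ∃ g, g ≠ 0 ∧ g ≠ f ∧ In A a g ∧ In A b g ∧ In A c g := by
  obtain ⟨β, b0, bf, ba, bb⟩ := h1
  obtain ⟨γ, g0, gf, ga, gc⟩ := h2
  refine ⟨β, b0, bf, ba, bb, ?_⟩
  rcases ha.mem hfa ba ga hf0 b0 bf with h | h | h | h
  · exact absurd h g0
  · exact absurd h gf
  · rw [← h]; exact gc
  · have := hfc.add gc
    rw [h, ← add_assoc, vadd, zero_add] at this
    exact this

theorem Ed.symm {A : Fam V} {a b : V} {f : Dl V} (h : Ed A f a b) : Ed A f b a := by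
  obtain ⟨β, h1, h2, h3, h4⟩ := h
  exact ⟨β, h1, h2, h4, h3⟩

theorem plane_of_R2 [Finite V] {A : Fam V} (hL : Linked A) {x y z : V} (hx : R2 A x)
    (hy : R2 A y) (hz : R2 A z) (hw : R2 A (x + y + z)) : PlaneAt A x y z := by
  intro f fx fy fz fw
  by_cases hf0 : f = 0
  · exact ⟨0, A.zero_mem, by simp [hf0]⟩
  by_contra hno'
  have hno : ∀ ω ∈ A, ω x = f → ω y = f → ω z = f → False :=
    fun ω hω h1 h2 h3 => hno' ⟨ω, hω, h1, h2, h3⟩
  set w := x + y + z with hwdef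
  have s1 : x + y + z = w := rfl
  have s2 : x + z + y = w := by rw [← s1]; abel
  have s3 : x + y + w = z := by
    rw [← s1]
    have : x + y + (x + y + z) = (x + x) + (y + y) + z := by abel
    rw [this, vadd, vadd, zero_add, zero_add]
  have s4 : x + z + w = y := by
    rw [← s1]
    have : x + z + (x + y + z) = (x + x) + (z + z) + y := by abel
    rw [this, vadd, vadd, zero_add, zero_add]
  have s5 : y + z + w = x := by
    rw [← s1]
    have : y + z + (x + y + z) = (y + y) + (z + z) + x := by abel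
    rw [this, vadd, vadd, zero_add, zero_add]
  have hfff : f + f + f = f := by rw [vadd, zero_add]
  have no2 : ∀ ω ∈ A, ω x = f → ω y = f → ω w = f → False := by
    intro ω hω h1 h2 h3
    exact hno ω hω h1 h2 (by rw [four s3, h1, h2, h3, hfff])
  have no3 : ∀ ω ∈ A, ω x = f → ω z = f → ω w = f → False := by
    intro ω hω h1 h2 h3
    exact hno ω hω h1 (by rw [four s4, h1, h2, h3, hfff]) h2
  have no4 : ∀ ω ∈ A, ω y = f → ω z = f → ω w = f → False := by
    intro ω hω h1 h2 h3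
    exact hno ω hω (by rw [four s5, h1, h2, h3, hfff]) h1 h2
  have E1 : Ed A f x y ∨ Ed A f z w := edge hL s1 fx fy fz fw hno
  have E2 : Ed A f x z ∨ Ed A f y w :=
    edge hL s2 fx fz fy fw (fun ω hω h1 h2 h3 => hno ω hω h1 h3 h2)
  rcases E1 with E1 | E1 <;> rcases E2 with E2 | E2
  · obtain ⟨g, g0, gf, ga, gb, gc⟩ := tri hf0 hx fx fz E1 E2
    obtain ⟨ω, hω, h1, h2, h3⟩ := core hL s1 hf0 g0 gf hx hy hz fx fy fz fw ga gb gc
    exact hno ω hω h1 h2 h3
  · obtain ⟨g, g0, gf, ga, gb, gc⟩ := tri hf0 hy fy fw E1.symm E2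
    obtain ⟨ω, hω, h1, h2, h3⟩ := core hL s3 hf0 g0 gf hx hy hw fx fy fw fz gb ga gc
    exact no2 ω hω h1 h2 h3
  · obtain ⟨g, g0, gf, ga, gb, gc⟩ := tri hf0 hz fz fx E1 E2.symm
    obtain ⟨ω, hω, h1, h2, h3⟩ := core hL s4 hf0 g0 gf hx hz hw fx fz fw fy gc ga gb
    exact no3 ω hω h1 h2 h3
  · obtain ⟨g, g0, gf, ga, gb, gc⟩ := tri hf0 hw fw fy E1.symm E2.symm
    obtain ⟨ω, hω, h1, h2, h3⟩ := core hL s5 hf0 g0 gf hy hz hw fy fz fw fx gc gb ga
    exact no4 ω hω h1 h2 h3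

/-- pigeonhole: at most two members killing `p` (up to those killing the plane) -/
theorem plane_of_C2_aux {A : Fam V} (hL : Linked A) {a b c d : V} (hsum : a + b + c = d)
    {f : Dl V} (hfa : In A a f) (hfb : In A b f) (hfc : In A c f) (hfd : In A d f)
    (hC : ∀ ω₁ ∈ A, ∀ ω₂ ∈ A, ω₁ a = 0 → ω₂ a = 0 → (ω₁ b = 0 ∧ ω₁ c = 0) ∨
      (ω₂ b = 0 ∧ ω₂ c = 0) ∨ (ω₁ b = ω₂ b ∧ ω₁ c = ω₂ c)) :
    ∃ ω ∈ A, ω a = f ∧ ω b = f ∧ ω c = f := by
  obtain ⟨s1, hs1, p1, p2⟩ := pairL hL a b f hfa hfb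
  obtain ⟨s2, hs2, p3, p4⟩ := pairL hL a c f hfa hfc
  obtain ⟨s3, hs3, p5, p6⟩ := pairL hL a d f hfa hfd
  rcases hC (s1 + s2) (A.add_mem hs1 hs2) (s1 + s3) (A.add_mem hs1 hs3)
    (by rw [LinearMap.add_apply, p1, p3, vadd]) (by rw [LinearMap.add_apply, p1, p5, vadd])
    with h | h | h
  · -- `s1 = s2` on the plane
    have h1 : s1 c = f := by
      have := h.2
      rw [LinearMap.add_apply, p4] at this
      exact add_eq_zero'.1 this
    exact ⟨s1, hs1, p1, p2, h1⟩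
  · -- `s1 = s3` on the plane
    have h1 : s3 b = f := by
      have := h.1
      rw [LinearMap.add_apply, p2] at this
      exact (Pool.Agent.W622.ETC.add_eq_zero'.1 this).symm
    have h2 : s1 c = s3 c := by
      have := h.2
      rw [LinearMap.add_apply] at this
      exact add_eq_zero'.1 this
    have h3 : s3 c = f := by
      have h4 := four hsum s3
      rw [p6, p5, h1, vadd, zero_add] at h4
      exact h4.symm
    exact ⟨s1, hs1, p1, p2, h2.trans h3⟩
  · -- `s2 = s3` on the plane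
    have h1 : s2 b = s3 b := by
      have := h.1
      rw [LinearMap.add_apply, LinearMap.add_apply] at this
      exact add_left_cancel this
    have h2 : s2 c = s3 c := by
      have := h.2
      rw [LinearMap.add_apply, LinearMap.add_apply] at this
      exact add_left_cancel this
    have h3 : s3 b = f := by
      have h4 := four hsum s3
      rw [p6, p5, ← h2, p4] at h4
      have h5 : f + f = f + s3 b + f + f := by rw [← h4]
      rw [vadd, add_assoc, vadd, add_zero] at h5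
      exact (Pool.Agent.W622.ETC.add_eq_zero'.1 h5.symm).symm
    exact ⟨s2, hs2, p3, h1.trans h3, p4⟩

theorem plane_of_small [Finite V] {A : Fam V} (hL : Linked A) {x y z : V}
    (h : SmallAt A x y z) : PlaneAt A x y z := by
  have hfff : ∀ f : Dl V, f + f + f = f := fun f => by rw [vadd, zero_add]
  rcases h with ⟨h1, h2, h3, h4⟩ | h | h | h | h
  · exact plane_of_R2 hL h1 h2 h3 h4
  · intro f fx fy fz fw
    refine plane_of_C2_aux hL (d := x + y + z) rfl fx fy fz fw ?_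
    intro ω₁ h1 ω₂ h2 e1 e2
    rcases h ω₁ h1 ω₂ h2 e1 e2 with h | h | h
    · exact Or.inl h.2
    · exact Or.inr (Or.inl h.2)
    · exact Or.inr (Or.inr h.2)
  · intro f fx fy fz fw
    obtain ⟨ω, hω, e1, e2, e3⟩ := plane_of_C2_aux hL (a := y) (b := x) (c := z) (d := x + y + z)
      (by abel) fy fx fz fw (by
        intro ω₁ h1 ω₂ h2 e1 e2
        rcases h ω₁ h1 ω₂ h2 e1 e2 with h | h | h
        · exact Or.inl ⟨h.1, h.2.2⟩
        · exact Or.inr (Or.inl ⟨h.1, h.2.2⟩)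
        · exact Or.inr (Or.inr ⟨h.1, h.2.2⟩))
    exact ⟨ω, hω, e2, e1, e3⟩
  · intro f fx fy fz fw
    obtain ⟨ω, hω, e1, e2, e3⟩ := plane_of_C2_aux hL (a := z) (b := x) (c := y) (d := x + y + z)
      (by abel) fz fx fy fw (by
        intro ω₁ h1 ω₂ h2 e1 e2
        rcases h ω₁ h1 ω₂ h2 e1 e2 with h | h | h
        · exact Or.inl ⟨h.1, h.2.1⟩
        · exact Or.inr (Or.inl ⟨h.1, h.2.1⟩)
        · exact Or.inr (Or.inr ⟨h.1, h.2.1⟩))
    exact ⟨ω, hω, e2, e3, e1⟩
  · intro f fx fy fz fw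
    have hs : (x + y + z) + x + y = z := by
      have : (x + y + z) + x + y = (x + x) + (y + y) + z := by abel
      rw [this, vadd, vadd, zero_add, zero_add]
    obtain ⟨ω, hω, e1, e2, e3⟩ := plane_of_C2_aux hL (a := x + y + z) (b := x) (c := y) (d := z)
      hs fw fx fy fz (by
        intro ω₁ h1 ω₂ h2 e1 e2
        rcases h ω₁ h1 ω₂ h2 e1 e2 with h | h | h
        · exact Or.inl ⟨h.1, h.2.1⟩
        · exact Or.inr (Or.inl ⟨h.1, h.2.1⟩)
        · exact Or.inr (Or.inr ⟨h.1, h.2.1⟩))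
    refine ⟨ω, hω, e2, e3, ?_⟩
    rw [four hs, e1, e2, e3, hfff]

/-- plane linkage gives linkage of the members killing `u` -/
theorem linked_ann {A : Fam V} (hA : EFam e A) (hL : Linked A)
    (hP : ∀ x y z : V, PlaneAt A x y z) (u : V) : Linked (res A (ann u)) := by
  intro ω hω η hη a c hac
  obtain ⟨hωA, hωu⟩ := (mem_res_ann hA).1 hω
  obtain ⟨hηA, hηu⟩ := (mem_res_ann hA).1 hη
  obtain ⟨ζ, hζ, h1, h2⟩ := hL ω hωA η hηA a c hac
  have b1 : In A (u + a) (ζ u) := by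
    refine ⟨ζ + ω, A.add_mem hζ hωA, ?_⟩
    rw [LinearMap.add_apply, map_add, map_add, h1, hωu, zero_add, add_assoc, vadd, add_zero]
  have b2 : In A (u + c) (ζ u) := by
    refine ⟨ζ + η, A.add_mem hζ hηA, ?_⟩
    rw [LinearMap.add_apply, map_add, map_add, h2, hηu, zero_add, ← hac, add_assoc, vadd, add_zero]
  have b3 : In A (u + (u + a) + (u + c)) (ζ u) := by
    refine ⟨ζ, hζ, ?_⟩
    rw [map_add, map_add, map_add, map_add, h1, h2]
    have : ζ u + (ζ u + ω a) + (ζ u + ω a) = ζ u + ((ζ u + ω a) + (ζ u + ω a)) := by abel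
    rw [this, vadd, add_zero]
  obtain ⟨θ, hθ, t1, t2, t3⟩ := hP u (u + a) (u + c) (ζ u) ⟨ζ, hζ, rfl⟩ b1 b2 b3
  have t4 : θ a = 0 := by
    rw [map_add, t1] at t2
    exact left_eq_add.1 t2.symm
  have t5 : θ c = 0 := by
    rw [map_add, t1] at t3
    exact left_eq_add.1 t3.symm
  refine ⟨ζ + θ, (mem_res_ann hA).2 ⟨A.add_mem hζ hθ, ?_⟩, ?_, ?_⟩
  · rw [LinearMap.add_apply, t1, vadd]
  · rw [LinearMap.add_apply, t4, add_zero, h1]
  · rw [LinearMap.add_apply, t5, add_zero, h2]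

theorem SmallAt.mono {A B : Fam V} (hBA : B ≤ A) {x y z : V} (h : SmallAt A x y z) :
    SmallAt B x y z := by
  have hR : ∀ p, R2 A p → R2 B p := fun p hp ω₁ h1 ω₂ h2 ω₃ h3 =>
    hp ω₁ (hBA h1) ω₂ (hBA h2) ω₃ (hBA h3)
  have hC : ∀ p, C2 A p x y z → C2 B p x y z := fun p hp ω₁ h1 ω₂ h2 =>
    hp ω₁ (hBA h1) ω₂ (hBA h2)
  rcases h with ⟨h1, h2, h3, h4⟩ | h | h | h | h
  · exact Or.inl ⟨hR _ h1, hR _ h2, hR _ h3, hR _ h4⟩
  · exact Or.inr (Or.inl (hC _ h))
  · exact Or.inr (Or.inr (Or.inl (hC _ h)))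
  · exact Or.inr (Or.inr (Or.inr (Or.inl (hC _ h))))
  · exact Or.inr (Or.inr (Or.inr (Or.inr (hC _ h))))

theorem linked_list [Finite V] (l : List V) : ∀ A : Fam V, EFam e A → Linked A →
    (∀ x y z : V, SmallAt A x y z) → Linked (l.foldl (fun B u => res B (ann u)) A) := by
  induction l with
  | nil => intro A _ h _; exact h
  | cons u l ih =>
    intro A hA hL hS
    exact ih _ (hA.res _) (linked_ann hA hL (fun x y z => plane_of_small hL (hS x y z)) u)
      (fun x y z => (hS x y z).mono (res_le A _))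

theorem mem_list (l : List V) : ∀ A : Fam V, EFam e A → ∀ ω,
    ω ∈ l.foldl (fun B u => res B (ann u)) A ↔ ω ∈ A ∧ ∀ u ∈ l, ω u = 0 := by
  induction l with
  | nil => intro A _ ω; simp
  | cons u l ih =>
    intro A hA ω
    rw [List.foldl_cons, ih _ (hA.res _) ω, mem_res_ann hA]
    simp [and_assoc]

/-- **Main theorem for families**: linked families which are small on three-generated subgroups are
hereditarily linked. -/
theorem hered_of_small [Finite V] {A : Fam V} (hA : EFam e A) (hL : Linked A)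
    (hS : ∀ x y z : V, SmallAt A x y z) : Hered A := by
  classical
  intro X
  have : Fintype V := Fintype.ofFinite V
  let l : List V := (Finset.univ.filter (fun b : V => ∀ g ∈ X, g b = 0)).toList
  have hl : ∀ b, b ∈ l ↔ ∀ g ∈ X, g b = 0 := by
    intro b
    simp [l]
  have h1 : l.foldl (fun B u => res B (ann u)) A = res A X := by
    ext ω
    rw [mem_list l A hA ω]
    constructor
    · rintro ⟨h1, h2⟩
      refine ⟨h1, fun y => mem_of_coann fun b hb => ?_⟩
      rw [(hA ω h1).symm, h2 b ((hl b).2 hb)]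
      rfl
    · rintro ⟨h1, h2⟩
      refine ⟨h1, fun u hu => ?_⟩
      ext y
      rw [(hA ω h1).symm]
      exact (hl u).1 hu _ (h2 y)
  rw [← h1]
  exact linked_list l A hA hL hS

end

end Pool.Agent.TH188.ETP
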